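import Pool.Agent.Lib_helper39.PEQ.Defs

/-! block EA1 of PEQ, proved by helper89 -/

set_option autoImplicit false

namespace Pool.Agent.PENT.EQ

open Finset

theorem ea1_add (x y : ℝ) : ee (x + y) = ee x * ee y := by
  simp only [ee]
  rw [← Complex.exp_add]
  congr 1
  push_cast
  ring

theorem ea1_norm (x : ℝ) : ‖ee x‖ = 1 := by
  simp only [ee]
  rw [Complex.norm_exp]
  simp

theorem ea1_int (n : ℤ) : ee (n : ℝ) = 1 := by
  simp only [ee]
  have h := Complex.exp_int_mul_two_pi_mul_I n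
  rw [← h]
  congr 1
  push_cast
  ring

theorem ea1_lower (x : ℝ) : 4 * nd x ≤ ‖1 - ee x‖ := by
  set y : ℝ := x - round x with hy
  have hy1 : |y| ≤ 1 / 2 := abs_sub_round x
  have h1 : ee x = ee y := by
    have : x = y + ((round x : ℤ) : ℝ) := by rw [hy]; ring
    rw [this, ea1_add, ea1_int, mul_one]
  have h3 : ‖1 - ee y‖ = 2 * |Real.sin (Real.pi * y)| := by
    have h4 : ee y = Complex.exp (Complex.I * ((2 * Real.pi * y : ℝ) : ℂ)) := by
      simp only [ee]
      congr 1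
      push_cast
      ring
    rw [h4, norm_sub_rev, Complex.norm_exp_I_mul_ofReal_sub_one]
    rw [norm_mul, Real.norm_eq_abs, Real.norm_eq_abs, abs_of_pos (by norm_num : (0 : ℝ) < 2)]
    congr 3
    ring
  have hnd : nd x = |y| := rfl
  rw [h1, h3, hnd]
  have h5 : |Real.pi * y| ≤ Real.pi / 2 := by
    rw [abs_mul, abs_of_pos Real.pi_pos]
    have := mul_le_mul_of_nonneg_left hy1 Real.pi_pos.le
    linarith
  have h6 := Real.mul_abs_le_abs_sin h5
  rw [abs_mul, abs_of_pos Real.pi_pos] at h6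
  have h7 : 2 / Real.pi * (Real.pi * |y|) = 2 * |y| := by
    have := Real.pi_pos.ne'
    field_simp
  rw [h7] at h6
  linarith

theorem ea1_tele (φ : ℝ) (a b : ℤ) (hab : a ≤ b) :
    (1 - ee φ) * ∑ γ ∈ Ioc a b, ee (φ * γ) = ee (φ * (a + 1)) - ee (φ * (b + 1)) := by
  induction b, hab using Int.leInduction with
  | base => simp
  | succ b hb ih =>
    have h1 : Ioc a (b + 1) = insert (b + 1) (Ioc a b) := by
      ext x
      simp only [mem_Ioc, mem_insert]
      omega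
    have h2 : (b + 1 : ℤ) ∉ Ioc a b := by simp
    rw [h1, sum_insert h2, mul_add, ih]
    have h3 : ee (φ * (((b + 1 : ℤ) : ℝ) + 1)) = ee (φ * ((b + 1 : ℤ) : ℝ)) * ee φ := by
      rw [← ea1_add]
      congr 1
      ring
    rw [h3]
    push_cast
    ring

/-- EA1 -/
theorem geo_pr (φ : ℝ) (a b : ℤ) (hab : a ≤ b) :
    ‖∑ γ ∈ Ioc a b, ee (φ * γ)‖ ≤ (b : ℝ) - a ∧ ‖∑ γ ∈ Ioc a b, ee (φ * γ)‖ * (2 * nd φ) ≤ 1 := by
  refine ⟨?_, ?_⟩
  · refine (norm_sum_le _ _).trans ?_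
    simp_rw [ea1_norm]
    rw [sum_const, Int.card_Ioc, nsmul_eq_mul, mul_one]
    have h : (((b - a).toNat : ℤ) : ℝ) = ((b - a : ℤ) : ℝ) := by
      rw [Int.toNat_of_nonneg (by omega)]
    rw [Int.cast_natCast] at h
    rw [h]
    push_cast
    exact le_refl _
  · have h1 := ea1_tele φ a b hab
    have h2 : ‖(1 - ee φ) * ∑ γ ∈ Ioc a b, ee (φ * γ)‖ ≤ 2 := by
      rw [h1]
      refine (norm_sub_le _ _).trans ?_
      rw [ea1_norm, ea1_norm]
      norm_num
    rw [norm_mul] at h2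
    have h3 := ea1_lower φ
    have h4 : 0 ≤ ‖∑ γ ∈ Ioc a b, ee (φ * γ)‖ := norm_nonneg _
    have h5 := mul_le_mul_of_nonneg_right h3 h4
    linarith

theorem geo : type_of% @geo_pr := @geo_pr

end Pool.Agent.PENT.EQ
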