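import Pool.Agent.Lib_helper39.PEQ.Defs

/-! block EA2 of PEQ, proved by helper33 -/

set_option autoImplicit false

namespace Pool.Agent.PENT.EQ

open Finset

theorem ea2_harm (m : ℕ) : ∑ r ∈ range (m + 1), ((r : ℝ))⁻¹ ≤ 1 + Real.log (m + 1 : ℕ) := by
  rw [Finset.sum_range_succ']
  have h1 : ((harmonic m : ℚ) : ℝ) ≤ 1 + Real.log m := harmonic_le_one_add_log m
  have h2 : ((harmonic m : ℚ) : ℝ) = ∑ r ∈ range m, (((r + 1 : ℕ) : ℝ))⁻¹ := by
    rw [harmonic]; push_cast; rfl
  rw [Nat.cast_zero, inv_zero, add_zero, ← h2]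
  refine h1.trans ?_
  rcases Nat.eq_zero_or_pos m with rfl | hm
  · simp
  · have : Real.log m ≤ Real.log (m + 1 : ℕ) := by
      refine Real.log_le_log (by exact_mod_cast hm) ?_
      push_cast; linarith
    linarith

/-- lower bound for the distance to the nearest integer -/
theorem ea2_nd (x a : ℝ) (k : ℤ) (h1 : (k : ℝ) + a ≤ x) (h2 : x ≤ k + 1 - a) : a ≤ nd x := by
  unfold nd
  rcases le_or_gt (round x) k with h | h
  · have h3 : ((round x : ℤ) : ℝ) ≤ k := by exact_mod_cast h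
    have := le_abs_self (x - round x)
    linarith
  · have h3 : ((k : ℝ) + 1) ≤ (round x : ℤ) := by exact_mod_cast h
    have := neg_abs_le (x - round x)
    linarith

theorem spaced_pr (q : ℕ) (hq : 1 ≤ q) (φ L : ℝ) (hL : 0 ≤ L) (f : ℕ → ℝ)
    (h0 : ∀ s ∈ range q, 0 ≤ f s) (h1 : ∀ s ∈ range q, f s ≤ L)
    (h2 : ∀ s ∈ range q, f s * (2 * nd (φ - s / q)) ≤ 1) :
    ∑ s ∈ range q, f s ≤ 2 * L + q * (1 + Real.log q) := by
  obtain ⟨m, rfl⟩ : ∃ m, q = m + 1 := ⟨q - 1, by omega⟩
  set q := m + 1 with hqdef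
  have hqpos : (0 : ℝ) < (q : ℝ) := by exact_mod_cast (show 0 < q by omega)
  have hqz : (0 : ℤ) < (q : ℤ) := by exact_mod_cast (show 0 < q by omega)
  set n : ℤ := ⌊φ * q⌋ with hn
  have hn1 : (n : ℝ) ≤ φ * q := Int.floor_le _
  have hn2 : φ * q < n + 1 := Int.lt_floor_add_one _
  set g : ℕ → ℝ := fun r => (if r = 0 then L else 0) + (if r = m then L else 0) +
    (q / 2) * ((r : ℝ))⁻¹ + (q / 2) * (((m - r : ℕ) : ℝ))⁻¹ with hg
  have hg0 : ∀ r, 0 ≤ g r := by
    intro r
    simp only [hg]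
    have a1 : (0 : ℝ) ≤ if r = 0 then L else 0 := by split_ifs <;> first | exact hL | exact le_rfl
    have a2 : (0 : ℝ) ≤ if r = m then L else 0 := by split_ifs <;> first | exact hL | exact le_rfl
    positivity
  set i : ℕ → ℕ := fun s => ((n - s) % (q : ℤ)).toNat with hi
  have him : ∀ s, i s < q := by
    intro s
    simp only [hi]
    have b1 := Int.emod_nonneg (n - s) hqz.ne'
    have b2 := Int.emod_lt_of_pos (n - s) hqz
    omega
  have hinj : Set.InjOn i (range q : Set ℕ) := by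
    intro s hs t ht hst
    simp only [hi] at hst
    have hs' : s < q := by simpa using hs
    have ht' : t < q := by simpa using ht
    have b1 := Int.emod_nonneg (n - s) hqz.ne'
    have b2 := Int.emod_nonneg (n - t) hqz.ne'
    have e : (n - s) % (q : ℤ) = (n - t) % (q : ℤ) := by omega
    have e2 : (q : ℤ) ∣ (n - s) - (n - t) :=
      Int.ModEq.dvd (show (n - t) ≡ (n - s) [ZMOD q] from e.symm)
    have e3 : (q : ℤ) ∣ (t : ℤ) - s := by
      have : (n - s) - (n - t) = (t : ℤ) - s := by ring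
      rwa [this] at e2
    have e4 : |(t : ℤ) - s| < q := by
      rw [abs_lt]; constructor <;> omega
    have e5 := Int.eq_zero_of_abs_lt_dvd e3 e4
    omega
  have key : ∀ s ∈ range q, f s ≤ g (i s) := by
    intro s hs
    have hr := him s
    have hrm : i s ≤ m := by omega
    have hi0 : (0 : ℝ) ≤ (q / 2) * ((i s : ℝ))⁻¹ := by positivity
    have hi1 : (0 : ℝ) ≤ (q / 2) * (((m - i s : ℕ) : ℝ))⁻¹ := by positivity
    by_cases c1 : i s = 0
    · have a2 : (0 : ℝ) ≤ if i s = m then L else 0 := by split_ifs <;> first | exact hL | exact le_rfl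
      have : L ≤ g (i s) := by
        show L ≤ (if i s = 0 then L else 0) + (if i s = m then L else 0) +
          (q / 2) * ((i s : ℝ))⁻¹ + (q / 2) * (((m - i s : ℕ) : ℝ))⁻¹
        rw [if_pos c1]; linarith
      exact (h1 s hs).trans this
    by_cases c2 : i s = m
    · have a2 : (0 : ℝ) ≤ if i s = 0 then L else 0 := by split_ifs <;> first | exact hL | exact le_rfl
      have : L ≤ g (i s) := by
        show L ≤ (if i s = 0 then L else 0) + (if i s = m then L else 0) +
          (q / 2) * ((i s : ℝ))⁻¹ + (q / 2) * (((m - i s : ℕ) : ℝ))⁻¹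
        rw [if_pos c2]; linarith
      exact (h1 s hs).trans this
    show f s ≤ (if i s = 0 then L else 0) + (if i s = m then L else 0) +
          (q / 2) * ((i s : ℝ))⁻¹ + (q / 2) * (((m - i s : ℕ) : ℝ))⁻¹
    rw [if_neg c1, if_neg c2]
    have hr1 : (1 : ℝ) ≤ (i s : ℝ) := by exact_mod_cast Nat.one_le_iff_ne_zero.2 c1
    have hr2 : (1 : ℝ) ≤ ((m - i s : ℕ) : ℝ) := by
      exact_mod_cast (show 1 ≤ m - i s by omega)
    have hmr : ((m - i s : ℕ) : ℝ) = q - 1 - i s := by
      rw [Nat.cast_sub hrm, hqdef]; push_cast; ring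
    have hdiv : ((i s : ℕ) : ℤ) = (n - s) % (q : ℤ) := by
      simp only [hi]
      exact Int.toNat_of_nonneg (Int.emod_nonneg _ hqz.ne')
    set k : ℤ := (n - s) / (q : ℤ) with hk
    have hns : (n : ℝ) - s = i s + q * k := by
      have h3 := Int.emod_add_mul_ediv (n - s) (q : ℤ)
      rw [← hdiv, ← hk] at h3
      have h4 : (((i s : ℕ) : ℤ) : ℝ) + ((q : ℤ) : ℝ) * (k : ℝ) = ((n - s : ℤ) : ℝ) := by
        exact_mod_cast h3
      push_cast at h4
      linarith
    have hx : φ - s / q = (φ * q - s) / q := by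
      field_simp
    have lower : ∀ a : ℝ, a ≤ i s → a ≤ ((m - i s : ℕ) : ℝ) → a / q ≤ nd (φ - s / q) := by
      intro a ha1 ha2
      refine ea2_nd _ _ k ?_ ?_
      · rw [hx, le_div_iff₀ hqpos, add_mul, div_mul_cancel₀ _ hqpos.ne']
        linarith
      · rw [hx, div_le_iff₀ hqpos, sub_mul, add_mul, div_mul_cancel₀ _ hqpos.ne']
        rw [hmr] at ha2
        linarith
    have hf := h2 s hs
    have hf0 := h0 s hs
    rcases le_total ((i s : ℝ)) (((m - i s : ℕ) : ℝ)) with hle | hle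
    · have hl := lower _ le_rfl hle
      have : f s * (2 * (i s / q)) ≤ 1 :=
        (mul_le_mul_of_nonneg_left (by linarith) hf0).trans hf
      have h5 : f s ≤ (q / 2) * ((i s : ℝ))⁻¹ := by
        rw [← div_eq_mul_inv, le_div_iff₀ (by linarith), le_div_iff₀ (by norm_num)]
        have h6 : f s * (2 * (i s / q)) = f s * i s * 2 / q := by ring
        rw [h6, div_le_iff₀ hqpos] at this
        linarith
      linarith
    · have hl := lower _ hle le_rfl
      have : f s * (2 * (((m - i s : ℕ) : ℝ) / q)) ≤ 1 :=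
        (mul_le_mul_of_nonneg_left (by linarith) hf0).trans hf
      have h5 : f s ≤ (q / 2) * (((m - i s : ℕ) : ℝ))⁻¹ := by
        rw [← div_eq_mul_inv, le_div_iff₀ (by linarith), le_div_iff₀ (by norm_num)]
        have h6 : f s * (2 * (((m - i s : ℕ) : ℝ) / q)) = f s * ((m - i s : ℕ) : ℝ) * 2 / q := by
          ring
        rw [h6, div_le_iff₀ hqpos] at this
        linarith
      linarith
  have hsum1 : ∑ s ∈ range q, f s ≤ ∑ r ∈ range q, g r := by
    refine (Finset.sum_le_sum key).trans ?_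
    rw [← Finset.sum_image (g := i) (f := g) hinj]
    refine Finset.sum_le_sum_of_subset_of_nonneg ?_ fun r _ _ => hg0 r
    intro r hr
    obtain ⟨s, _, rfl⟩ := Finset.mem_image.1 hr
    exact Finset.mem_range.2 (him s)
  refine hsum1.trans ?_
  have e1 : ∑ r ∈ range q, g r = (∑ r ∈ range q, if r = 0 then L else 0) +
      (∑ r ∈ range q, if r = m then L else 0) + (q / 2) * (∑ r ∈ range q, ((r : ℝ))⁻¹) +
      (q / 2) * (∑ r ∈ range q, (((m - r : ℕ) : ℝ))⁻¹) := by
    simp only [hg]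
    rw [Finset.sum_add_distrib, Finset.sum_add_distrib, Finset.sum_add_distrib,
      ← Finset.mul_sum, ← Finset.mul_sum]
  have e2 : (∑ r ∈ range q, if r = 0 then L else 0) = L := by
    rw [Finset.sum_ite_eq', if_pos (Finset.mem_range.2 (by omega))]
  have e3 : (∑ r ∈ range q, if r = m then L else 0) = L := by
    rw [Finset.sum_ite_eq', if_pos (Finset.mem_range.2 (by omega))]
  have e4 : ∑ r ∈ range q, (((m - r : ℕ) : ℝ))⁻¹ = ∑ r ∈ range q, ((r : ℝ))⁻¹ := by
    have := Finset.sum_range_reflect (fun r => ((r : ℝ))⁻¹) q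
    rw [← this]
    refine Finset.sum_congr rfl fun r _ => ?_
    rw [hqdef, Nat.add_sub_cancel]
  have e5 := ea2_harm m
  rw [← hqdef] at e5
  rw [e1, e2, e3, e4]
  have e6 : (q : ℝ) / 2 * (∑ r ∈ range q, ((r : ℝ))⁻¹) ≤ q / 2 * (1 + Real.log q) :=
    mul_le_mul_of_nonneg_left e5 (by positivity)
  linarith

theorem spaced : type_of% @spaced_pr := @spaced_pr

end Pool.Agent.PENT.EQ
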