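import Pool.Agent.Lib_helper19.LSPD.KLP
import Pool.Agent.Lib_helper39.PEQ.Defs
import Pool.Agent.Lib_helper39.PEQF.EA1
import Pool.Agent.Lib_helper39.PEQF.EA2

/-! block EA3 of PEQ, proved by helper19 -/

/-! PENT part EQ, block EA3: incomplete Kloosterman sums with a real twist. -/

set_option autoImplicit false

namespace Pool.Agent.PENT.EQ

open Finset

theorem ea3_add (x y : ℝ) : ee (x + y) = ee x * ee y := by
  unfold ee
  rw [← Complex.exp_add]
  congr 1
  push_cast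
  ring

theorem ea3_std (q : ℕ) [NeZero q] (j : ℤ) :
    (ZMod.stdAddChar (N := q) (j : ZMod q) : ℂ) = ee (j / q) := by
  rw [ZMod.stdAddChar_coe]
  unfold ee
  congr 1
  push_cast
  ring

theorem ea3_range {q : ℕ} [NeZero q] (f : ZMod q → ℂ) :
    ∑ s ∈ range q, f (s : ZMod q) = ∑ s : ZMod q, f s := by
  refine Finset.sum_nbij' (fun s : ℕ => (s : ZMod q)) (fun s => s.val) ?_ ?_ ?_ ?_ ?_
  · intro s _
    exact mem_univ _
  · intro s _
    exact mem_range.2 (ZMod.val_lt s)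
  · intro s hs
    exact ZMod.val_cast_of_lt (mem_range.1 hs)
  · intro s _
    exact ZMod.natCast_zmod_val s
  · intro s _
    rfl

theorem ea3_dual (q : ℕ) [NeZero q] (A γ : ℤ) :
    ∑ s : ZMod q, LSPD.klS q (A : ZMod q) s * (ZMod.stdAddChar (N := q) (s * (-(γ : ZMod q))) : ℂ) =
      if IsCoprime γ (q : ℤ) then (q : ℂ) * ee (A * iv q γ / q) else 0 := by
  have h1 : ∑ s : ZMod q, LSPD.klS q (A : ZMod q) s *
      (ZMod.stdAddChar (N := q) (s * (-(γ : ZMod q))) : ℂ) =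
      ∑ x : (ZMod q)ˣ, (ZMod.stdAddChar (N := q) ((A : ZMod q) * ((x⁻¹ : (ZMod q)ˣ) : ZMod q)) : ℂ) *
        (if (x : ZMod q) - γ = 0 then (q : ℂ) else 0) := by
    unfold LSPD.klS
    simp_rw [Finset.sum_mul]
    rw [Finset.sum_comm]
    refine Finset.sum_congr rfl fun x _ => ?_
    rw [← LSPD.klo_sum_char, Finset.mul_sum]
    refine Finset.sum_congr rfl fun s _ => ?_
    rw [← AddChar.map_add_eq_mul, ← AddChar.map_add_eq_mul]
    congr 1
    ring
  rw [h1]
  split_ifs with hc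
  · obtain ⟨u, v, huv⟩ := hc
    have hu : IsUnit (γ : ZMod q) := by
      refine isUnit_iff_exists_inv'.2 ⟨(u : ZMod q), ?_⟩
      have := congrArg (fun z : ℤ => (z : ZMod q)) huv
      push_cast at this
      rw [ZMod.natCast_self, mul_zero, add_zero] at this
      exact this
    obtain ⟨y, hy⟩ := hu
    rw [Finset.sum_eq_single y]
    · rw [if_pos (by rw [hy]; ring), mul_comm]
      congr 1
      have h2 : ((A : ZMod q)) * ((y⁻¹ : (ZMod q)ˣ) : ZMod q) = ((A * iv q γ : ℤ) : ZMod q) := by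
        unfold iv
        rw [← ZMod.inv_coe_unit, hy]
        push_cast
        rw [ZMod.natCast_zmod_val]
      rw [h2, ea3_std]
      push_cast
      rfl
    · intro x _ hx
      rw [if_neg, mul_zero]
      intro h0
      apply hx
      apply Units.ext
      rw [hy]
      exact sub_eq_zero.1 h0
    · intro h
      exact absurd (mem_univ _) h
  · refine Finset.sum_eq_zero fun x _ => ?_
    rw [if_neg, mul_zero]
    intro h0
    apply hc
    have h3 : (γ : ZMod q) = x := (sub_eq_zero.1 h0).symm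
    have h4 : ((γ * ((x⁻¹ : (ZMod q)ˣ) : ZMod q).val - 1 : ℤ) : ZMod q) = 0 := by
      push_cast
      rw [ZMod.natCast_zmod_val, h3, Units.mul_inv, sub_self]
    rw [ZMod.intCast_zmod_eq_zero_iff_dvd] at h4
    obtain ⟨k, hk⟩ := h4
    exact ⟨((x⁻¹ : (ZMod q)ˣ) : ZMod q).val, -k, by linarith⟩

theorem ea3_klB (q : ℕ) [NeZero q] (A : ℤ) (s : ℕ) :
    ‖LSPD.klS q (A : ZMod q) (s : ZMod q)‖ ≤ klB q (Int.gcd A q) := by
  have h := LSPD.kl_bound_pr q A (s : ℤ)
  rw [LSPD.klp_KL] at h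
  have hq : 0 < q := Nat.pos_of_ne_zero (NeZero.ne q)
  have hg : Nat.gcd (Int.gcd A s) q ≤ Int.gcd A q := by
    apply Nat.le_of_dvd
    · exact Int.gcd_pos_of_ne_zero_right _ (by exact_mod_cast hq.ne')
    · apply Int.dvd_gcd
      · have := Nat.gcd_dvd_left (Int.gcd A s) q
        exact (Int.natCast_dvd_natCast.2 this).trans (Int.gcd_dvd_left _ _)
      · exact_mod_cast Nat.gcd_dvd_right (Int.gcd A s) q
  have h2 : ‖LSPD.klS q (A : ZMod q) (s : ZMod q)‖ ^ 4 ≤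
      2 * (q : ℝ) ^ 3 * (Int.gcd A q : ℕ) * (q.divisors.card : ℝ) ^ 3 := by
    refine le_trans (by simpa using h) ?_
    unfold LSPD.tau
    have : ((Nat.gcd (Int.gcd A s) q : ℕ) : ℝ) ≤ (Int.gcd A q : ℕ) := by exact_mod_cast hg
    gcongr
  unfold klB
  have h3 : ‖LSPD.klS q (A : ZMod q) (s : ZMod q)‖ =
      (‖LSPD.klS q (A : ZMod q) (s : ZMod q)‖ ^ 4) ^ (1 / 4 : ℝ) := by
    rw [← Real.rpow_natCast, ← Real.rpow_mul (norm_nonneg _)]
    norm_num
  rw [h3]
  exact Real.rpow_le_rpow (by positivity) h2 (by norm_num)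

theorem inc_kl_pr (q : ℕ) (hq : 1 ≤ q) (A a b : ℤ) (hab : a ≤ b) (φ : ℝ) :
    ‖∑ γ ∈ (Ioc a b).filter (fun γ => IsCoprime γ (q : ℤ)), ee (A * iv q γ / q + φ * γ)‖ ≤
      klB q (Int.gcd A q) * (2 * ((b : ℝ) - a) / q + 1 + Real.log q) := by
  have : NeZero q := ⟨by omega⟩
  have hq0 : (0 : ℝ) < q := by exact_mod_cast (by omega : 0 < q)
  have hqc : (q : ℂ) ≠ 0 := by exact_mod_cast (NeZero.ne q)
  have key : (q : ℂ) * ∑ γ ∈ (Ioc a b).filter (fun γ => IsCoprime γ (q : ℤ)),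
      ee (A * iv q γ / q + φ * γ) =
      ∑ s ∈ range q, LSPD.klS q (A : ZMod q) (s : ZMod q) *
        ∑ γ ∈ Ioc a b, ee ((φ - s / q) * γ) := by
    rw [Finset.sum_filter, Finset.mul_sum]
    simp_rw [Finset.mul_sum]
    rw [Finset.sum_comm]
    refine Finset.sum_congr rfl fun γ _ => ?_
    have h1 := ea3_dual q A γ
    rw [← ea3_range (fun s => LSPD.klS q (A : ZMod q) s *
      (ZMod.stdAddChar (N := q) (s * (-(γ : ZMod q))) : ℂ))] at h1
    have h2 : ∀ s ∈ range q, LSPD.klS q (A : ZMod q) (s : ZMod q) * ee ((φ - s / q) * γ) =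
        (LSPD.klS q (A : ZMod q) (s : ZMod q) *
          (ZMod.stdAddChar (N := q) ((s : ZMod q) * (-(γ : ZMod q))) : ℂ)) * ee (φ * γ) := by
      intro s _
      have h3 : ((s : ZMod q) * (-(γ : ZMod q))) = (((s : ℤ) * (-γ) : ℤ) : ZMod q) := by
        push_cast
        ring
      rw [h3, ea3_std, mul_assoc, ← ea3_add]
      congr 2
      push_cast
      ring
    rw [Finset.sum_congr rfl h2, ← Finset.sum_mul, h1]
    split_ifs with hc
    · rw [mul_assoc, ← ea3_add]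
    · ring
  have hL : (0 : ℝ) ≤ (b : ℝ) - a := by
    have : (a : ℝ) ≤ b := by exact_mod_cast hab
    linarith
  have hsp := spaced q hq φ ((b : ℝ) - a) hL (fun s => ‖∑ γ ∈ Ioc a b, ee ((φ - s / q) * γ)‖)
    (fun s _ => norm_nonneg _) (fun s _ => (geo (φ - s / q) a b hab).1)
    (fun s _ => (geo (φ - s / q) a b hab).2)
  have hn : (q : ℝ) * ‖∑ γ ∈ (Ioc a b).filter (fun γ => IsCoprime γ (q : ℤ)),
      ee (A * iv q γ / q + φ * γ)‖ ≤
      klB q (Int.gcd A q) * (2 * ((b : ℝ) - a) + q * (1 + Real.log q)) := by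
    have e1 : (q : ℝ) * ‖∑ γ ∈ (Ioc a b).filter (fun γ => IsCoprime γ (q : ℤ)),
        ee (A * iv q γ / q + φ * γ)‖ = ‖(q : ℂ) *
          ∑ γ ∈ (Ioc a b).filter (fun γ => IsCoprime γ (q : ℤ)), ee (A * iv q γ / q + φ * γ)‖ := by
      rw [norm_mul, Complex.norm_natCast]
    rw [e1, key]
    have hB : 0 ≤ klB q (Int.gcd A q) := by
      unfold klB
      positivity
    calc ‖∑ s ∈ range q, LSPD.klS q (A : ZMod q) (s : ZMod q) *
          ∑ γ ∈ Ioc a b, ee ((φ - s / q) * γ)‖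
        ≤ ∑ s ∈ range q, ‖LSPD.klS q (A : ZMod q) (s : ZMod q) *
          ∑ γ ∈ Ioc a b, ee ((φ - s / q) * γ)‖ := norm_sum_le _ _
      _ ≤ ∑ s ∈ range q, klB q (Int.gcd A q) * ‖∑ γ ∈ Ioc a b, ee ((φ - s / q) * γ)‖ := by
          refine Finset.sum_le_sum fun s _ => ?_
          rw [norm_mul]
          exact mul_le_mul_of_nonneg_right (ea3_klB q A s) (norm_nonneg _)
      _ = klB q (Int.gcd A q) * ∑ s ∈ range q, ‖∑ γ ∈ Ioc a b, ee ((φ - s / q) * γ)‖ := by
          rw [Finset.mul_sum]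
      _ ≤ _ := mul_le_mul_of_nonneg_left hsp hB
  have hfin : klB q (Int.gcd A q) * (2 * ((b : ℝ) - a) / q + 1 + Real.log q) =
      (klB q (Int.gcd A q) * (2 * ((b : ℝ) - a) + q * (1 + Real.log q))) / q := by
    field_simp
    ring
  rw [hfin, le_div_iff₀ hq0, mul_comm]
  exact hn

theorem inc_kl : type_of% @inc_kl_pr := @inc_kl_pr

end Pool.Agent.PENT.EQ
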