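import Pool.Agent.Lib_helper39.PEQ.Defs
import Pool.Agent.Lib_helper39.PEQF.EA3

/-! block EA4 of PEQ, proved by helper87 -/

/-! PEQ, block EA4 -/

set_option autoImplicit false

namespace Pool.Agent.PENT.EQ

open Finset

theorem ea4_norm (x : ℝ) : ‖ee x‖ = 1 := by
  unfold ee
  have h : (2 * Real.pi * x * Complex.I : ℂ) = ((2 * Real.pi * x : ℝ) : ℂ) * Complex.I := by
    push_cast
    ring
  rw [h, Complex.norm_exp_ofReal_mul_I]

theorem ea4_add (x y : ℝ) : ee (x + y) = ee x * ee y := by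
  unfold ee
  rw [← Complex.exp_add]
  congr 1
  push_cast
  ring

theorem ea4_pow (x : ℝ) (t : ℕ) : ee (t * x) = ee x ^ t := by
  unfold ee
  rw [← Complex.exp_nat_mul]
  congr 1
  push_cast
  ring

theorem ea4_int (n : ℤ) : ee (n : ℝ) = 1 := by
  unfold ee
  rw [Complex.exp_eq_one_iff]
  refine ⟨n, ?_⟩
  push_cast
  ring

theorem ea4_ne {L : ℕ} (hL : 1 ≤ L) {n : ℤ} (h : ¬ (L : ℤ) ∣ n) : ee ((n : ℝ) / L) ≠ 1 := by
  intro h1
  unfold ee at h1
  rw [Complex.exp_eq_one_iff] at h1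
  obtain ⟨m, hm⟩ := h1
  have hpi : (2 * Real.pi * Complex.I : ℂ) ≠ 0 := Complex.two_pi_I_ne_zero
  have hL0 : (L : ℂ) ≠ 0 := by exact_mod_cast (by omega : L ≠ 0)
  have h2 : ((n : ℂ) / L) = m := by
    have h3 : (2 * Real.pi * Complex.I : ℂ) * ((n : ℂ) / L) = (2 * Real.pi * Complex.I) * m := by
      have h4 : (2 * Real.pi * (((n : ℝ) / L : ℝ) : ℂ) * Complex.I : ℂ)
          = (2 * Real.pi * Complex.I : ℂ) * ((n : ℂ) / L) := by
        push_cast
        ring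
      rw [← h4, hm]
      ring
    exact mul_left_cancel₀ hpi h3
  have h5 : (n : ℂ) = L * m := by
    rw [div_eq_iff hL0] at h2
    rw [h2]
    ring
  exact h ⟨m, by exact_mod_cast h5⟩

/-- orthogonality -/
theorem ea4_orth {L : ℕ} (hL : 1 ≤ L) (n : ℤ) :
    ∑ t ∈ range L, ee (t * ((n : ℝ) / L)) = if (L : ℤ) ∣ n then (L : ℂ) else 0 := by
  have hL0 : (L : ℝ) ≠ 0 := by exact_mod_cast (by omega : L ≠ 0)
  simp only [ea4_pow]
  by_cases h : (L : ℤ) ∣ n
  · rw [if_pos h]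
    obtain ⟨m, hm⟩ := h
    have h1 : (n : ℝ) / L = ((m : ℤ) : ℝ) := by
      rw [hm]
      push_cast
      field_simp
    rw [h1, ea4_int]
    simp
  · rw [if_neg h]
    have h1 := ea4_ne hL h
    have h2 : ee ((n : ℝ) / L) ^ L = 1 := by
      rw [← ea4_pow]
      have h3 : (L : ℝ) * ((n : ℝ) / L) = (n : ℝ) := by field_simp
      rw [h3, ea4_int]
    have h4 := geom_sum_mul (ee ((n : ℝ) / L)) L
    rw [h2, sub_self] at h4
    rcases mul_eq_zero.1 h4 with h5 | h5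
    · exact h5
    · exact absurd (sub_eq_zero.1 h5) h1

/-- EA4: the same in a residue class (average over the twists `t/L`) -/
theorem inc_class_pr (q L : ℕ) (hq : 1 ≤ q) (hL : 1 ≤ L) (A a b g : ℤ) (hab : a ≤ b) :
    ‖∑ γ ∈ (Ioc a b).filter (fun γ => IsCoprime γ (q : ℤ) ∧ (L : ℤ) ∣ γ - g),
      ee (A * iv q γ / q)‖ ≤ klB q (Int.gcd A q) * (2 * ((b : ℝ) - a) / q + 1 + Real.log q) := by
  have hL0 : (L : ℝ) ≠ 0 := by exact_mod_cast (by omega : L ≠ 0)
  have hLc : (L : ℂ) ≠ 0 := by exact_mod_cast (by omega : L ≠ 0)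
  have hLpos : (0 : ℝ) < L := by exact_mod_cast hL
  set B := klB q (Int.gcd A q) * (2 * ((b : ℝ) - a) / q + 1 + Real.log q) with hB
  set S := (Ioc a b).filter (fun γ => IsCoprime γ (q : ℤ)) with hS
  have h1 : (Ioc a b).filter (fun γ => IsCoprime γ (q : ℤ) ∧ (L : ℤ) ∣ γ - g)
      = S.filter (fun γ => (L : ℤ) ∣ γ - g) := by
    rw [hS, Finset.filter_filter]
  have h2 : (L : ℂ) * ∑ γ ∈ S.filter (fun γ => (L : ℤ) ∣ γ - g), ee (A * iv q γ / q)
      = ∑ t ∈ range L, ee (-(t * ((g : ℝ) / L))) *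
        ∑ γ ∈ S, ee (A * iv q γ / q + (t / L : ℝ) * γ) := by
    rw [Finset.sum_filter, Finset.mul_sum]
    have h3 : ∀ γ : ℤ, (L : ℂ) * (if (L : ℤ) ∣ γ - g then ee (A * iv q γ / q) else 0)
        = ∑ t ∈ range L, ee (A * iv q γ / q) * ee (t * (((γ - g : ℤ) : ℝ) / L)) := by
      intro γ
      rw [← Finset.mul_sum, ea4_orth hL]
      by_cases h : (L : ℤ) ∣ γ - g
      · rw [if_pos h, if_pos h, mul_comm]
      · rw [if_neg h, if_neg h, mul_zero, mul_zero]
    rw [Finset.sum_congr rfl (fun γ _ => h3 γ), Finset.sum_comm]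
    refine Finset.sum_congr rfl fun t _ => ?_
    rw [Finset.mul_sum]
    refine Finset.sum_congr rfl fun γ _ => ?_
    rw [← ea4_add, ← ea4_add]
    congr 1
    push_cast
    field_simp
    ring
  have h4 : ‖(L : ℂ) * ∑ γ ∈ S.filter (fun γ => (L : ℤ) ∣ γ - g), ee (A * iv q γ / q)‖ ≤ L * B := by
    rw [h2]
    refine le_trans (norm_sum_le _ _) ?_
    have h5 : ∀ t ∈ range L, ‖ee (-(t * ((g : ℝ) / L))) *
        ∑ γ ∈ S, ee (A * iv q γ / q + (t / L : ℝ) * γ)‖ ≤ B := by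
      intro t _
      rw [norm_mul, ea4_norm, one_mul]
      exact inc_kl q hq A a b hab (t / L)
    refine le_trans (Finset.sum_le_sum h5) ?_
    rw [Finset.sum_const, Finset.card_range, nsmul_eq_mul]
  rw [norm_mul, Complex.norm_natCast] at h4
  rw [h1]
  exact le_of_mul_le_mul_left h4 hLpos

theorem inc_class : type_of% @inc_class_pr := @inc_class_pr

end Pool.Agent.PENT.EQ
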