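import Pool.Agent.Lib_helper39.PEQ.Defs

/-! block EB1 of PEQ, proved by helper37 -/

set_option autoImplicit false

namespace Pool.Agent.PENT.EQ

/-- EB1: splitting of the modulus -/
theorem split_mod_pr (M : ℕ) (hM : 1 ≤ M) (α γ : ℤ) (h : ∀ p : ℕ, p.Prime → p ∣ M →
    ¬ ((p : ℤ) ∣ α ∧ (p : ℤ) ∣ γ)) : ∃ M₁ M₂ : ℕ, M = M₁ * M₂ ∧ Nat.Coprime M₁ M₂ ∧
      IsCoprime (M₁ : ℤ) α ∧ IsCoprime (M₂ : ℤ) γ := by
  induction M using Nat.recOnPosPrimePosCoprime with
  | zero => omega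
  | one => exact ⟨1, 1, rfl, Nat.coprime_one_left 1, by simpa using isCoprime_one_left,
      by simpa using isCoprime_one_left⟩
  | prime_pow p k hp hk =>
    have hp' : Prime ((p : ℕ) : ℤ) := Nat.prime_iff_prime_int.1 hp
    have h1 := h p hp (dvd_pow_self p hk.ne')
    by_cases hα : (p : ℤ) ∣ α
    · refine ⟨1, p ^ k, by simp, Nat.coprime_one_left _, by simpa using isCoprime_one_left, ?_⟩
      push_cast
      apply IsCoprime.pow_left
      exact (Prime.coprime_iff_not_dvd hp').2 fun h2 => h1 ⟨hα, h2⟩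
    · refine ⟨p ^ k, 1, by simp, Nat.coprime_one_right _, ?_, by simpa using isCoprime_one_left⟩
      push_cast
      apply IsCoprime.pow_left
      exact (Prime.coprime_iff_not_dvd hp').2 hα
  | coprime a b ha hb hab iha ihb =>
    obtain ⟨a₁, a₂, ea, ca, ca1, ca2⟩ := iha ha.le
      (fun p hp hpa => h p hp (Dvd.dvd.mul_right hpa b))
    obtain ⟨b₁, b₂, eb, cb, cb1, cb2⟩ := ihb hb.le
      (fun p hp hpb => h p hp (Dvd.dvd.mul_left hpb a))
    refine ⟨a₁ * b₁, a₂ * b₂, ?_, ?_, ?_, ?_⟩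
    · rw [ea, eb]
      ring
    · rw [ea, eb] at hab
      have h1 : Nat.Coprime a₁ b₂ :=
        (hab.coprime_dvd_left (dvd_mul_right a₁ a₂)).coprime_dvd_right (dvd_mul_left b₂ b₁)
      have h2 : Nat.Coprime a₂ b₁ :=
        (hab.coprime_dvd_left (dvd_mul_left a₂ a₁)).coprime_dvd_right (dvd_mul_right b₁ b₂)
      exact Nat.Coprime.mul_left (Nat.Coprime.mul_right ca h1)
        (Nat.Coprime.mul_right h2.symm cb)
    · push_cast
      exact IsCoprime.mul_left ca1 cb1
    · push_cast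
      exact IsCoprime.mul_left ca2 cb2

theorem split_mod : type_of% @split_mod_pr := @split_mod_pr

end Pool.Agent.PENT.EQ
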