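import Pool.Agent.Lib_helper39.PEQ.Defs

/-! block EB2 of PEQ, proved by helper57 -/
set_option autoImplicit false

namespace Pool.Agent.PENT.EQ

open Finset

theorem eb2_ee_add (x y : ℝ) : ee (x + y) = ee x * ee y := by
  unfold ee
  rw [← Complex.exp_add]
  congr 1
  push_cast
  ring

theorem eb2_iv (q : ℕ) (hq : 1 ≤ q) (γ : ℤ) (h : IsCoprime γ (q : ℤ)) :
    (q : ℤ) ∣ γ * iv q γ - 1 := by
  have : NeZero q := ⟨by omega⟩
  rw [← ZMod.intCast_zmod_eq_zero_iff_dvd]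
  unfold iv
  push_cast
  rw [ZMod.natCast_zmod_val, ZMod.coe_int_mul_inv_eq_one h, sub_self]

/-- EB2: the class of `β` modulo `α M` -/
theorem class_beta_pr (α M₁ M₂ : ℕ) (hα : 1 ≤ α) (h₁ : 1 ≤ M₁) (h₂ : 1 ≤ M₂)
    (h12 : Nat.Coprime M₁ M₂) (h1α : Nat.Coprime M₁ α) (β₀ δ₀ : ℤ) :
    ∃ A₀ κ₀ : ℤ, Int.gcd A₀ α = 1 ∧ ∀ γ : ℤ, IsCoprime γ ((α * M₂ : ℕ) : ℤ) →
      ((M₁ * M₂ : ℕ) : ℤ) ∣ α * δ₀ - β₀ * γ - 1 → ∃ b : ℤ,
        (∀ β : ℤ, (((M₁ * M₂ : ℕ) : ℤ) ∣ β - β₀ ∧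
          ((α * (M₁ * M₂) : ℕ) : ℤ) ∣ β * γ + 1 - α * δ₀) ↔ ((α * (M₁ * M₂) : ℕ) : ℤ) ∣ β - b) ∧
        ∀ h : ℤ, ee (h * b / (α * (M₁ * M₂) : ℕ)) =
          ee (h * κ₀ / M₁) * ee ((h * A₀ : ℤ) * iv (α * M₂) γ / (α * M₂ : ℕ)) := by
  have hq : 1 ≤ α * M₂ := Nat.mul_pos hα h₂
  have hcop : Nat.Coprime M₁ (α * M₂) := Nat.Coprime.mul_right h1α h12
  have hcopZ : IsCoprime (M₁ : ℤ) ((α * M₂ : ℕ) : ℤ) := Nat.isCoprime_iff_coprime.2 hcop
  obtain ⟨u, v, huv⟩ := hcopZ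
  have hcopZ : IsCoprime (M₁ : ℤ) ((α * M₂ : ℕ) : ℤ) := Nat.isCoprime_iff_coprime.2 hcop
  refine ⟨u * (α * δ₀ - 1), v * β₀, ?_, ?_⟩
  · rw [← Int.isCoprime_iff_gcd_eq_one]
    refine IsCoprime.mul_left ?_ ?_
    · refine ⟨M₁, v * M₂, ?_⟩
      rw [← huv]; push_cast; ring
    · exact ⟨-1, δ₀, by ring⟩
  · intro γ hγ hM
    set q : ℕ := α * M₂ with hqdef
    have hinv := eb2_iv q hq γ hγ
    set I := iv q γ with hI
    set b : ℤ := β₀ * (v * q) + (α * δ₀ - 1) * I * (u * M₁) with hb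
    have hq' : (q : ℤ) = α * M₂ := by rw [hqdef]; push_cast; ring
    have hmod : ((α * (M₁ * M₂) : ℕ) : ℤ) = M₁ * q := by rw [hq']; push_cast; ring
    have hM12 : ((M₁ * M₂ : ℕ) : ℤ) = M₁ * M₂ := by push_cast; ring
    have hb1 : (M₁ : ℤ) ∣ b - β₀ := by
      refine ⟨(α * δ₀ - 1) * I * u - β₀ * u, ?_⟩
      rw [hb]
      linear_combination β₀ * huv
    have hb2 : (q : ℤ) ∣ b - (α * δ₀ - 1) * I := by
      refine ⟨β₀ * v - (α * δ₀ - 1) * I * v, ?_⟩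
      rw [hb]
      linear_combination ((α : ℤ) * δ₀ - 1) * I * huv
    refine ⟨b, ?_, ?_⟩
    · intro β
      rw [hmod, hM12]
      rw [hM12] at hM
      constructor
      · rintro ⟨h1, h2⟩
        refine IsCoprime.mul_dvd hcopZ ?_ ?_
        · have h3 : (M₁ : ℤ) ∣ β - β₀ := (Dvd.intro _ rfl).trans h1
          have := dvd_sub h3 hb1
          rwa [sub_sub_sub_cancel_right] at this
        · have h3 : (q : ℤ) ∣ β * γ + 1 - α * δ₀ := (Dvd.intro_left _ rfl).trans h2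
          -- β - b = β (1 - γ I) + I (β γ + 1 - α δ₀) + ((α δ₀ - 1) I - b)
          have h4 : β - b = I * (β * γ + 1 - α * δ₀) - β * (γ * I - 1) -
              (b - (α * δ₀ - 1) * I) := by ring
          rw [h4]
          exact dvd_sub (dvd_sub (h3.mul_left _) (hinv.mul_left _)) hb2
      · intro h
        have h1 : (M₁ : ℤ) ∣ β - b := (Dvd.intro _ rfl).trans h
        have h2 : (q : ℤ) ∣ β - b := (Dvd.intro_left _ rfl).trans h
        have h3 : (M₁ : ℤ) ∣ β - β₀ := by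
          have := dvd_add h1 hb1
          rwa [sub_add_sub_cancel] at this
        have h4 : (q : ℤ) ∣ β * γ + 1 - α * δ₀ := by
          have h5 : β * γ + 1 - α * δ₀ = γ * (β - b) + γ * (b - (α * δ₀ - 1) * I) +
              (α * δ₀ - 1) * (γ * I - 1) := by ring
          rw [h5]
          exact dvd_add (dvd_add (h2.mul_left _) (hb2.mul_left _)) (hinv.mul_left _)
        have hM1 : (M₁ : ℤ) ∣ α * δ₀ - β₀ * γ - 1 := (Dvd.intro _ rfl).trans hM
        have hM2 : (M₂ : ℤ) ∣ α * δ₀ - β₀ * γ - 1 := (Dvd.intro_left _ rfl).trans hM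
        have h5 : (M₁ : ℤ) ∣ β * γ + 1 - α * δ₀ := by
          have h6 : β * γ + 1 - α * δ₀ = γ * (β - β₀) - (α * δ₀ - β₀ * γ - 1) := by ring
          rw [h6]
          exact dvd_sub (h3.mul_left _) hM1
        have hM2q : (M₂ : ℤ) ∣ q := by rw [hq']; exact Dvd.intro_left _ rfl
        have h6 : (M₂ : ℤ) ∣ β - β₀ := by
          have h7 : (M₂ : ℤ) ∣ (β - β₀) * γ := by
            have h8 : (β - β₀) * γ = (β * γ + 1 - α * δ₀) + (α * δ₀ - β₀ * γ - 1) := by ring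
            rw [h8]
            exact dvd_add (hM2q.trans h4) hM2
          have h9 : IsCoprime (M₂ : ℤ) γ := (hγ.of_isCoprime_of_dvd_right hM2q).symm
          exact h9.dvd_of_dvd_mul_right h7
        exact ⟨IsCoprime.mul_dvd (Nat.isCoprime_iff_coprime.2 h12) h3 h6,
          IsCoprime.mul_dvd hcopZ h5 h4⟩
    · intro h
      rw [← eb2_ee_add]
      congr 1
      have hM1R : (M₁ : ℝ) ≠ 0 := by
        have : M₁ ≠ 0 := by omega
        exact_mod_cast this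
      have hqR : (q : ℝ) ≠ 0 := by
        have : q ≠ 0 := by omega
        exact_mod_cast this
      have hmodR : ((α * (M₁ * M₂) : ℕ) : ℝ) = M₁ * q := by
        rw [hqdef]; push_cast; ring
      rw [hmodR, hb]
      push_cast
      field_simp

theorem class_beta : type_of% @class_beta_pr := @class_beta_pr

end Pool.Agent.PENT.EQ
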