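import Pool.Agent.Lib_helper39.PEQ.Defs
import Pool.Agent.Lib_helper39.PEQF.EA1

/-! block EB3 of PEQ, proved by helper57 -/
set_option autoImplicit false

namespace Pool.Agent.PENT.EQ

open Finset

theorem eb3_add (x y : ℝ) : ee (x + y) = ee x * ee y := by
  unfold ee
  rw [← Complex.exp_add]
  congr 1
  push_cast
  ring

theorem eb3_int (n : ℤ) : ee (n : ℝ) = 1 := by
  unfold ee
  have h := Complex.exp_int_mul_two_pi_mul_I n
  rw [← h]
  congr 1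
  push_cast
  ring

theorem eb3_neg (x : ℝ) : ee (-x) = starRingEnd ℂ (ee x) := by
  unfold ee
  rw [← Complex.exp_conj]
  congr 1
  simp only [map_mul, Complex.conj_ofReal, Complex.conj_I, map_ofNat]
  push_cast
  ring

theorem eb3_pow (x : ℝ) (n : ℕ) : ee (n * x) = ee x ^ n := by
  unfold ee
  rw [← Complex.exp_nat_mul]
  congr 1
  push_cast
  ring

theorem eb3_one (x : ℝ) (h : ee x = 1) : ∃ n : ℤ, x = n := by
  unfold ee at h
  rw [Complex.exp_eq_one_iff] at h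
  obtain ⟨n, hn⟩ := h
  refine ⟨n, ?_⟩
  have h2 : (2 * Real.pi * Complex.I : ℂ) ≠ 0 := by
    simp [Real.pi_ne_zero]
  have h3 : ((x : ℂ) - n) * (2 * Real.pi * Complex.I) = 0 := by
    linear_combination hn
  have h4 := (mul_eq_zero.1 h3).resolve_right h2
  have h5 : (x : ℂ) = ((n : ℝ) : ℂ) := by
    push_cast
    exact sub_eq_zero.1 h4
  exact_mod_cast h5

theorem eb3_orth (Q : ℕ) (hQ : 1 ≤ Q) (m : ℤ) :
    ∑ h ∈ range Q, ee ((h : ℝ) * (m / Q)) = if (Q : ℤ) ∣ m then (Q : ℂ) else 0 := by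
  have hQR : (Q : ℝ) ≠ 0 := by
    have : Q ≠ 0 := by omega
    exact_mod_cast this
  have h1 : ∀ h ∈ range Q, ee ((h : ℝ) * (m / Q)) = (ee (m / Q)) ^ h := fun h _ => eb3_pow _ _
  rw [Finset.sum_congr rfl h1]
  split_ifs with hd
  · obtain ⟨k, hk⟩ := hd
    have h2 : ((m : ℝ) / Q) = (k : ℤ) := by
      rw [hk]; push_cast; field_simp
    rw [h2, eb3_int]
    simp
  · have hne : ee (m / Q) ≠ 1 := by
      intro h
      obtain ⟨n, hn⟩ := eb3_one _ h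
      apply hd
      refine ⟨n, ?_⟩
      have h3 : (m : ℝ) = Q * n := by
        rw [← hn]; field_simp
      exact_mod_cast h3
    rw [geom_sum_eq hne]
    have h4 : ee (m / Q) ^ Q = 1 := by
      rw [← eb3_pow]
      have : (Q : ℝ) * (m / Q) = (m : ℤ) := by field_simp
      rw [this, eb3_int]
    rw [h4, sub_self, zero_div]

theorem eb3_nd_pos (Q h : ℕ) (h1 : 1 ≤ h) (h2 : h < Q) : 0 < nd ((h : ℝ) / Q) := by
  unfold nd
  rw [abs_pos, sub_ne_zero]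
  intro h3
  have hQR : (Q : ℝ) ≠ 0 := by
    have : Q ≠ 0 := by omega
    exact_mod_cast this
  set k := round ((h : ℝ) / Q)
  have h4 : (h : ℝ) = Q * k := by
    rw [← h3]; field_simp
  have h5 : (h : ℤ) = Q * k := by exact_mod_cast h4
  have h6 : (Q : ℤ) ∣ h := ⟨k, h5⟩
  have h7 : Q ∣ h := by exact_mod_cast h6
  exact absurd (Nat.le_of_dvd (by omega) h7) (by omega)

/-- EB3: finite Fourier analysis in one variable -/
theorem count_fourier_pr (Q : ℕ) (hQ : 1 ≤ Q) (B₁ B₂ : ℤ) (hB : B₁ ≤ B₂) (Γ : Finset ℤ)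
    (b : ℤ → ℤ) (W : ℕ → ℝ) (hW : ∀ h ∈ Ico 1 Q, ‖∑ γ ∈ Γ, ee ((h : ℤ) * b γ / Q)‖ ≤ W h) :
    |(∑ γ ∈ Γ, (((Ioc B₁ B₂).filter (fun β => (Q : ℤ) ∣ β - b γ)).card : ℝ)) -
      ((B₂ : ℝ) - B₁) / Q * Γ.card| ≤ ∑ h ∈ Ico 1 Q, W h / (2 * Q * nd (h / Q)) := by
  have hQR : (Q : ℝ) ≠ 0 := by
    have : Q ≠ 0 := by omega
    exact_mod_cast this
  have hQ0 : (0 : ℝ) < Q := by
    have : 0 < Q := by omega
    exact_mod_cast this
  have hQC : (Q : ℂ) ≠ 0 := by exact_mod_cast hQR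
  -- the count as a character sum
  have hcount : ∀ γ ∈ Γ, ((((Ioc B₁ B₂).filter (fun β => (Q : ℤ) ∣ β - b γ)).card : ℝ) : ℂ) =
      ∑ h ∈ range Q, (1 / (Q : ℂ)) * ((∑ β ∈ Ioc B₁ B₂, ee ((h : ℝ) / Q * β)) *
        ee (-((h : ℝ) * b γ / Q))) := by
    intro γ _
    have h1 : ((((Ioc B₁ B₂).filter (fun β => (Q : ℤ) ∣ β - b γ)).card : ℝ) : ℂ) =
        ∑ β ∈ Ioc B₁ B₂, (1 / (Q : ℂ)) * ∑ h ∈ range Q, ee ((h : ℝ) * ((β - b γ : ℤ) / Q)) := by
      rw [Finset.card_filter]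
      push_cast
      refine Finset.sum_congr rfl fun β _ => ?_
      have := eb3_orth Q hQ (β - b γ)
      push_cast at this
      rw [this]
      split_ifs
      · rw [one_div, inv_mul_cancel₀ hQC]; simp
      · simp
    rw [h1]
    simp_rw [Finset.mul_sum]
    rw [Finset.sum_comm]
    refine Finset.sum_congr rfl fun h _ => ?_
    rw [Finset.sum_mul, Finset.mul_sum]
    refine Finset.sum_congr rfl fun β _ => ?_
    rw [← eb3_add]
    congr 2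
    push_cast
    ring
  have htot : (((∑ γ ∈ Γ, (((Ioc B₁ B₂).filter (fun β => (Q : ℤ) ∣ β - b γ)).card : ℝ)) -
      ((B₂ : ℝ) - B₁) / Q * Γ.card : ℝ) : ℂ) =
      ∑ h ∈ Ico 1 Q, (1 / (Q : ℂ)) * ((∑ β ∈ Ioc B₁ B₂, ee ((h : ℝ) / Q * β)) *
        ∑ γ ∈ Γ, ee (-((h : ℝ) * b γ / Q))) := by
    rw [Complex.ofReal_sub, Complex.ofReal_sum, Finset.sum_congr rfl hcount, Finset.sum_comm]
    have h0 : ∀ h ∈ range Q, ∑ γ ∈ Γ, (1 / (Q : ℂ)) * ((∑ β ∈ Ioc B₁ B₂, ee ((h : ℝ) / Q * β)) *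
        ee (-((h : ℝ) * b γ / Q))) = (1 / (Q : ℂ)) * ((∑ β ∈ Ioc B₁ B₂, ee ((h : ℝ) / Q * β)) *
        ∑ γ ∈ Γ, ee (-((h : ℝ) * b γ / Q))) := by
      intro h _
      rw [Finset.mul_sum, Finset.mul_sum]
    rw [Finset.sum_congr rfl h0, Finset.range_eq_Ico, Finset.sum_eq_sum_Ico_succ_bot (by omega)]
    have hz : ∀ x : ℝ, ee (((0 : ℕ) : ℝ) / Q * x) = 1 := by
      intro x
      have := eb3_int 0
      simpa using this
    have hz2 : ∀ γ ∈ Γ, ee (-(((0 : ℕ) : ℝ) * b γ / Q)) = 1 := by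
      intro γ _
      have := eb3_int 0
      simpa using this
    have hz3 : ∀ β ∈ Ioc B₁ B₂, ee (((0 : ℕ) : ℝ) / Q * ((β : ℤ) : ℝ)) = 1 := fun β _ => hz β
    rw [Finset.sum_congr rfl hz2, Finset.sum_congr rfl hz3]
    simp only [Finset.sum_const, Int.card_Ioc, nsmul_eq_mul, mul_one]
    have hcard : (((B₂ - B₁).toNat : ℕ) : ℂ) = (B₂ : ℂ) - B₁ := by
      have : (((B₂ - B₁).toNat : ℕ) : ℤ) = B₂ - B₁ := Int.toNat_of_nonneg (by omega)
      have h2 : ((((B₂ - B₁).toNat : ℕ) : ℤ) : ℂ) = ((B₂ - B₁ : ℤ) : ℂ) := by rw [this]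
      push_cast at h2
      exact h2
    rw [hcard]
    push_cast
    ring
  rw [← Real.norm_eq_abs, ← Complex.norm_real, htot]
  refine (norm_sum_le _ _).trans (Finset.sum_le_sum fun h hh => ?_)
  have hh' := Finset.mem_Ico.1 hh
  have hnd := eb3_nd_pos Q h hh'.1 hh'.2
  obtain ⟨_, hg⟩ := geo ((h : ℝ) / Q) B₁ B₂ hB
  have hg2 : ‖∑ β ∈ Ioc B₁ B₂, ee ((h : ℝ) / Q * β)‖ ≤ 1 / (2 * nd (h / Q)) := by
    rw [le_div_iff₀ (by positivity)]
    exact hg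
  have hW2 : ‖∑ γ ∈ Γ, ee (-((h : ℝ) * b γ / Q))‖ ≤ W h := by
    have h1 : ∑ γ ∈ Γ, ee (-((h : ℝ) * b γ / Q)) =
        starRingEnd ℂ (∑ γ ∈ Γ, ee ((h : ℝ) * b γ / Q)) := by
      rw [map_sum]
      exact Finset.sum_congr rfl fun γ _ => eb3_neg _
    rw [h1, RCLike.norm_conj]
    have := hW h hh
    push_cast at this
    exact this
  rw [norm_mul, norm_mul]
  have h3 : ‖(1 / (Q : ℂ))‖ = 1 / Q := by
    rw [norm_div, norm_one, Complex.norm_natCast]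
  rw [h3]
  calc 1 / (Q : ℝ) * (‖∑ β ∈ Ioc B₁ B₂, ee ((h : ℝ) / Q * β)‖ *
        ‖∑ γ ∈ Γ, ee (-((h : ℝ) * b γ / Q))‖)
      ≤ 1 / (Q : ℝ) * (1 / (2 * nd (h / Q)) * W h) := by
        refine mul_le_mul_of_nonneg_left ?_ (by positivity)
        exact mul_le_mul hg2 hW2 (norm_nonneg _) (by positivity)
    _ = W h / (2 * Q * nd (h / Q)) := by
        field_simp

theorem count_fourier : type_of% @count_fourier_pr := @count_fourier_pr

end Pool.Agent.PENT.EQ
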