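import Pool.Agent.Lib_helper39.PEQ.Defs

/-! block EB4 of PEQ, proved by helper9 -/

/-! Block EB4 -/

set_option autoImplicit false

namespace Pool.Agent.PENT.EQ

open Finset

theorem eb4_nd {h Q : ℕ} (h1 : 1 ≤ h) (h2 : h < Q) :
    1 / (2 * (Q : ℝ) * nd (h / Q)) ≤ 1 / 2 * (1 / (h : ℝ) + 1 / ((Q : ℝ) - h)) := by
  have hQ : (0 : ℝ) < Q := by
    have : 0 < Q := by omega
    exact_mod_cast this
  have hh : (0 : ℝ) < h := by exact_mod_cast h1
  have hQh : (0 : ℝ) < (Q : ℝ) - h := by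
    have : (h : ℝ) < Q := by exact_mod_cast h2
    linarith
  have hdiv : (Q : ℝ) * ((h : ℝ) / Q) = h := by field_simp
  rcases le_or_gt (round ((h : ℝ) / Q)) 0 with h3 | h3
  · have h4 : ((round ((h : ℝ) / Q) : ℤ) : ℝ) ≤ 0 := by exact_mod_cast h3
    have h5 : (h : ℝ) ≤ Q * nd (h / Q) := by
      have h6 : (h : ℝ) / Q ≤ nd (h / Q) := by
        unfold nd
        refine le_trans ?_ (le_abs_self _)
        linarith
      calc (h : ℝ) = Q * ((h : ℝ) / Q) := hdiv.symm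
        _ ≤ Q * nd (h / Q) := mul_le_mul_of_nonneg_left h6 hQ.le
    have h7 : 1 / (2 * (Q : ℝ) * nd (h / Q)) ≤ 1 / (2 * (h : ℝ)) := by
      apply one_div_le_one_div_of_le (by positivity)
      linarith
    have h8 : 1 / (2 * (h : ℝ)) = 1 / 2 * (1 / (h : ℝ)) := by field_simp
    have h9 : 0 ≤ 1 / ((Q : ℝ) - h) := by positivity
    rw [h8] at h7
    linarith
  · have h4 : (1 : ℝ) ≤ ((round ((h : ℝ) / Q) : ℤ) : ℝ) := by exact_mod_cast h3
    have h5 : (Q : ℝ) - h ≤ Q * nd (h / Q) := by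
      have h6 : 1 - (h : ℝ) / Q ≤ nd (h / Q) := by
        unfold nd
        refine le_trans ?_ (neg_le_abs _)
        linarith
      calc (Q : ℝ) - h = Q * (1 - (h : ℝ) / Q) := by rw [mul_sub, hdiv]; ring
        _ ≤ Q * nd (h / Q) := mul_le_mul_of_nonneg_left h6 hQ.le
    have h7 : 1 / (2 * (Q : ℝ) * nd (h / Q)) ≤ 1 / (2 * ((Q : ℝ) - h)) := by
      apply one_div_le_one_div_of_le (by positivity)
      linarith
    have h8 : 1 / (2 * ((Q : ℝ) - h)) = 1 / 2 * (1 / ((Q : ℝ) - h)) := by field_simp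
    have h9 : 0 ≤ 1 / (h : ℝ) := by positivity
    rw [h8] at h7
    linarith

theorem eb4_refl (α Q : ℕ) (h : α ∣ Q) :
    ∑ h ∈ Ico 1 Q, (Nat.gcd h α : ℝ) * (1 / ((Q : ℝ) - h)) =
      ∑ h ∈ Ico 1 Q, (Nat.gcd h α : ℝ) * (1 / (h : ℝ)) := by
  refine Finset.sum_nbij' (fun h => Q - h) (fun h => Q - h) ?_ ?_ ?_ ?_ ?_
  · intro a ha
    rw [mem_Ico] at ha ⊢
    omega
  · intro a ha
    rw [mem_Ico] at ha ⊢
    omega
  · intro a ha
    rw [mem_Ico] at ha
    show Q - (Q - a) = a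
    omega
  · intro a ha
    rw [mem_Ico] at ha
    show Q - (Q - a) = a
    omega
  · intro a ha
    rw [mem_Ico] at ha
    have h1 : Nat.gcd (Q - a) α = Nat.gcd a α := by
      apply Nat.dvd_antisymm
      · apply Nat.dvd_gcd _ (Nat.gcd_dvd_right _ _)
        have h2 : Nat.gcd (Q - a) α ∣ Q := dvd_trans (Nat.gcd_dvd_right _ _) h
        have h3 : Nat.gcd (Q - a) α ∣ Q - a := Nat.gcd_dvd_left _ _
        have h4 : a = Q - (Q - a) := by omega
        rw [h4]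
        have h5 : Q - (Q - (Q - a)) = Q - a := by omega
        rw [h5]
        exact Nat.dvd_sub h2 h3
      · apply Nat.dvd_gcd _ (Nat.gcd_dvd_right _ _)
        exact Nat.dvd_sub (dvd_trans (Nat.gcd_dvd_right _ _) h) (Nat.gcd_dvd_left _ _)
    rw [h1]
    have h6 : ((Q - a : ℕ) : ℝ) = (Q : ℝ) - a := by
      rw [Nat.cast_sub (by omega)]
    rw [h6]

theorem eb4_inner (d Q : ℕ) (hd : 1 ≤ d) (hQ : 1 ≤ Q) :
    ∑ h ∈ (Ico 1 Q).filter (fun h => d ∣ h), (d : ℝ) / h ≤ 1 + Real.log Q := by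
  have hd0 : (0 : ℝ) < d := by exact_mod_cast hd
  have h1 : ∑ h ∈ (Ico 1 Q).filter (fun h => d ∣ h), (d : ℝ) / h =
      ∑ k ∈ ((Ico 1 Q).filter (fun h => d ∣ h)).image (fun h => h / d), ((k : ℝ))⁻¹ := by
    rw [Finset.sum_image]
    · refine Finset.sum_congr rfl fun h hh => ?_
      obtain ⟨k, hk⟩ := (mem_filter.1 hh).2
      have h2 : h / d = k := by rw [hk]; exact Nat.mul_div_cancel_left k (by omega)
      rw [h2, hk]
      push_cast
      rcases Nat.eq_zero_or_pos k with h0 | h0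
      · exfalso
        rw [h0, mul_zero] at hk
        have := (mem_Ico.1 (mem_filter.1 hh).1).1
        omega
      · have hk0 : (0 : ℝ) < k := by exact_mod_cast h0
        field_simp
    · intro a ha b hb hab
      obtain ⟨k, hk⟩ := (mem_filter.1 ha).2
      obtain ⟨l, hl⟩ := (mem_filter.1 hb).2
      have h2 : a / d = k := by rw [hk]; exact Nat.mul_div_cancel_left k (by omega)
      have h3 : b / d = l := by rw [hl]; exact Nat.mul_div_cancel_left l (by omega)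
      have h4 : a / d = b / d := hab
      rw [h2, h3] at h4
      rw [hk, hl, h4]
  have h2 : ((Ico 1 Q).filter (fun h => d ∣ h)).image (fun h => h / d) ⊆ Icc 1 Q := by
    intro k hk
    obtain ⟨h, hh, rfl⟩ := mem_image.1 hk
    have h3 := mem_Ico.1 (mem_filter.1 hh).1
    have h4 : d ≤ h := Nat.le_of_dvd (by omega) (mem_filter.1 hh).2
    rw [mem_Icc]
    refine ⟨Nat.div_pos h4 (by omega), ?_⟩
    exact le_trans (Nat.div_le_self h d) (by omega)
  have h3 : ∑ k ∈ Icc 1 Q, ((k : ℝ))⁻¹ ≤ 1 + Real.log Q := by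
    have h4 := harmonic_le_one_add_log Q
    rw [harmonic_eq_sum_Icc] at h4
    push_cast at h4
    exact h4
  rw [h1]
  refine le_trans (Finset.sum_le_sum_of_subset_of_nonneg h2 fun k _ _ => by positivity) h3

theorem gcd_sum_pr (α Q : ℕ) (hα : 1 ≤ α) (hQ : 1 ≤ Q) (h : α ∣ Q) :
    ∑ h ∈ Ico 1 Q, (Nat.gcd h α : ℝ) / (2 * Q * nd (h / Q)) ≤
      α.divisors.card * (1 + Real.log Q) := by
  have h1 : ∑ h ∈ Ico 1 Q, (Nat.gcd h α : ℝ) / (2 * Q * nd (h / Q)) ≤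
      ∑ h ∈ Ico 1 Q, (Nat.gcd h α : ℝ) * (1 / (h : ℝ)) := by
    calc ∑ h ∈ Ico 1 Q, (Nat.gcd h α : ℝ) / (2 * Q * nd (h / Q))
        ≤ ∑ h ∈ Ico 1 Q, (Nat.gcd h α : ℝ) * (1 / 2 * (1 / (h : ℝ) + 1 / ((Q : ℝ) - h))) := by
          refine Finset.sum_le_sum fun a ha => ?_
          rw [mem_Ico] at ha
          rw [div_eq_mul_one_div]
          exact mul_le_mul_of_nonneg_left (eb4_nd ha.1 ha.2) (by positivity)
      _ = 1 / 2 * ∑ h ∈ Ico 1 Q, (Nat.gcd h α : ℝ) * (1 / (h : ℝ)) +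
          1 / 2 * ∑ h ∈ Ico 1 Q, (Nat.gcd h α : ℝ) * (1 / ((Q : ℝ) - h)) := by
          rw [Finset.mul_sum, Finset.mul_sum, ← Finset.sum_add_distrib]
          refine Finset.sum_congr rfl fun a _ => ?_
          ring
      _ = ∑ h ∈ Ico 1 Q, (Nat.gcd h α : ℝ) * (1 / (h : ℝ)) := by
          rw [eb4_refl α Q h]; ring
  have h2 : ∑ h ∈ Ico 1 Q, (Nat.gcd h α : ℝ) * (1 / (h : ℝ)) ≤
      ∑ h ∈ Ico 1 Q, ∑ d ∈ α.divisors, if d ∣ h then (d : ℝ) / h else 0 := by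
    refine Finset.sum_le_sum fun a ha => ?_
    rw [mem_Ico] at ha
    have h3 : Nat.gcd a α ∈ α.divisors := by
      rw [Nat.mem_divisors]
      exact ⟨Nat.gcd_dvd_right _ _, by omega⟩
    have h4 := Finset.single_le_sum (f := fun d : ℕ => if d ∣ a then (d : ℝ) / a else 0)
      (fun d _ => by
        show (0 : ℝ) ≤ if d ∣ a then (d : ℝ) / a else 0
        split_ifs <;> positivity) h3
    have h5 : (if Nat.gcd a α ∣ a then ((Nat.gcd a α : ℕ) : ℝ) / a else 0) =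
        (Nat.gcd a α : ℝ) * (1 / (a : ℝ)) := by
      rw [if_pos (Nat.gcd_dvd_left _ _)]
      ring
    rw [← h5]
    exact h4
  rw [Finset.sum_comm] at h2
  have h3 : ∑ d ∈ α.divisors, ∑ h ∈ Ico 1 Q, (if d ∣ h then (d : ℝ) / h else 0) ≤
      ∑ d ∈ α.divisors, (1 + Real.log Q) := by
    refine Finset.sum_le_sum fun d hd => ?_
    rw [← Finset.sum_filter]
    exact eb4_inner d Q (Nat.pos_of_mem_divisors hd) hQ
  rw [Finset.sum_const, nsmul_eq_mul] at h3
  exact le_trans h1 (le_trans h2 h3)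

theorem gcd_sum : type_of% @gcd_sum_pr := @gcd_sum_pr

end Pool.Agent.PENT.EQ
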