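import Pool.Agent.Lib_helper39.PEQ.Defs
import Pool.Agent.Lib_helper39.PEQF.EA4
import Pool.Agent.Lib_helper39.PEQF.EB1
import Pool.Agent.Lib_helper39.PEQF.EB2
import Pool.Agent.Lib_helper39.PEQF.EB3
import Pool.Agent.Lib_helper39.PEQF.EB4

/-! block EC1 of PEQ, proved by helper84 -/

/-! EC1: one row -/

set_option autoImplicit false

namespace Pool.Agent.PENT.EQ

open Finset

theorem ec1_nd_nonneg (x : ℝ) : 0 ≤ nd x := abs_nonneg _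

theorem ec1_ee_norm (x : ℝ) : ‖ee x‖ = 1 := by
  unfold ee
  have h : (2 * (Real.pi : ℂ) * (x : ℂ) * Complex.I) = ((2 * Real.pi * x : ℝ) : ℂ) * Complex.I := by
    push_cast; ring
  rw [h, Complex.norm_exp_ofReal_mul_I]

/-- the monotonicity of the Kloosterman bound -/
theorem ec1_klB (α M₁ M₂ g k : ℕ) (hα : 1 ≤ α) (h₁ : 1 ≤ M₁) (h₂ : 1 ≤ M₂)
    (hg : g ≤ k * M₂) (hk : 1 ≤ k) :
    klB (α * M₂) g ≤ klB (α * (M₁ * M₂)) (M₁ * M₂) * k := by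
  unfold klB
  have hq : α * M₂ ≤ α * (M₁ * M₂) := by
    apply Nat.mul_le_mul_left
    nlinarith
  have hdvd : α * M₂ ∣ α * (M₁ * M₂) := by
    refine Nat.mul_dvd_mul_left α (Dvd.intro_left M₁ rfl)
  have hne : α * (M₁ * M₂) ≠ 0 := by positivity
  have hτ : (α * M₂).divisors.card ≤ (α * (M₁ * M₂)).divisors.card :=
    Finset.card_le_card (Nat.divisors_subset_of_dvd hne hdvd)
  have hM : M₂ ≤ M₁ * M₂ := by nlinarith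
  set P : ℝ := 2 * ((α * (M₁ * M₂) : ℕ) : ℝ) ^ 3 * ((M₁ * M₂ : ℕ) : ℝ) *
    ((α * (M₁ * M₂)).divisors.card : ℝ) ^ 3 with hP
  have hP0 : 0 ≤ P := by positivity
  have hkR : (1 : ℝ) ≤ (k : ℝ) := by exact_mod_cast hk
  have hgR : (g : ℝ) ≤ (k : ℝ) * ((M₁ * M₂ : ℕ) : ℝ) := by
    have : g ≤ k * (M₁ * M₂) := le_trans hg (Nat.mul_le_mul_left k hM)
    exact_mod_cast this
  have hqR : ((α * M₂ : ℕ) : ℝ) ≤ ((α * (M₁ * M₂) : ℕ) : ℝ) := by exact_mod_cast hq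
  have hτR : ((α * M₂).divisors.card : ℝ) ≤ ((α * (M₁ * M₂)).divisors.card : ℝ) := by
    exact_mod_cast hτ
  have h1 : 2 * ((α * M₂ : ℕ) : ℝ) ^ 3 * (g : ℝ) * ((α * M₂).divisors.card : ℝ) ^ 3 ≤
      P * (k : ℝ) ^ 4 := by
    have e1 : ((α * M₂ : ℕ) : ℝ) ^ 3 ≤ ((α * (M₁ * M₂) : ℕ) : ℝ) ^ 3 :=
      pow_le_pow_left₀ (Nat.cast_nonneg _) hqR 3
    have e2 : ((α * M₂).divisors.card : ℝ) ^ 3 ≤ ((α * (M₁ * M₂)).divisors.card : ℝ) ^ 3 :=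
      pow_le_pow_left₀ (Nat.cast_nonneg _) hτR 3
    have e3 : (k : ℝ) ≤ (k : ℝ) ^ 4 := by
      calc (k : ℝ) = (k : ℝ) ^ 1 := (pow_one _).symm
        _ ≤ (k : ℝ) ^ 4 := pow_le_pow_right₀ hkR (by norm_num)
    calc 2 * ((α * M₂ : ℕ) : ℝ) ^ 3 * (g : ℝ) * ((α * M₂).divisors.card : ℝ) ^ 3
        ≤ 2 * ((α * (M₁ * M₂) : ℕ) : ℝ) ^ 3 * ((k : ℝ) * ((M₁ * M₂ : ℕ) : ℝ)) *
          ((α * (M₁ * M₂)).divisors.card : ℝ) ^ 3 := by gcongr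
      _ = P * (k : ℝ) := by rw [hP]; ring
      _ ≤ P * (k : ℝ) ^ 4 := by gcongr
  calc (2 * ((α * M₂ : ℕ) : ℝ) ^ 3 * (g : ℝ) * ((α * M₂).divisors.card : ℝ) ^ 3) ^ (1 / 4 : ℝ)
      ≤ (P * (k : ℝ) ^ 4) ^ (1 / 4 : ℝ) :=
        Real.rpow_le_rpow (by positivity) h1 (by norm_num)
    _ = P ^ (1 / 4 : ℝ) * (k : ℝ) := by
        rw [Real.mul_rpow hP0 (by positivity)]
        congr 1
        rw [← Real.rpow_natCast, ← Real.rpow_mul (by positivity)]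
        norm_num

theorem ec1_gcd (α M₂ : ℕ) (hα : 1 ≤ α) (h₂ : 1 ≤ M₂) (A₀ : ℤ) (h : ℕ)
    (hA : Int.gcd A₀ α = 1) :
    Int.gcd ((h : ℤ) * A₀) ((α * M₂ : ℕ) : ℤ) ≤ Nat.gcd h α * M₂ := by
  have e1 : Int.gcd ((h : ℤ) * A₀) ((α * M₂ : ℕ) : ℤ) = Nat.gcd (h * A₀.natAbs) (α * M₂) := by
    rw [Int.gcd_eq_natAbs, Int.natAbs_mul, Int.natAbs_natCast, Int.natAbs_natCast]
  have hA' : Nat.Coprime A₀.natAbs α := by
    have := hA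
    rw [Int.gcd_eq_natAbs, Int.natAbs_natCast] at this
    exact this
  rw [e1]
  have e2 : Nat.gcd (h * A₀.natAbs) (α * M₂) ∣
      Nat.gcd (h * A₀.natAbs) α * Nat.gcd (h * A₀.natAbs) M₂ := Nat.gcd_mul_right_dvd_mul_gcd _ _ _
  have e3 : Nat.gcd (h * A₀.natAbs) α = Nat.gcd h α :=
    Nat.Coprime.gcd_mul_right_cancel h hA'
  rw [e3] at e2
  have hpos : 0 < Nat.gcd h α * Nat.gcd (h * A₀.natAbs) M₂ := by
    apply Nat.mul_pos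
    · exact Nat.gcd_pos_of_pos_right _ (by omega)
    · exact Nat.gcd_pos_of_pos_right _ (by omega)
  calc Nat.gcd (h * A₀.natAbs) (α * M₂) ≤ Nat.gcd h α * Nat.gcd (h * A₀.natAbs) M₂ :=
        Nat.le_of_dvd hpos e2
    _ ≤ Nat.gcd h α * M₂ := Nat.mul_le_mul_left _ (Nat.gcd_le_right _ (by omega))

/-- EC1: one row (uses EA4, EB1, EB2, EB3, EB4) -/
theorem row_count_pr (α M : ℕ) (hα : 1 ≤ α) (hM : 1 ≤ M) (α₀ β₀ γ₀ δ₀ B₁ B₂ C₁ C₂ : ℤ)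
    (h0 : (M : ℤ) ∣ α₀ * δ₀ - β₀ * γ₀ - 1) (h1 : (M : ℤ) ∣ α - α₀) (hB : B₁ ≤ B₂)
    (hC : C₁ ≤ C₂) :
    |((Nrow α M β₀ γ₀ δ₀ B₁ B₂ C₁ C₂).card : ℝ) -
      ((B₂ : ℝ) - B₁) / ((α : ℝ) * M) * (Grow α M γ₀ C₁ C₂).card| ≤
      klB (α * M) M * (2 * ((C₂ : ℝ) - C₁) / α + 1 + Real.log (α * M)) *
        (α.divisors.card * (1 + Real.log (α * M))) := by
  classical
  -- the splitting
  obtain ⟨M₁, M₂, hMM, h12, hc1, hc2⟩ := split_mod M hM (α : ℤ) γ₀ (by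
    intro p hp hpM ⟨hpa, hpg⟩
    have hpM' : (p : ℤ) ∣ (M : ℤ) := Int.natCast_dvd_natCast.2 hpM
    have a1 : (p : ℤ) ∣ α₀ := by
      have := dvd_sub hpa (hpM'.trans h1)
      simpa using this
    have a2 : (p : ℤ) ∣ 1 := by
      have := dvd_sub (dvd_sub (a1.mul_right δ₀) (hpg.mul_left β₀)) (hpM'.trans h0)
      have e : α₀ * δ₀ - β₀ * γ₀ - (α₀ * δ₀ - β₀ * γ₀ - 1) = 1 := by ring
      rwa [e] at this
    have := Int.natCast_dvd_natCast.1 (by simpa using a2 : (p : ℤ) ∣ ((1 : ℕ) : ℤ))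
    exact hp.one_lt.ne' (Nat.dvd_one.1 this))
  subst hMM
  have hM1 : 1 ≤ M₁ := by
    rcases Nat.eq_zero_or_pos M₁ with h | h
    · subst h; simp at hM
    · exact h
  have hM2 : 1 ≤ M₂ := by
    rcases Nat.eq_zero_or_pos M₂ with h | h
    · subst h; simp at hM
    · exact h
  have h1α : Nat.Coprime M₁ α := Nat.isCoprime_iff_coprime.1 hc1
  obtain ⟨A₀, κ₀, hA₀, hcl⟩ := class_beta α M₁ M₂ hα hM1 hM2 h12 h1α β₀ δ₀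
  set Γ : Finset ℤ := Grow α (M₁ * M₂) γ₀ C₁ C₂ with hΓ
  have hΓq : ∀ γ : ℤ, ((M₁ * M₂ : ℕ) : ℤ) ∣ γ - γ₀ → IsCoprime γ (M₂ : ℤ) := by
    intro γ hγ
    have hd : (M₂ : ℤ) ∣ γ - γ₀ := (by push_cast; exact Dvd.intro_left _ rfl :
      (M₂ : ℤ) ∣ ((M₁ * M₂ : ℕ) : ℤ)).trans hγ
    obtain ⟨k, hk⟩ := hd
    have e : γ = γ₀ + M₂ * k := by linarith
    rw [e]
    exact (IsCoprime.add_mul_left_left_iff.2 hc2.symm)
  have hΓ1 : ∀ γ ∈ Γ, IsCoprime γ ((α * M₂ : ℕ) : ℤ) ∧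
      ((M₁ * M₂ : ℕ) : ℤ) ∣ α * δ₀ - β₀ * γ - 1 := by
    intro γ hγ
    rw [hΓ, Grow, mem_filter] at hγ
    refine ⟨?_, ?_⟩
    · push_cast
      exact IsCoprime.mul_right hγ.2.1 (hΓq γ hγ.2.2)
    · have e : (α : ℤ) * δ₀ - β₀ * γ - 1 =
          (α₀ * δ₀ - β₀ * γ₀ - 1) + (α - α₀) * δ₀ - β₀ * (γ - γ₀) := by ring
      rw [e]
      exact dvd_sub (dvd_add h0 (h1.mul_right _)) (hγ.2.2.mul_left _)
  -- choose b
  have hex : ∀ γ : ℤ, ∃ b : ℤ, γ ∈ Γ → 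
        (∀ β : ℤ, (((M₁ * M₂ : ℕ) : ℤ) ∣ β - β₀ ∧
          ((α * (M₁ * M₂) : ℕ) : ℤ) ∣ β * γ + 1 - α * δ₀) ↔ ((α * (M₁ * M₂) : ℕ) : ℤ) ∣ β - b) ∧
        ∀ h : ℤ, ee (h * b / (α * (M₁ * M₂) : ℕ)) =
          ee (h * κ₀ / M₁) * ee ((h * A₀ : ℤ) * iv (α * M₂) γ / (α * M₂ : ℕ)) := by
    intro γ
    by_cases hγ : γ ∈ Γ
    · obtain ⟨b, hb⟩ := hcl γ (hΓ1 γ hγ).1 (hΓ1 γ hγ).2
      exact ⟨b, fun _ => hb⟩
    · exact ⟨0, fun h => absurd h hγ⟩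
  choose b hb using hex
  -- the count
  have hcount : ((Nrow α (M₁ * M₂) β₀ γ₀ δ₀ B₁ B₂ C₁ C₂).card : ℝ) =
      ∑ γ ∈ Γ, (((Ioc B₁ B₂).filter
        (fun β => ((α * (M₁ * M₂) : ℕ) : ℤ) ∣ β - b γ)).card : ℝ) := by
    have hmap : ∀ t ∈ Nrow α (M₁ * M₂) β₀ γ₀ δ₀ B₁ B₂ C₁ C₂, t.2 ∈ Γ := by
      intro t ht
      rw [Nrow, mem_filter, mem_product] at ht
      rw [hΓ, Grow, mem_filter]
      refine ⟨ht.1.2, ?_, ht.2.2.1⟩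
      have hd : (α : ℤ) ∣ t.1 * t.2 + 1 - α * δ₀ :=
        (by push_cast; exact Dvd.intro _ rfl : (α : ℤ) ∣ ((α * (M₁ * M₂) : ℕ) : ℤ)).trans ht.2.2.2
      obtain ⟨k, hk⟩ := hd
      exact ⟨-t.1, k + δ₀, by linarith⟩
    rw [Finset.card_eq_sum_card_fiberwise hmap]
    push_cast
    refine Finset.sum_congr rfl fun γ hγ => ?_
    have hγ' := hγ
    rw [hΓ, Grow, mem_filter] at hγ'
    congr 1
    refine Finset.card_bij' (fun t _ => t.1) (fun β _ => (β, γ)) ?_ ?_ ?_ ?_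
    · intro t ht
      rw [mem_filter, Nrow, mem_filter, mem_product] at ht
      rw [mem_filter]
      obtain ⟨⟨⟨ht1, ht2⟩, ht3, ht4, ht5⟩, hte⟩ := ht
      subst hte
      exact ⟨ht1, (((hb t.2 hγ).1 t.1).1 ⟨ht3, by exact_mod_cast ht5⟩)⟩
    · intro β hβ
      rw [mem_filter] at hβ
      have := ((hb γ hγ).1 β).2 hβ.2
      rw [mem_filter, Nrow, mem_filter, mem_product]
      exact ⟨⟨⟨hβ.1, hγ'.1⟩, this.1, hγ'.2.2, by exact_mod_cast this.2⟩, rfl⟩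
    · intro t ht
      rw [mem_filter] at ht
      ext
      · rfl
      · exact ht.2.symm
    · intro β _
      rfl
  -- the exponential sums
  set K : ℝ := klB (α * (M₁ * M₂)) (M₁ * M₂) *
    (2 * ((C₂ : ℝ) - C₁) / α + 1 + Real.log (α * (M₁ * M₂ : ℕ))) with hK
  have hQ1 : 1 ≤ α * (M₁ * M₂) := Nat.mul_pos hα (Nat.mul_pos hM1 hM2)
  have hαR : (1 : ℝ) ≤ α := by exact_mod_cast hα
  have hM1R : (1 : ℝ) ≤ M₁ := by exact_mod_cast hM1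
  have hM2R : (1 : ℝ) ≤ M₂ := by exact_mod_cast hM2
  have hCR : (0 : ℝ) ≤ (C₂ : ℝ) - C₁ := by
    have : (C₁ : ℝ) ≤ C₂ := by exact_mod_cast hC
    linarith
  have hklnn : ∀ q g : ℕ, 0 ≤ klB q g := fun q g => Real.rpow_nonneg (by positivity) _
  have hlen : 2 * ((C₂ : ℝ) - C₁) / ((α * M₂ : ℕ) : ℝ) + 1 + Real.log ((α * M₂ : ℕ) : ℝ) ≤
      2 * ((C₂ : ℝ) - C₁) / α + 1 + Real.log (α * (M₁ * M₂ : ℕ)) := by
    have e1 : 2 * ((C₂ : ℝ) - C₁) / ((α * M₂ : ℕ) : ℝ) ≤ 2 * ((C₂ : ℝ) - C₁) / α := by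
      apply div_le_div_of_nonneg_left (by positivity) (by positivity)
      push_cast
      nlinarith
    have e2 : Real.log ((α * M₂ : ℕ) : ℝ) ≤ Real.log (α * (M₁ * M₂ : ℕ)) := by
      apply Real.log_le_log (by positivity)
      push_cast
      nlinarith [mul_nonneg (mul_nonneg (by linarith : (0:ℝ) ≤ α) (by linarith : (0:ℝ) ≤ M₂))
        (by linarith : (0:ℝ) ≤ M₁ - 1)]
    linarith
  have hlen0 : 0 ≤ 2 * ((C₂ : ℝ) - C₁) / ((α * M₂ : ℕ) : ℝ) + 1 +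
      Real.log ((α * M₂ : ℕ) : ℝ) := by
    have : 0 ≤ Real.log ((α * M₂ : ℕ) : ℝ) := Real.log_natCast_nonneg _
    positivity
  have hW : ∀ h ∈ Ico 1 (α * (M₁ * M₂)), ‖∑ γ ∈ Γ, ee ((h : ℤ) * b γ / (α * (M₁ * M₂) : ℕ))‖ ≤
      K * (Nat.gcd h α : ℝ) := by
    intro h hh
    have e1 : ∑ γ ∈ Γ, ee ((h : ℤ) * b γ / (α * (M₁ * M₂) : ℕ)) =
        ee ((h : ℤ) * κ₀ / M₁) * ∑ γ ∈ (Ioc C₁ C₂).filter
          (fun γ => IsCoprime γ ((α * M₂ : ℕ) : ℤ) ∧ ((M₁ * M₂ : ℕ) : ℤ) ∣ γ - γ₀),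
            ee ((((h : ℤ) * A₀ : ℤ) : ℝ) * iv (α * M₂) γ / (α * M₂ : ℕ)) := by
      rw [Finset.mul_sum]
      have hset : (Ioc C₁ C₂).filter
          (fun γ => IsCoprime γ ((α * M₂ : ℕ) : ℤ) ∧ ((M₁ * M₂ : ℕ) : ℤ) ∣ γ - γ₀) = Γ := by
        rw [hΓ, Grow]
        ext γ
        rw [mem_filter, mem_filter]
        constructor
        · rintro ⟨x1, x2, x3⟩
          refine ⟨x1, ?_, x3⟩
          push_cast at x2
          exact IsCoprime.of_mul_right_left x2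
        · rintro ⟨x1, x2, x3⟩
          refine ⟨x1, ?_, x3⟩
          push_cast
          exact IsCoprime.mul_right x2 (hΓq γ x3)
      rw [hset]
      refine Finset.sum_congr rfl fun γ hγ => ?_
      exact (hb γ hγ).2 (h : ℤ)
    rw [e1, norm_mul, ec1_ee_norm, one_mul]
    have e2 := inc_class (α * M₂) (M₁ * M₂) (Nat.mul_pos hα hM2) (Nat.mul_pos hM1 hM2)
      ((h : ℤ) * A₀) C₁ C₂ γ₀ hC
    refine e2.trans ?_
    have hkpos : 1 ≤ Nat.gcd h α := Nat.gcd_pos_of_pos_right _ (by omega)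
    have e3 := ec1_klB α M₁ M₂ _ (Nat.gcd h α) hα hM1 hM2 (ec1_gcd α M₂ hα hM2 A₀ h hA₀) hkpos
    calc klB (α * M₂) (Int.gcd ((h : ℤ) * A₀) ((α * M₂ : ℕ) : ℤ)) *
          (2 * ((C₂ : ℝ) - C₁) / ((α * M₂ : ℕ) : ℝ) + 1 + Real.log ((α * M₂ : ℕ) : ℝ))
        ≤ (klB (α * (M₁ * M₂)) (M₁ * M₂) * (Nat.gcd h α : ℝ)) *
          (2 * ((C₂ : ℝ) - C₁) / α + 1 + Real.log (α * (M₁ * M₂ : ℕ))) :=
          mul_le_mul e3 hlen hlen0 (mul_nonneg (hklnn _ _) (Nat.cast_nonneg _))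
      _ = K * (Nat.gcd h α : ℝ) := by rw [hK]; ring
  have hcf := count_fourier (α * (M₁ * M₂)) hQ1 B₁ B₂ hB Γ b
    (fun h => K * (Nat.gcd h α : ℝ)) hW
  have hK0 : 0 ≤ K := mul_nonneg (hklnn _ _) (hlen0.trans hlen)
  have hgs := gcd_sum α (α * (M₁ * M₂)) hα hQ1 (Dvd.intro _ rfl)
  have hfin : ∑ h ∈ Ico 1 (α * (M₁ * M₂)), (K * (Nat.gcd h α : ℝ)) /
      (2 * ((α * (M₁ * M₂) : ℕ) : ℝ) * nd (h / ((α * (M₁ * M₂) : ℕ) : ℝ))) ≤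
      K * (α.divisors.card * (1 + Real.log ((α * (M₁ * M₂) : ℕ) : ℝ))) := by
    have e : ∑ h ∈ Ico 1 (α * (M₁ * M₂)), (K * (Nat.gcd h α : ℝ)) /
      (2 * ((α * (M₁ * M₂) : ℕ) : ℝ) * nd (h / ((α * (M₁ * M₂) : ℕ) : ℝ))) =
      K * ∑ h ∈ Ico 1 (α * (M₁ * M₂)), (Nat.gcd h α : ℝ) /
      (2 * ((α * (M₁ * M₂) : ℕ) : ℝ) * nd (h / ((α * (M₁ * M₂) : ℕ) : ℝ))) := by
      rw [Finset.mul_sum]
      exact Finset.sum_congr rfl fun h _ => mul_div_assoc _ _ _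
    rw [e]
    exact mul_le_mul_of_nonneg_left hgs hK0
  have hcast : ((α * (M₁ * M₂) : ℕ) : ℝ) = (α : ℝ) * ((M₁ * M₂ : ℕ) : ℝ) := by
    rw [Nat.cast_mul]
  rw [hcount]
  rw [← hcast]
  refine hcf.trans (hfin.trans (le_of_eq ?_))
  rw [hK, hcast]

theorem row_count : type_of% @row_count_pr := @row_count_pr

end Pool.Agent.PENT.EQ
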