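import Pool.Agent.Lib_helper39.PEQ.Defs

/-! block EC2 of PEQ, proved by helper4 -/

set_option autoImplicit false

/-! Block EC2: `grow_count` -/

namespace Pool.Agent.PENT.EQ

open Finset

/-- numbers of one class in an interval -/
theorem ec2_class (q : ℤ) (hq : 0 < q) (r C₁ C₂ : ℤ) (hC : C₁ ≤ C₂) :
    |(((Ioc C₁ C₂).filter (fun γ => q ∣ γ - r)).card : ℝ) - ((C₂ : ℝ) - C₁) / q| ≤ 1 := by
  have h1 : (Ioc C₁ C₂).filter (fun γ => q ∣ γ - r) =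
      (Ioc C₁ C₂).filter (fun γ => γ ≡ r [ZMOD q]) := by
    apply Finset.filter_congr
    intro γ _
    constructor
    · intro h
      exact (Int.modEq_iff_dvd.mpr h).symm
    · intro h
      exact Int.modEq_iff_dvd.mp h.symm
  have h2 := Int.Ioc_filter_modEq_card C₁ C₂ hq r
  rw [h1]
  have hq' : (0 : ℚ) < q := by exact_mod_cast hq
  have h3 : ((C₁ : ℚ) - r) / q ≤ ((C₂ : ℚ) - r) / q := by
    apply div_le_div_of_nonneg_right _ hq'.le
    have : (C₁ : ℚ) ≤ C₂ := by exact_mod_cast hC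
    linarith
  have h4 : ⌊((C₁ : ℚ) - r) / q⌋ ≤ ⌊((C₂ : ℚ) - r) / q⌋ := Int.floor_le_floor h3
  rw [max_eq_left (by omega)] at h2
  have h5 : (((((Ioc C₁ C₂).filter (fun γ => γ ≡ r [ZMOD q])).card : ℕ) : ℤ) : ℚ) =
      ((⌊((C₂ : ℚ) - r) / q⌋ : ℤ) : ℚ) - ((⌊((C₁ : ℚ) - r) / q⌋ : ℤ) : ℚ) := by
    rw [h2]
    push_cast
    ring
  have h6 := Int.floor_le (((C₁ : ℚ) - r) / q)
  have h7 := Int.lt_floor_add_one (((C₁ : ℚ) - r) / q)
  have h8 := Int.floor_le (((C₂ : ℚ) - r) / q)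
  have h9 := Int.lt_floor_add_one (((C₂ : ℚ) - r) / q)
  have h10 : ((C₂ : ℚ) - C₁) / q = ((C₂ : ℚ) - r) / q - ((C₁ : ℚ) - r) / q := by ring
  have h11 : |(((((Ioc C₁ C₂).filter (fun γ => γ ≡ r [ZMOD q])).card : ℕ) : ℤ) : ℚ) -
      ((C₂ : ℚ) - C₁) / q| ≤ 1 := by
    rw [h5, h10, abs_le]
    constructor <;> linarith
  have h12 : (((|(((((Ioc C₁ C₂).filter (fun γ => γ ≡ r [ZMOD q])).card : ℕ) : ℤ) : ℚ) -
      ((C₂ : ℚ) - C₁) / q| : ℚ)) : ℝ) ≤ ((1 : ℚ) : ℝ) := by exact_mod_cast h11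
  push_cast at h12
  exact h12

theorem ec2_moebius (n : ℕ) (_hn : n ≠ 0) :
    ∑ d ∈ n.divisors, (ArithmeticFunction.moebius d : ℝ) = if n = 1 then 1 else 0 := by
  have h := ArithmeticFunction.moebius_mul_coe_zeta
  have h1 : (ArithmeticFunction.moebius * (ArithmeticFunction.zeta : ArithmeticFunction ℤ)) n =
      (1 : ArithmeticFunction ℤ) n := by rw [h]
  rw [ArithmeticFunction.coe_mul_zeta_apply, ArithmeticFunction.one_apply] at h1
  have h2 : ((∑ d ∈ n.divisors, ArithmeticFunction.moebius d : ℤ) : ℝ) =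
      (((if n = 1 then 1 else 0 : ℤ)) : ℝ) := by rw [h1]
  push_cast at h2
  exact h2

/-- Möbius detection of coprimality -/
theorem ec2_coprime (α : ℕ) (hα : 1 ≤ α) (γ : ℤ) :
    (if IsCoprime γ (α : ℤ) then (1 : ℝ) else 0) =
      ∑ d ∈ α.divisors.filter (fun d : ℕ => (d : ℤ) ∣ γ), (ArithmeticFunction.moebius d : ℝ) := by
  have hg : Nat.gcd γ.natAbs α ≠ 0 := by
    intro h
    have := Nat.eq_zero_of_gcd_eq_zero_right h
    omega
  have h1 : α.divisors.filter (fun d : ℕ => (d : ℤ) ∣ γ) = (Nat.gcd γ.natAbs α).divisors := by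
    ext d
    simp only [mem_filter, Nat.mem_divisors]
    constructor
    · rintro ⟨⟨h2, _⟩, h3⟩
      exact ⟨Nat.dvd_gcd (Int.natCast_dvd.mp h3) h2, hg⟩
    · rintro ⟨h2, _⟩
      exact ⟨⟨h2.trans (Nat.gcd_dvd_right _ _), by omega⟩,
        Int.natCast_dvd.mpr (h2.trans (Nat.gcd_dvd_left _ _))⟩
  rw [h1, ec2_moebius _ hg]
  have h2 : IsCoprime γ (α : ℤ) ↔ Nat.gcd γ.natAbs α = 1 := by
    rw [Int.isCoprime_iff_gcd_eq_one]
    unfold Int.gcd
    simp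
  by_cases h3 : IsCoprime γ (α : ℤ)
  · rw [if_pos h3, if_pos (h2.mp h3)]
  · rw [if_neg h3, if_neg (fun h4 => h3 (h2.mpr h4))]

/-- one class modulo `d M` -/
theorem ec2_crt (d M : ℕ) (h : Nat.Coprime d M) (γ₀ : ℤ) :
    ∃ r : ℤ, ∀ γ : ℤ, ((d : ℤ) ∣ γ ∧ (M : ℤ) ∣ γ - γ₀) ↔ ((d : ℤ) * M) ∣ γ - r := by
  have hc : IsCoprime (d : ℤ) (M : ℤ) := Nat.isCoprime_iff_coprime.mpr h
  obtain ⟨a, b, hab⟩ := hc
  refine ⟨a * d * γ₀, fun γ => ?_⟩
  constructor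
  · rintro ⟨h1, h2⟩
    apply IsCoprime.mul_dvd (Nat.isCoprime_iff_coprime.mpr h)
    · exact dvd_sub h1 ⟨a * γ₀, by ring⟩
    · have h3 : γ - a * d * γ₀ = (γ - γ₀) + M * (b * γ₀) := by
        linear_combination (-γ₀) * hab
      rw [h3]
      exact dvd_add h2 (dvd_mul_right _ _)
  · intro h1
    have h2 : (d : ℤ) ∣ γ - a * d * γ₀ := (dvd_mul_right _ _).trans h1
    have h3 : (M : ℤ) ∣ γ - a * d * γ₀ := (dvd_mul_left _ _).trans h1
    constructor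
    · have h4 : γ = (γ - a * d * γ₀) + d * (a * γ₀) := by ring
      rw [h4]
      exact dvd_add h2 (dvd_mul_right _ _)
    · have h4 : γ - γ₀ = (γ - a * d * γ₀) - M * (b * γ₀) := by
        linear_combination γ₀ * hab
      rw [h4]
      exact dvd_sub h3 (dvd_mul_right _ _)

/-- EC2 -/
theorem grow_count_pr (α M : ℕ) (hα : 1 ≤ α) (hM : 1 ≤ M) (γ₀ C₁ C₂ : ℤ) (hC : C₁ ≤ C₂)
    (h : ∀ p : ℕ, p.Prime → p ∣ M → p ∣ α → ¬ (p : ℤ) ∣ γ₀) :
    |((Grow α M γ₀ C₁ C₂).card : ℝ) - ((C₂ : ℝ) - C₁) / M * rho α M| ≤ α.divisors.card := by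
  classical
  have hN0 : ∀ d ∈ α.divisors, ¬ Nat.Coprime d M →
      (Ioc C₁ C₂).filter (fun γ : ℤ => (d : ℤ) ∣ γ ∧ (M : ℤ) ∣ γ - γ₀) = ∅ := by
    intro d hd hdM
    rw [Finset.filter_eq_empty_iff]
    rintro γ _ ⟨h1, h2⟩
    obtain ⟨p, hp, hpd, hpM⟩ := Nat.Prime.not_coprime_iff_dvd.mp hdM
    refine h p hp hpM (hpd.trans (Nat.dvd_of_mem_divisors hd)) ?_
    have h3 : (p : ℤ) ∣ γ := (Int.natCast_dvd_natCast.mpr hpd).trans h1
    have h4 : (p : ℤ) ∣ γ - γ₀ := (Int.natCast_dvd_natCast.mpr hpM).trans h2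
    have h5 : γ₀ = γ - (γ - γ₀) := by ring
    rw [h5]
    exact dvd_sub h3 h4
  have hN1 : ∀ d ∈ α.divisors, Nat.Coprime d M →
      |(((Ioc C₁ C₂).filter (fun γ : ℤ => (d : ℤ) ∣ γ ∧ (M : ℤ) ∣ γ - γ₀)).card : ℝ) -
        ((C₂ : ℝ) - C₁) / ((d : ℝ) * M)| ≤ 1 := by
    intro d hd hdM
    obtain ⟨r, hr⟩ := ec2_crt d M hdM γ₀
    have hd0 : 0 < d := Nat.pos_of_mem_divisors hd
    have hq : (0 : ℤ) < (d : ℤ) * M := by
      have : (0 : ℤ) < M := by exact_mod_cast hM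
      have : (0 : ℤ) < d := by exact_mod_cast hd0
      positivity
    have h1 := ec2_class ((d : ℤ) * M) hq r C₁ C₂ hC
    have h2 : (Ioc C₁ C₂).filter (fun γ : ℤ => (d : ℤ) ∣ γ ∧ (M : ℤ) ∣ γ - γ₀) =
        (Ioc C₁ C₂).filter (fun γ : ℤ => ((d : ℤ) * M) ∣ γ - r) := by
      apply Finset.filter_congr
      intro γ _
      exact hr γ
    rw [h2]
    push_cast at h1
    exact h1
  -- the Möbius sum
  have hcard : ((Grow α M γ₀ C₁ C₂).card : ℝ) = ∑ d ∈ α.divisors,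
      (ArithmeticFunction.moebius d : ℝ) *
        (((Ioc C₁ C₂).filter (fun γ : ℤ => (d : ℤ) ∣ γ ∧ (M : ℤ) ∣ γ - γ₀)).card : ℝ) := by
    have h1 : ((Grow α M γ₀ C₁ C₂).card : ℝ) =
        ∑ γ ∈ (Ioc C₁ C₂).filter (fun γ : ℤ => (M : ℤ) ∣ γ - γ₀),
          (if IsCoprime γ (α : ℤ) then (1 : ℝ) else 0) := by
      rw [← Finset.sum_filter, Finset.filter_filter]
      have h2 : Grow α M γ₀ C₁ C₂ = (Ioc C₁ C₂).filter
          (fun γ : ℤ => (M : ℤ) ∣ γ - γ₀ ∧ IsCoprime γ (α : ℤ)) := by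
        unfold Grow
        apply Finset.filter_congr
        intro γ _
        exact and_comm
      rw [h2]
      simp
    rw [h1]
    have h3 : ∀ γ ∈ (Ioc C₁ C₂).filter (fun γ : ℤ => (M : ℤ) ∣ γ - γ₀),
        (if IsCoprime γ (α : ℤ) then (1 : ℝ) else 0) =
          ∑ d ∈ α.divisors, if (d : ℤ) ∣ γ then (ArithmeticFunction.moebius d : ℝ) else 0 := by
      intro γ _
      rw [ec2_coprime α hα γ, Finset.sum_filter]
    rw [Finset.sum_congr rfl h3, Finset.sum_comm]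
    apply Finset.sum_congr rfl
    intro d _
    rw [← Finset.sum_filter, Finset.filter_filter, Finset.sum_const, nsmul_eq_mul]
    have h4 : (Ioc C₁ C₂).filter (fun γ : ℤ => (M : ℤ) ∣ γ - γ₀ ∧ (d : ℤ) ∣ γ) =
        (Ioc C₁ C₂).filter (fun γ : ℤ => (d : ℤ) ∣ γ ∧ (M : ℤ) ∣ γ - γ₀) := by
      apply Finset.filter_congr
      intro γ _
      exact and_comm
    rw [h4]
    ring
  have hrho : ((C₂ : ℝ) - C₁) / M * rho α M = ∑ d ∈ α.divisors,
      (ArithmeticFunction.moebius d : ℝ) *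
        (if Nat.Coprime d M then ((C₂ : ℝ) - C₁) / ((d : ℝ) * M) else 0) := by
    unfold rho
    rw [Finset.mul_sum, Finset.sum_filter]
    apply Finset.sum_congr rfl
    intro d hd
    have hd0 : (d : ℝ) ≠ 0 := by
      have := Nat.pos_of_mem_divisors hd
      positivity
    have hM0 : (M : ℝ) ≠ 0 := by positivity
    split_ifs with h1
    · field_simp
    · simp
  rw [hcard, hrho, ← Finset.sum_sub_distrib]
  refine (Finset.abs_sum_le_sum_abs _ _).trans ?_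
  have h5 : ∀ d ∈ α.divisors, |(ArithmeticFunction.moebius d : ℝ) *
        (((Ioc C₁ C₂).filter (fun γ : ℤ => (d : ℤ) ∣ γ ∧ (M : ℤ) ∣ γ - γ₀)).card : ℝ) -
      (ArithmeticFunction.moebius d : ℝ) *
        (if Nat.Coprime d M then ((C₂ : ℝ) - C₁) / ((d : ℝ) * M) else 0)| ≤ (1 : ℝ) := by
    intro d hd
    rw [← mul_sub, abs_mul]
    have h6 : |(ArithmeticFunction.moebius d : ℝ)| ≤ 1 := by
      have := ArithmeticFunction.abs_moebius_le_one (n := d)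
      exact_mod_cast this
    by_cases h7 : Nat.Coprime d M
    · rw [if_pos h7]
      have h8 := hN1 d hd h7
      calc _ ≤ (1 : ℝ) * 1 := mul_le_mul h6 h8 (abs_nonneg _) (by norm_num)
        _ = 1 := by norm_num
    · rw [if_neg h7, hN0 d hd h7]
      simp
  refine (Finset.sum_le_sum h5).trans ?_
  simp

theorem grow_count : type_of% @grow_count_pr := @grow_count_pr

end Pool.Agent.PENT.EQ
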