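import Pool.Agent.Lib_helper39.PEQ.Defs

/-! block EC4 of PEQ, proved by helper9 -/

/-! Block EC4 -/

set_option autoImplicit false

namespace Pool.Agent.PENT.EQ

open Finset

theorem ec4_iff {M : ℕ} [NeZero M] (x : ℤ) (g : ZMod M) :
    (x : ZMod M) = g ↔ (M : ℤ) ∣ x - (g.val : ℤ) := by
  have h1 : ((g.val : ℤ) : ZMod M) = g := by
    rw [Int.cast_natCast, ZMod.natCast_zmod_val]
  constructor
  · intro h
    rw [← h1] at h
    exact (ZMod.intCast_eq_intCast_iff_dvd_sub _ _ _).1 h.symm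
  · intro h
    rw [← h1]
    exact ((ZMod.intCast_eq_intCast_iff_dvd_sub _ _ _).2 h).symm

theorem ec4_delta {M : ℕ} (a b c d : ℤ) (ha : 0 < a) :
    (a ∣ b * c + 1 ∧ (M : ℤ) ∣ (b * c + 1) / a - d) ↔ (a * M) ∣ b * c + 1 - a * d := by
  constructor
  · rintro ⟨⟨k, hk⟩, h2⟩
    rw [hk, Int.mul_ediv_cancel_left _ ha.ne'] at h2
    rw [hk, ← mul_sub]
    exact mul_dvd_mul_left a h2
  · intro h
    have h1 : a ∣ b * c + 1 := by
      have h2 : a ∣ b * c + 1 - a * d := dvd_trans (dvd_mul_right a _) h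
      have h3 : b * c + 1 = (b * c + 1 - a * d) + a * d := by ring
      rw [h3]
      exact dvd_add h2 (dvd_mul_right a d)
    refine ⟨h1, ?_⟩
    obtain ⟨k, hk⟩ := h1
    rw [hk, Int.mul_ediv_cancel_left _ ha.ne']
    rw [hk, ← mul_sub] at h
    exact Int.dvd_of_mul_dvd_mul_left ha.ne' h

theorem cls_rows_pr (M : ℕ) [NeZero M] (A₁ A₂ : ℕ) (B₁ B₂ C₁ C₂ : ℤ)
    (g : ZMod M × ZMod M × ZMod M × ZMod M) :
    ((Cls M A₁ A₂ B₁ B₂ C₁ C₂ g).card : ℝ) =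
      ∑ α ∈ (Ioc A₁ A₂).filter (fun α : ℕ => (M : ℤ) ∣ α - (lft g).1),
        ((Nrow α M (lft g).2.1 (lft g).2.2.1 (lft g).2.2.2 B₁ B₂ C₁ C₂).card : ℝ) := by
  classical
  -- membership
  have hmem : ∀ t : ℤ × ℤ × ℤ, t ∈ Cls M A₁ A₂ B₁ B₂ C₁ C₂ g ↔
      (((A₁ : ℤ) < t.1 ∧ t.1 ≤ A₂) ∧ (M : ℤ) ∣ t.1 - (lft g).1) ∧
      t.2 ∈ Nrow t.1.toNat M (lft g).2.1 (lft g).2.2.1 (lft g).2.2.2 B₁ B₂ C₁ C₂ := by
    intro t
    unfold Cls EBox Nrow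
    simp only [mem_filter, mem_product, mem_Ioc]
    have hred : red M (emat t) = g ↔ ((t.1 : ZMod M) = g.1 ∧ (t.2.1 : ZMod M) = g.2.1 ∧
        (t.2.2 : ZMod M) = g.2.2.1 ∧ (((t.2.1 * t.2.2 + 1) / t.1 : ℤ) : ZMod M) = g.2.2.2) := by
      unfold red emat
      constructor
      · intro h
        rw [← h]
        exact ⟨rfl, rfl, rfl, rfl⟩
      · rintro ⟨h1, h2, h3, h4⟩
        rw [h1, h2, h3, h4]
    rw [hred, ec4_iff, ec4_iff, ec4_iff, ec4_iff]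
    constructor
    · rintro ⟨⟨⟨hA, hB, hC⟩, hdvd⟩, h1, h2, h3, h4⟩
      have hpos : 0 < t.1 := by omega
      have hcast : ((t.1.toNat : ℕ) : ℤ) = t.1 := by omega
      refine ⟨⟨hA, h1⟩, ⟨hB, hC⟩, h2, h3, ?_⟩
      have h5 := (ec4_delta (M := M) t.1 t.2.1 t.2.2 ((g.2.2.2.val : ℕ) : ℤ) hpos).1 ⟨hdvd, h4⟩
      rw [Nat.cast_mul, hcast]
      exact h5
    · rintro ⟨⟨hA, h1⟩, ⟨hB, hC⟩, h2, h3, h5⟩
      have hpos : 0 < t.1 := by omega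
      have hcast : ((t.1.toNat : ℕ) : ℤ) = t.1 := by omega
      rw [Nat.cast_mul, hcast] at h5
      have h6 := (ec4_delta (M := M) t.1 t.2.1 t.2.2 ((g.2.2.2.val : ℕ) : ℤ) hpos).2 h5
      exact ⟨⟨⟨hA, hB, hC⟩, h6.1⟩, h1, h2, h3, h6.2⟩
  have hfib : (Cls M A₁ A₂ B₁ B₂ C₁ C₂ g).card =
      ∑ α ∈ (Ioc A₁ A₂).filter (fun α : ℕ => (M : ℤ) ∣ α - (lft g).1),
        ((Cls M A₁ A₂ B₁ B₂ C₁ C₂ g).filter (fun t => t.1.toNat = α)).card := by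
    refine Finset.card_eq_sum_card_fiberwise ?_
    intro t ht
    have h1 := (hmem t).1 ht
    have hpos : 0 < t.1 := by omega
    have hcast : ((t.1.toNat : ℕ) : ℤ) = t.1 := by omega
    have hlt : A₁ < t.1.toNat := by omega
    have hle : t.1.toNat ≤ A₂ := by omega
    refine mem_coe.2 (mem_filter.2 ⟨mem_Ioc.2 ⟨hlt, hle⟩, ?_⟩)
    show (M : ℤ) ∣ ((t.1.toNat : ℕ) : ℤ) - (lft g).1
    rw [hcast]
    exact h1.1.2
  rw [hfib]
  push_cast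
  refine Finset.sum_congr rfl fun α hα => ?_
  have hα1 := mem_Ioc.1 (mem_filter.1 hα).1
  have hα2 := (mem_filter.1 hα).2
  congr 1
  refine Finset.card_nbij' (fun t => t.2) (fun u => ((α : ℤ), u)) ?_ ?_ ?_ ?_
  · intro t ht
    have h1 := mem_filter.1 (mem_coe.1 ht)
    have h2 := ((hmem t).1 h1.1).2
    rw [h1.2] at h2
    exact mem_coe.2 h2
  · intro u hu
    refine mem_coe.2 (mem_filter.2 ⟨(hmem _).2 ⟨⟨⟨?_, ?_⟩, hα2⟩, ?_⟩, ?_⟩)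
    · show (A₁ : ℤ) < (α : ℤ)
      omega
    · show (α : ℤ) ≤ A₂
      omega
    · show u ∈ Nrow (α : ℤ).toNat M (lft g).2.1 (lft g).2.2.1 (lft g).2.2.2 B₁ B₂ C₁ C₂
      rw [Int.toNat_natCast]
      exact mem_coe.1 hu
    · show (α : ℤ).toNat = α
      exact Int.toNat_natCast α
  · intro t ht
    have h1 := mem_filter.1 (mem_coe.1 ht)
    have h2 := ((hmem t).1 h1.1).1
    have h3 : (α : ℤ) = t.1 := by
      rw [← h1.2]; omega
    show ((α : ℤ), t.2) = t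
    rw [h3]
  · intro u _
    rfl

theorem cls_rows : type_of% @cls_rows_pr := @cls_rows_pr

end Pool.Agent.PENT.EQ
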