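import Pool.Agent.Lib_helper39.PEQ.Defs
import Pool.Agent.Lib_helper61.FG.DivB
import Pool.Agent.Lib_helper39.PEQF.EC1
import Pool.Agent.Lib_helper39.PEQF.EC2
import Pool.Agent.Lib_helper39.PEQF.EC4
import Pool.Agent.Lib_helper39.PEQF.EE1

/-! block EE2 of PEQ, proved by helper24 -/

/-!
# PENT, part EQ, block EE2: the number of elements of a box
-/

set_option autoImplicit false

namespace Pool.Agent.PENT.EQ

open Finset

theorem ee2_rho (α : ℕ) (hα : 1 ≤ α) : rho α 1 = (Nat.totient α : ℝ) / α := by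
  have h1 := (ArithmeticFunction.sum_eq_iff_sum_mul_moebius_eq (R := ℝ)
    (f := fun n => (Nat.totient n : ℝ)) (g := fun n => (n : ℝ))).1 (fun n _ => by
      have := Nat.sum_totient n
      exact_mod_cast this) α (by omega)
  have hα0 : (α : ℝ) ≠ 0 := by exact_mod_cast (by omega : α ≠ 0)
  rw [eq_div_iff hα0, ← h1, Nat.sum_divisorsAntidiagonal
    (f := fun a b => ((ArithmeticFunction.moebius a : ℤ) : ℝ) * (b : ℝ))]
  unfold rho
  rw [Finset.filter_true_of_mem (fun d _ => Nat.coprime_one_right d), Finset.sum_mul]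
  refine Finset.sum_congr rfl fun d hd => ?_
  have hdα := Nat.dvd_of_mem_divisors hd
  have hd0 : (d : ℝ) ≠ 0 := by
    have := Nat.pos_of_mem_divisors hd
    exact_mod_cast this.ne'
  rw [Nat.cast_div hdα hd0]
  field_simp

theorem ee2_klB (u : ℝ) (hu : 100 ≤ u) (α : ℕ) (hd : (α.divisors.card : ℝ) ≤ u)
    (hα2 : (α : ℝ) ≤ u ^ 510) : klB α 1 ≤ u ^ 384 := by
  unfold klB
  have hu0 : 0 < u := by linarith
  have h1 : 2 * (α : ℝ) ^ 3 * ((1 : ℕ) : ℝ) * (α.divisors.card : ℝ) ^ 3 ≤ (u ^ 384) ^ 4 := by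
    have h2 : (α : ℝ) ^ 3 ≤ (u ^ 510) ^ 3 := pow_le_pow_left₀ (Nat.cast_nonneg _) hα2 3
    have h3 : (α.divisors.card : ℝ) ^ 3 ≤ u ^ 3 := pow_le_pow_left₀ (Nat.cast_nonneg _) hd 3
    have h4 : 2 * (α : ℝ) ^ 3 * ((1 : ℕ) : ℝ) * (α.divisors.card : ℝ) ^ 3 ≤
        2 * (u ^ 510) ^ 3 * 1 * u ^ 3 := by
      push_cast
      gcongr
    have h5 : 2 * (u ^ 510) ^ 3 * 1 * u ^ 3 = 2 * u ^ 1533 := by ring
    have h6 : (u ^ 384) ^ 4 = u ^ 3 * u ^ 1533 := by ring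
    have h7 : 2 ≤ u ^ 3 := by
      have : (100 : ℝ) ^ 3 ≤ u ^ 3 := pow_le_pow_left₀ (by norm_num) hu 3
      linarith
    rw [h5] at h4
    rw [h6]
    exact h4.trans (mul_le_mul_of_nonneg_right h7 (by positivity))
  calc (2 * (α : ℝ) ^ 3 * ((1 : ℕ) : ℝ) * (α.divisors.card : ℝ) ^ 3) ^ (1 / 4 : ℝ)
      ≤ ((u ^ 384) ^ 4) ^ (1 / 4 : ℝ) := Real.rpow_le_rpow (by positivity) h1 (by norm_num)
    _ = u ^ 384 := by
        rw [← Real.rpow_natCast (u ^ 384) 4, ← Real.rpow_mul (by positivity)]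
        norm_num

theorem ee2_row (u : ℝ) (hu : 100 ≤ u) (α : ℕ) (hα : 1 ≤ α)
    (hd : (α.divisors.card : ℝ) ≤ u) (hl : 1 + Real.log α ≤ u) (hα1 : u ^ 490 ≤ α)
    (hα2 : (α : ℝ) ≤ u ^ 510) (B₁ B₂ C₁ C₂ : ℤ) (hB : B₁ ≤ B₂) (hC : C₁ ≤ C₂)
    (hB' : (B₂ : ℝ) - B₁ ≤ u ^ 510) (hC' : (C₂ : ℝ) - C₁ ≤ u ^ 510) (β₀ γ₀ δ₀ : ℤ) :
    ((B₂ : ℝ) - B₁) * ((C₂ : ℝ) - C₁) * ((Nat.totient α : ℝ) / (α : ℝ) ^ 2) - u ^ 408 ≤
      ((Nrow α 1 β₀ γ₀ δ₀ B₁ B₂ C₁ C₂).card : ℝ) := by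
  have hu0 : 0 < u := by linarith
  have hα0 : (0 : ℝ) < α := by exact_mod_cast hα
  have h1 := row_count α 1 hα le_rfl 0 β₀ γ₀ δ₀ B₁ B₂ C₁ C₂ (by simp) (by simp) hB hC
  have h2 := grow_count α 1 hα le_rfl γ₀ C₁ C₂ hC (fun p hp hp1 => by
    exact absurd (Nat.dvd_one.1 hp1) hp.one_lt.ne')
  rw [ee2_rho α hα] at h2
  simp only [Nat.cast_one, mul_one, div_one] at h1 h2
  set G : ℝ := ((Grow α 1 γ₀ C₁ C₂).card : ℝ) with hG
  set R : ℝ := ((Nrow α 1 β₀ γ₀ δ₀ B₁ B₂ C₁ C₂).card : ℝ) with hR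
  set d : ℝ := (α.divisors.card : ℝ) with hdd
  set φ : ℝ := (Nat.totient α : ℝ) with hφ
  set b : ℝ := (B₂ : ℝ) - B₁ with hb
  set x : ℝ := (C₂ : ℝ) - C₁ with hx
  have hb0 : 0 ≤ b := by
    have : (B₁ : ℝ) ≤ B₂ := by exact_mod_cast hB
    linarith
  have hx0 : 0 ≤ x := by
    have : (C₁ : ℝ) ≤ C₂ := by exact_mod_cast hC
    linarith
  have hlog : 0 ≤ Real.log α := Real.log_nonneg (by exact_mod_cast hα)
  have hd0 : 0 ≤ d := Nat.cast_nonneg _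
  -- the quotients
  have hbα : b / α ≤ u ^ 20 := by
    rw [div_le_iff₀ hα0]
    calc b ≤ u ^ 510 := hB'
      _ = u ^ 20 * u ^ 490 := by ring
      _ ≤ u ^ 20 * α := by gcongr
  have hxα : x / α ≤ u ^ 20 := by
    rw [div_le_iff₀ hα0]
    calc x ≤ u ^ 510 := hC'
      _ = u ^ 20 * u ^ 490 := by ring
      _ ≤ u ^ 20 * α := by gcongr
  have hE : klB α 1 * (2 * x / α + 1 + Real.log α) * (d * (1 + Real.log α)) ≤ u ^ 407 := by
    have e1 : 2 * x / α + 1 + Real.log α ≤ u ^ 21 := by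
      have : 2 * x / α = 2 * (x / α) := by ring
      rw [this]
      have e2 : u ≤ u ^ 20 := le_self_pow₀ (by linarith) (by norm_num)
      have e3 : u ^ 21 = u * u ^ 20 := by ring
      have e4 : 0 < u ^ 20 := by positivity
      nlinarith
    have e5 : d * (1 + Real.log α) ≤ u * u := mul_le_mul hd hl (by linarith) hu0.le
    have e6 : 0 ≤ 2 * x / α + 1 + Real.log α := by positivity
    have e7 : 0 ≤ klB α 1 := by unfold klB; positivity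
    calc klB α 1 * (2 * x / α + 1 + Real.log α) * (d * (1 + Real.log α))
        ≤ u ^ 384 * u ^ 21 * (u * u) := by
          apply mul_le_mul (mul_le_mul (ee2_klB u hu α hd hα2) e1 e6 (by positivity)) e5
            (by positivity) (by positivity)
      _ = u ^ 407 := by ring
  have h3 := (abs_le.1 h1).1
  have h4 := (abs_le.1 h2).1
  have h5 : b / α * (x * (φ / α) - d) ≤ b / α * G :=
    mul_le_mul_of_nonneg_left (by linarith) (by positivity)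
  have h6 : b / α * d ≤ u ^ 20 * u := mul_le_mul hbα hd hd0 (by positivity)
  have h7 : b * x * (φ / (α : ℝ) ^ 2) = b / α * (x * (φ / α)) := by
    field_simp
  have h8 : u ^ 20 * u + u ^ 407 ≤ u ^ 408 := by
    have e1 : u ^ 408 = u * u ^ 407 := by ring
    have e2 : u ^ 20 * u ≤ u ^ 407 := by
      rw [← pow_succ]
      exact pow_le_pow_right₀ (by linarith) (by norm_num)
    have e3 : 0 < u ^ 407 := by positivity
    nlinarith
  rw [h7]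
  nlinarith

theorem box_lower_pr : ∃ c X₀ : ℝ, 0 < c ∧ c ≤ 1 / 100 ∧ 2 ≤ X₀ ∧ ∀ X : ℝ, X₀ ≤ X →
    ∀ (A : ℕ) (B₁ B₂ C₁ C₂ : ℤ),
    X ^ (1 / 2 - c) ≤ A → (2 * A : ℝ) ≤ X ^ (1 / 2 + c) → B₁ ≤ B₂ →
    (B₂ : ℝ) - B₁ ≤ X ^ (1 / 2 + c) → C₁ ≤ C₂ → (C₂ : ℝ) - C₁ ≤ X ^ (1 / 2 + c) →
      ((B₂ : ℝ) - B₁) * ((C₂ : ℝ) - C₁) / 8 - X ^ (1 - c) ≤
        ((EBox A (2 * A) B₁ B₂ C₁ C₂).card : ℝ) := by
  classical
  obtain ⟨A₀, hA₀, htot⟩ := totient_dyadic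
  obtain ⟨K, hK, hdiv⟩ := Pool.Agent.FG61.divisor_bound (ε := 1 / 2000) (by norm_num)
  set W : ℝ := max K (max 2001 A₀) with hW
  have hWK : K ≤ W := le_max_left _ _
  have hW1 : 2001 ≤ W := (le_max_left _ _).trans (le_max_right _ _)
  have hWA : (A₀ : ℝ) ≤ W := (le_max_right _ _).trans (le_max_right _ _)
  have hW0 : 0 < W := by linarith
  refine ⟨1 / 100, W ^ 2000, by norm_num, le_rfl, ?_, ?_⟩
  · calc (2 : ℝ) ≤ W := by linarith
      _ ≤ W ^ 2000 := le_self_pow₀ (by linarith) (by norm_num)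
  intro X hX A B₁ B₂ C₁ C₂ hA1 hA2 hB hB' hC hC'
  have hX1 : 1 ≤ X := le_trans (one_le_pow₀ (by linarith)) hX
  have hX0 : 0 < X := by linarith
  -- `v = X^(1/2000)`, `u = X^(1/1000) = v^2`
  set v : ℝ := X ^ (1 / 2000 : ℝ) with hv
  have hv0 : 0 < v := by positivity
  have hvW : W ≤ v := by
    have h1 : (W ^ 2000) ^ (1 / 2000 : ℝ) ≤ X ^ (1 / 2000 : ℝ) :=
      Real.rpow_le_rpow (by positivity) hX (by norm_num)
    have h2 : (W ^ 2000) ^ (1 / 2000 : ℝ) = W := by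
      rw [← Real.rpow_natCast W 2000, ← Real.rpow_mul hW0.le]
      norm_num
    rw [h2] at h1
    exact h1
  set u : ℝ := v ^ 2 with hu
  have huX : ∀ k : ℕ, u ^ k = X ^ ((k : ℝ) / 1000) := by
    intro k
    rw [hu, hv, ← pow_mul, ← Real.rpow_natCast (X ^ (1 / 2000 : ℝ)), ← Real.rpow_mul hX0.le]
    congr 1
    push_cast
    ring
  have hvu : v ≤ u := by
    rw [hu]
    exact le_self_pow₀ (by linarith) (by norm_num)
  have hu100 : 100 ≤ u := by linarith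
  have hu0 : 0 < u := by linarith
  have e490 : X ^ (1 / 2 - 1 / 100 : ℝ) = u ^ 490 := by
    rw [huX]
    norm_num
  have e510 : X ^ (1 / 2 + 1 / 100 : ℝ) = u ^ 510 := by
    rw [huX]
    norm_num
  have e990 : X ^ (1 - 1 / 100 : ℝ) = u ^ 990 := by
    rw [huX]
    norm_num
  rw [e490] at hA1
  rw [e510] at hA2 hB' hC'
  rw [e990]
  have hXu : X = u ^ 1000 := by
    rw [huX]
    norm_num
  have hA : (1 : ℝ) ≤ A := le_trans (one_le_pow₀ (by linarith)) hA1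
  have hAN : 1 ≤ A := by exact_mod_cast hA
  have hAA₀ : A₀ ≤ A := by
    have h1 : (A₀ : ℝ) ≤ A := by
      calc (A₀ : ℝ) ≤ u := by linarith
        _ ≤ u ^ 490 := le_self_pow₀ (by linarith) (by norm_num)
        _ ≤ A := hA1
    exact_mod_cast h1
  -- the rows
  have hcard : ((EBox A (2 * A) B₁ B₂ C₁ C₂).card : ℝ) =
      ∑ α ∈ Ioc A (2 * A), ((Nrow α 1 0 0 0 B₁ B₂ C₁ C₂).card : ℝ) := by
    have h1 := cls_rows 1 A (2 * A) B₁ B₂ C₁ C₂ (0, 0, 0, 0)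
    have h2 : Cls 1 A (2 * A) B₁ B₂ C₁ C₂ (0, 0, 0, 0) = EBox A (2 * A) B₁ B₂ C₁ C₂ := by
      unfold Cls
      apply Finset.filter_true_of_mem
      intro t _
      exact Subsingleton.elim _ _
    have h3 : (lft ((0, 0, 0, 0) : ZMod 1 × ZMod 1 × ZMod 1 × ZMod 1)) = (0, 0, 0, 0) := rfl
    rw [h2, h3] at h1
    rw [h1]
    apply Finset.sum_congr _ fun _ _ => rfl
    apply Finset.filter_true_of_mem
    intro α _
    simp
  have hrow : ∀ α ∈ Ioc A (2 * A),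
      ((B₂ : ℝ) - B₁) * ((C₂ : ℝ) - C₁) * ((Nat.totient α : ℝ) / (α : ℝ) ^ 2) - u ^ 408 ≤
        ((Nrow α 1 0 0 0 B₁ B₂ C₁ C₂).card : ℝ) := by
    intro α hα
    rw [Finset.mem_Ioc] at hα
    have hα1 : (A : ℝ) ≤ α := by exact_mod_cast hα.1.le
    have hα2 : (α : ℝ) ≤ 2 * A := by exact_mod_cast hα.2
    have hα3 : (α : ℝ) ≤ u ^ 510 := hα2.trans hA2
    have hαX : (α : ℝ) ≤ X := by
      rw [hXu]
      exact hα3.trans (pow_le_pow_right₀ (by linarith) (by norm_num))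
    have hαpos : 0 < α := by omega
    have hαr : (0 : ℝ) < α := by exact_mod_cast hαpos
    have hαv : (α : ℝ) ^ (1 / 2000 : ℝ) ≤ v := Real.rpow_le_rpow hαr.le hαX (by norm_num)
    refine ee2_row u hu100 α hαpos ?_ ?_ (hA1.trans hα1) hα3 B₁ B₂ C₁ C₂ hB hC hB' hC' 0 0 0
    · calc (α.divisors.card : ℝ) ≤ K * (α : ℝ) ^ (1 / 2000 : ℝ) := hdiv α hαpos
        _ ≤ v * v := mul_le_mul (hWK.trans hvW) hαv (by positivity) hv0.le
        _ = u := by rw [hu]; ring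
    · have h1 : Real.log α ≤ (α : ℝ) ^ (1 / 2000 : ℝ) / (1 / 2000) :=
        Real.log_le_rpow_div hαr.le (by norm_num)
      have h2 : Real.log α ≤ 2000 * v := by
        calc Real.log α ≤ (α : ℝ) ^ (1 / 2000 : ℝ) / (1 / 2000) := h1
          _ = 2000 * (α : ℝ) ^ (1 / 2000 : ℝ) := by ring
          _ ≤ 2000 * v := by gcongr
      have h3 : u = v * v := by rw [hu]; ring
      rw [h3]
      have h4 : 2001 ≤ v := hW1.trans hvW
      nlinarith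
  have hsum := Finset.sum_le_sum hrow
  rw [← hcard, Finset.sum_sub_distrib, ← Finset.mul_sum, Finset.sum_const, Nat.card_Ioc,
    nsmul_eq_mul] at hsum
  have h2A : ((2 * A - A : ℕ) : ℝ) = A := by
    have : 2 * A - A = A := by omega
    rw [this]
  rw [h2A] at hsum
  have hb0 : 0 ≤ (B₂ : ℝ) - B₁ := by
    have : (B₁ : ℝ) ≤ B₂ := by exact_mod_cast hB
    linarith
  have hx0 : 0 ≤ (C₂ : ℝ) - C₁ := by
    have : (C₁ : ℝ) ≤ C₂ := by exact_mod_cast hC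
    linarith
  have h5 : ((B₂ : ℝ) - B₁) * ((C₂ : ℝ) - C₁) * (1 / 8) ≤
      ((B₂ : ℝ) - B₁) * ((C₂ : ℝ) - C₁) * ∑ α ∈ Ioc A (2 * A), (Nat.totient α : ℝ) / (α : ℝ) ^ 2 :=
    mul_le_mul_of_nonneg_left (htot A hAA₀) (mul_nonneg hb0 hx0)
  have h6 : (A : ℝ) * u ^ 408 ≤ u ^ 990 := by
    calc (A : ℝ) * u ^ 408 ≤ u ^ 510 * u ^ 408 := by
          gcongr
          linarith
      _ = u ^ 918 := by ring
      _ ≤ u ^ 990 := pow_le_pow_right₀ (by linarith) (by norm_num)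
  linarith

theorem box_lower : type_of% @box_lower_pr := @box_lower_pr

end Pool.Agent.PENT.EQ
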