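import Pool.Agent.Lib_helper39.PEQ.Defs
import Pool.Agent.Lib_helper61.FG.DivB
import Pool.Agent.Lib_helper39.PEQF.EC1
import Pool.Agent.Lib_helper39.PEQF.EC4

/-! block EE3 of PEQ, proved by helper98 -/

set_option autoImplicit false

namespace Pool.Agent.PENT.EQ

open Finset

theorem ee3_inv (A₁ A₂ : ℕ) (hA : 1 ≤ A₁) (hA2 : A₂ ≤ 4 * A₁) :
    ∑ α ∈ Ioc A₁ A₂, (1 : ℝ) / α ≤ 2 := by
  have hA0 : (0 : ℝ) < A₁ := by exact_mod_cast hA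
  have h0 : ∑ α ∈ Ioc A₁ A₂, (1 : ℝ) / α ≤ ∑ α ∈ Ioc A₁ (4 * A₁), (1 : ℝ) / α :=
    Finset.sum_le_sum_of_subset_of_nonneg (Finset.Ioc_subset_Ioc_right hA2)
      fun i _ _ => by positivity
  have h1 : ∑ α ∈ Ioc A₁ (4 * A₁), (1 : ℝ) / α =
      ∑ α ∈ Ioc A₁ (2 * A₁), (1 : ℝ) / α + ∑ α ∈ Ioc (2 * A₁) (4 * A₁), (1 : ℝ) / α := by
    rw [← Finset.sum_union]
    · rw [Finset.Ioc_union_Ioc_eq_Ioc (by omega) (by omega)]
    · rw [Finset.disjoint_left]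
      intro x hx hx'
      rw [Finset.mem_Ioc] at hx hx'
      omega
  have h2 : ∑ α ∈ Ioc A₁ (2 * A₁), (1 : ℝ) / α ≤ 1 := by
    calc ∑ α ∈ Ioc A₁ (2 * A₁), (1 : ℝ) / α ≤ ∑ α ∈ Ioc A₁ (2 * A₁), (1 : ℝ) / A₁ := by
          apply Finset.sum_le_sum
          intro x hx
          rw [Finset.mem_Ioc] at hx
          apply one_div_le_one_div_of_le hA0
          exact_mod_cast hx.1.le
      _ = 1 := by
          rw [Finset.sum_const, Nat.card_Ioc, nsmul_eq_mul]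
          have : 2 * A₁ - A₁ = A₁ := by omega
          rw [this]
          field_simp
  have h3 : ∑ α ∈ Ioc (2 * A₁) (4 * A₁), (1 : ℝ) / α ≤ 1 := by
    calc ∑ α ∈ Ioc (2 * A₁) (4 * A₁), (1 : ℝ) / α ≤
          ∑ α ∈ Ioc (2 * A₁) (4 * A₁), (1 : ℝ) / (2 * A₁) := by
          apply Finset.sum_le_sum
          intro x hx
          rw [Finset.mem_Ioc] at hx
          apply one_div_le_one_div_of_le (by positivity)
          exact_mod_cast hx.1.le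
      _ = 1 := by
          rw [Finset.sum_const, Nat.card_Ioc, nsmul_eq_mul]
          have : 4 * A₁ - 2 * A₁ = 2 * A₁ := by omega
          rw [this]
          push_cast
          field_simp
  linarith

theorem ee3_grow (α : ℕ) (γ₀ C₁ C₂ : ℤ) (hC : C₁ ≤ C₂) :
    ((Grow α 1 γ₀ C₁ C₂).card : ℝ) ≤ (C₂ : ℝ) - C₁ := by
  have h1 : (Grow α 1 γ₀ C₁ C₂).card ≤ (Ioc C₁ C₂).card := by
    unfold Grow
    exact Finset.card_filter_le _ _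
  have h2 : ((Ioc C₁ C₂).card : ℤ) = C₂ - C₁ := by
    rw [Int.card_Ioc]
    exact Int.toNat_of_nonneg (by linarith)
  have h3 : ((Ioc C₁ C₂).card : ℝ) = (C₂ : ℝ) - C₁ := by
    have : (((Ioc C₁ C₂).card : ℤ) : ℝ) = ((C₂ - C₁ : ℤ) : ℝ) := by rw [h2]
    push_cast at this
    exact this
  rw [← h3]
  exact_mod_cast h1

theorem ee3_klB (K X : ℝ) (hK : 1 ≤ K) (hX : 2 ≤ X) (α : ℕ) (hα : 1 ≤ α)
    (hαX : (α : ℝ) ≤ X ^ (1 / 2 + 1 / 100 : ℝ))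
    (hτ : (α.divisors.card : ℝ) ≤ K * X ^ (1 / 100 : ℝ)) :
    klB (α * 1) 1 ≤ 2 * K * X ^ (39 / 100 : ℝ) := by
  have hX0 : 0 < X := by linarith
  have h0 : (0 : ℝ) ≤ 2 * K * X ^ (39 / 100 : ℝ) := by positivity
  unfold klB
  rw [mul_one, Nat.cast_one, mul_one]
  have h1 : 2 * (α : ℝ) ^ 3 * (α.divisors.card : ℝ) ^ 3 ≤ (2 * K * X ^ (39 / 100 : ℝ)) ^ 4 := by
    have h2 : (α : ℝ) ^ 3 ≤ X ^ (153 / 100 : ℝ) := by
      calc (α : ℝ) ^ 3 ≤ (X ^ (1 / 2 + 1 / 100 : ℝ)) ^ 3 :=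
            pow_le_pow_left₀ (by positivity) hαX 3
        _ = X ^ (153 / 100 : ℝ) := by
            rw [← Real.rpow_natCast, ← Real.rpow_mul hX0.le]
            norm_num
    have h3 : (α.divisors.card : ℝ) ^ 3 ≤ K ^ 3 * X ^ (3 / 100 : ℝ) := by
      calc (α.divisors.card : ℝ) ^ 3 ≤ (K * X ^ (1 / 100 : ℝ)) ^ 3 :=
            pow_le_pow_left₀ (by positivity) hτ 3
        _ = K ^ 3 * X ^ (3 / 100 : ℝ) := by
            rw [mul_pow, ← Real.rpow_natCast (X ^ (1 / 100 : ℝ)), ← Real.rpow_mul hX0.le]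
            norm_num
    have h4 : (2 * K * X ^ (39 / 100 : ℝ)) ^ 4 =
        16 * K ^ 4 * (X ^ (153 / 100 : ℝ) * X ^ (3 / 100 : ℝ)) := by
      rw [mul_pow, mul_pow, ← Real.rpow_natCast (X ^ (39 / 100 : ℝ)), ← Real.rpow_mul hX0.le,
        ← Real.rpow_add hX0]
      norm_num
    rw [h4]
    have h5 : (0 : ℝ) ≤ X ^ (153 / 100 : ℝ) := by positivity
    have h6 : (0 : ℝ) ≤ X ^ (3 / 100 : ℝ) := by positivity
    have h7 : (α : ℝ) ^ 3 * (α.divisors.card : ℝ) ^ 3 ≤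
        X ^ (153 / 100 : ℝ) * (K ^ 3 * X ^ (3 / 100 : ℝ)) :=
      mul_le_mul h2 h3 (by positivity) h5
    have h8 : K ^ 3 ≤ K ^ 4 := pow_le_pow_right₀ hK (by norm_num)
    have h9 : K ^ 3 * (X ^ (153 / 100 : ℝ) * X ^ (3 / 100 : ℝ)) ≤
        K ^ 4 * (X ^ (153 / 100 : ℝ) * X ^ (3 / 100 : ℝ)) :=
      mul_le_mul_of_nonneg_right h8 (by positivity)
    have h10 : (0 : ℝ) ≤ K ^ 4 * (X ^ (153 / 100 : ℝ) * X ^ (3 / 100 : ℝ)) := by positivity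
    nlinarith
  calc (2 * (α : ℝ) ^ 3 * (α.divisors.card : ℝ) ^ 3) ^ (1 / 4 : ℝ)
      ≤ ((2 * K * X ^ (39 / 100 : ℝ)) ^ 4) ^ (1 / 4 : ℝ) :=
        Real.rpow_le_rpow (by positivity) h1 (by norm_num)
    _ = 2 * K * X ^ (39 / 100 : ℝ) := by
        have := Real.pow_rpow_inv_natCast h0 (n := 4) (by norm_num)
        rw [show (1 / 4 : ℝ) = ((4 : ℕ) : ℝ)⁻¹ by norm_num]
        exact this

/-- the error of one row -/
theorem ee3_err (K X : ℝ) (hK : 1 ≤ K) (hX : 2 ≤ X) (α : ℕ) (hα : 1 ≤ α)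
    (hαX : (α : ℝ) ≤ X ^ (1 / 2 + 1 / 100 : ℝ)) (hαX' : X ^ (1 / 2 - 1 / 100 : ℝ) ≤ α)
    (hτ : (α.divisors.card : ℝ) ≤ K * X ^ (1 / 100 : ℝ)) (c : ℝ) (hc0 : 0 ≤ c)
    (hc : c ≤ X ^ (1 / 2 + 1 / 100 : ℝ)) :
    klB (α * 1) 1 * (2 * c / α + 1 + Real.log (α * ((1 : ℕ) : ℝ))) *
        (α.divisors.card * (1 + Real.log (α * ((1 : ℕ) : ℝ)))) ≤
      20806 * K ^ 2 * X ^ (43 / 100 : ℝ) := by
  have hX0 : 0 < X := by linarith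
  have hX1 : 1 ≤ X := by linarith
  have hα0 : (0 : ℝ) < α := by exact_mod_cast hα
  have hα1 : (1 : ℝ) ≤ α := by exact_mod_cast hα
  rw [Nat.cast_one, mul_one (α : ℝ)]
  have h1 := ee3_klB K X hK hX α hα hαX hτ
  have hαle : (α : ℝ) ≤ X := by
    refine le_trans hαX ?_
    calc X ^ (1 / 2 + 1 / 100 : ℝ) ≤ X ^ (1 : ℝ) :=
          Real.rpow_le_rpow_of_exponent_le hX1 (by norm_num)
      _ = X := Real.rpow_one X
  have hlog0 : 0 ≤ Real.log α := Real.log_nonneg hα1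
  have hlog : Real.log α ≤ 100 * X ^ (1 / 100 : ℝ) := by
    have h2 : Real.log α ≤ Real.log X := Real.log_le_log hα0 hαle
    have h3 : Real.log X ≤ X ^ (1 / 100 : ℝ) / (1 / 100 : ℝ) :=
      Real.log_le_rpow_div hX0.le (by norm_num)
    have h4 : X ^ (1 / 100 : ℝ) / (1 / 100 : ℝ) = 100 * X ^ (1 / 100 : ℝ) := by ring
    linarith
  have h12 : X ^ (1 / 100 : ℝ) ≤ X ^ (2 / 100 : ℝ) :=
    Real.rpow_le_rpow_of_exponent_le hX1 (by norm_num)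
  have h01 : 1 ≤ X ^ (1 / 100 : ℝ) := Real.one_le_rpow hX1 (by norm_num)
  have h5 : c / α ≤ X ^ (2 / 100 : ℝ) := by
    rw [div_le_iff₀ hα0]
    calc c ≤ X ^ (1 / 2 + 1 / 100 : ℝ) := hc
      _ = X ^ (2 / 100 : ℝ) * X ^ (1 / 2 - 1 / 100 : ℝ) := by
          rw [← Real.rpow_add hX0]; norm_num
      _ ≤ X ^ (2 / 100 : ℝ) * α := mul_le_mul_of_nonneg_left hαX' (by positivity)
  have h6 : 2 * c / α + 1 + Real.log α ≤ 103 * X ^ (2 / 100 : ℝ) := by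
    have : 2 * c / α = 2 * (c / α) := by ring
    rw [this]
    linarith
  have h7 : (α.divisors.card : ℝ) * (1 + Real.log α) ≤ 101 * K * X ^ (2 / 100 : ℝ) := by
    calc (α.divisors.card : ℝ) * (1 + Real.log α)
        ≤ (K * X ^ (1 / 100 : ℝ)) * (101 * X ^ (1 / 100 : ℝ)) :=
          mul_le_mul hτ (by linarith) (by linarith) (by positivity)
      _ = 101 * K * (X ^ (1 / 100 : ℝ) * X ^ (1 / 100 : ℝ)) := by ring
      _ = 101 * K * X ^ (2 / 100 : ℝ) := by rw [← Real.rpow_add hX0]; norm_num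
  have hk0 : 0 ≤ klB (α * 1) 1 := by
    unfold klB
    positivity
  have h8 : 0 ≤ 2 * c / α + 1 + Real.log α := by
    have : 0 ≤ 2 * c / α := by positivity
    linarith
  calc klB (α * 1) 1 * (2 * c / α + 1 + Real.log α) * (α.divisors.card * (1 + Real.log α))
      ≤ (2 * K * X ^ (39 / 100 : ℝ)) * (103 * X ^ (2 / 100 : ℝ)) *
        (101 * K * X ^ (2 / 100 : ℝ)) := by
        apply mul_le_mul _ h7 (by positivity) (by positivity)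
        exact mul_le_mul h1 h6 h8 (by positivity)
    _ = 20806 * K ^ 2 * (X ^ (39 / 100 : ℝ) * X ^ (2 / 100 : ℝ) * X ^ (2 / 100 : ℝ)) := by ring
    _ = 20806 * K ^ 2 * X ^ (43 / 100 : ℝ) := by
        rw [← Real.rpow_add hX0, ← Real.rpow_add hX0]; norm_num

/-- the box as a sum of rows -/
theorem ee3_rows (A₁ A₂ : ℕ) (B₁ B₂ C₁ C₂ : ℤ) : ∃ β₀ γ₀ δ₀ : ℤ,
    ((EBox A₁ A₂ B₁ B₂ C₁ C₂).card : ℝ) =
      ∑ α ∈ Ioc A₁ A₂, ((Nrow α 1 β₀ γ₀ δ₀ B₁ B₂ C₁ C₂).card : ℝ) := by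
  classical
  have h1 := cls_rows 1 A₁ A₂ B₁ B₂ C₁ C₂ (0, 0, 0, 0)
  refine ⟨(lft (M := 1) (0, 0, 0, 0)).2.1, (lft (M := 1) (0, 0, 0, 0)).2.2.1,
    (lft (M := 1) (0, 0, 0, 0)).2.2.2, ?_⟩
  have h2 : Cls 1 A₁ A₂ B₁ B₂ C₁ C₂ (0, 0, 0, 0) = EBox A₁ A₂ B₁ B₂ C₁ C₂ := by
    unfold Cls
    apply Finset.filter_true_of_mem
    intro x _
    exact Subsingleton.elim _ _
  rw [h2] at h1
  rw [h1]
  congr 1
  apply Finset.filter_true_of_mem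
  intro x _
  rw [Nat.cast_one]
  exact one_dvd _

/-- EE3 -/
theorem box_upper_pr : ∃ c X₀ : ℝ, 0 < c ∧ c ≤ 1 / 100 ∧ 2 ≤ X₀ ∧ ∀ X : ℝ, X₀ ≤ X →
    ∀ (A₁ A₂ : ℕ) (B₁ B₂ C₁ C₂ : ℤ),
    X ^ (1 / 2 - c) ≤ A₁ → A₂ ≤ 4 * A₁ → (A₂ : ℝ) ≤ X ^ (1 / 2 + c) → B₁ ≤ B₂ →
    (B₂ : ℝ) - B₁ ≤ X ^ (1 / 2 + c) → C₁ ≤ C₂ → (C₂ : ℝ) - C₁ ≤ X ^ (1 / 2 + c) →
      ((EBox A₁ A₂ B₁ B₂ C₁ C₂).card : ℝ) ≤
        2 * ((B₂ : ℝ) - B₁) * ((C₂ : ℝ) - C₁) + X ^ (1 - c) := by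
  obtain ⟨K₀, hK₀, hdiv⟩ := Pool.Agent.FG61.divisor_bound (ε := 1 / 100) (by norm_num)
  set K : ℝ := max K₀ 1 with hKdef
  have hK : 1 ≤ K := le_max_right _ _
  refine ⟨1 / 100, max 2 ((20806 * K ^ 2) ^ (20 : ℕ)), by norm_num, le_rfl, le_max_left _ _, ?_⟩
  intro X hX A₁ A₂ B₁ B₂ C₁ C₂ hA₁ hA₂ hA₂' hB hB' hC hC'
  have hX2 : 2 ≤ X := le_trans (le_max_left _ _) hX
  have hX0 : 0 < X := by linarith
  have hX1 : 1 ≤ X := by linarith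
  have hA1 : 1 ≤ A₁ := by
    have h1 : (1 : ℝ) ≤ X ^ (1 / 2 - 1 / 100 : ℝ) := Real.one_le_rpow hX1 (by norm_num)
    have h2 : (1 : ℝ) ≤ A₁ := le_trans h1 hA₁
    exact_mod_cast h2
  have hKX : 20806 * K ^ 2 ≤ X ^ (5 / 100 : ℝ) := by
    have h1 : (20806 * K ^ 2) ^ (20 : ℕ) ≤ X := le_trans (le_max_right _ _) hX
    have h2 : ((20806 * K ^ 2) ^ (20 : ℕ)) ^ (((20 : ℕ) : ℝ)⁻¹) ≤ X ^ (((20 : ℕ) : ℝ)⁻¹) :=
      Real.rpow_le_rpow (by positivity) h1 (by norm_num)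
    rw [Real.pow_rpow_inv_natCast (by positivity) (by norm_num)] at h2
    rw [show (5 / 100 : ℝ) = ((20 : ℕ) : ℝ)⁻¹ by norm_num]
    exact h2
  obtain ⟨β₀, γ₀, δ₀, hrows⟩ := ee3_rows A₁ A₂ B₁ B₂ C₁ C₂
  rw [hrows]
  have hrow : ∀ α ∈ Ioc A₁ A₂, ((Nrow α 1 β₀ γ₀ δ₀ B₁ B₂ C₁ C₂).card : ℝ) ≤
      ((B₂ : ℝ) - B₁) * ((C₂ : ℝ) - C₁) * (1 / α) + 20806 * K ^ 2 * X ^ (43 / 100 : ℝ) := by
    intro α hα
    rw [Finset.mem_Ioc] at hα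
    have hα1 : 1 ≤ α := by omega
    have hα0 : (0 : ℝ) < α := by exact_mod_cast hα1
    have hαX : (α : ℝ) ≤ X ^ (1 / 2 + 1 / 100 : ℝ) := by
      refine le_trans ?_ hA₂'
      exact_mod_cast hα.2
    have hαX' : X ^ (1 / 2 - 1 / 100 : ℝ) ≤ α := by
      refine le_trans hA₁ ?_
      exact_mod_cast hα.1.le
    have hαle : (α : ℝ) ≤ X := by
      refine le_trans hαX ?_
      calc X ^ (1 / 2 + 1 / 100 : ℝ) ≤ X ^ (1 : ℝ) :=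
            Real.rpow_le_rpow_of_exponent_le hX1 (by norm_num)
        _ = X := Real.rpow_one X
    have hτ : (α.divisors.card : ℝ) ≤ K * X ^ (1 / 100 : ℝ) := by
      calc (α.divisors.card : ℝ) ≤ K₀ * (α : ℝ) ^ (1 / 100 : ℝ) := hdiv α hα1
        _ ≤ K * X ^ (1 / 100 : ℝ) :=
            mul_le_mul (le_max_left _ _) (Real.rpow_le_rpow hα0.le hαle (by norm_num))
              (by positivity) (by positivity)
    have h1 := row_count α 1 hα1 le_rfl α β₀ γ₀ δ₀ B₁ B₂ C₁ C₂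
      (by rw [Nat.cast_one]; exact one_dvd _) (by rw [Nat.cast_one]; exact one_dvd _) hB hC
    have h2 := ee3_err K X hK hX2 α hα1 hαX hαX' hτ ((C₂ : ℝ) - C₁)
      (by have : (C₁ : ℝ) ≤ C₂ := by exact_mod_cast hC
          linarith) hC'
    have h3 := ee3_grow α γ₀ C₁ C₂ hC
    have h4 : (0 : ℝ) ≤ ((B₂ : ℝ) - B₁) / α := by
      have : (B₁ : ℝ) ≤ B₂ := by exact_mod_cast hB
      apply div_nonneg _ hα0.le
      linarith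
    have h5 := (abs_le.mp (le_trans h1 h2)).2
    have h6 : ((B₂ : ℝ) - B₁) / ((α : ℝ) * ((1 : ℕ) : ℝ)) * ((Grow α 1 γ₀ C₁ C₂).card : ℝ) ≤
        ((B₂ : ℝ) - B₁) / α * ((C₂ : ℝ) - C₁) := by
      rw [Nat.cast_one, mul_one]
      exact mul_le_mul_of_nonneg_left h3 h4
    have h7 : ((B₂ : ℝ) - B₁) / α * ((C₂ : ℝ) - C₁) =
        ((B₂ : ℝ) - B₁) * ((C₂ : ℝ) - C₁) * (1 / α) := by ring
    linarith
  have hBC : (0 : ℝ) ≤ ((B₂ : ℝ) - B₁) * ((C₂ : ℝ) - C₁) := by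
    have h1 : (B₁ : ℝ) ≤ B₂ := by exact_mod_cast hB
    have h2 : (C₁ : ℝ) ≤ C₂ := by exact_mod_cast hC
    exact mul_nonneg (by linarith) (by linarith)
  have hcard : ((Ioc A₁ A₂).card : ℝ) ≤ X ^ (1 / 2 + 1 / 100 : ℝ) := by
    refine le_trans ?_ hA₂'
    rw [Nat.card_Ioc]
    exact_mod_cast Nat.sub_le _ _
  calc ∑ α ∈ Ioc A₁ A₂, ((Nrow α 1 β₀ γ₀ δ₀ B₁ B₂ C₁ C₂).card : ℝ)
      ≤ ∑ α ∈ Ioc A₁ A₂, (((B₂ : ℝ) - B₁) * ((C₂ : ℝ) - C₁) * (1 / α) +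
        20806 * K ^ 2 * X ^ (43 / 100 : ℝ)) := Finset.sum_le_sum hrow
    _ = ((B₂ : ℝ) - B₁) * ((C₂ : ℝ) - C₁) * ∑ α ∈ Ioc A₁ A₂, (1 : ℝ) / α +
        ((Ioc A₁ A₂).card : ℝ) * (20806 * K ^ 2 * X ^ (43 / 100 : ℝ)) := by
        rw [Finset.sum_add_distrib, ← Finset.mul_sum, Finset.sum_const, nsmul_eq_mul]
    _ ≤ ((B₂ : ℝ) - B₁) * ((C₂ : ℝ) - C₁) * 2 +
        X ^ (1 / 2 + 1 / 100 : ℝ) * (X ^ (5 / 100 : ℝ) * X ^ (43 / 100 : ℝ)) := by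
        apply add_le_add
        · exact mul_le_mul_of_nonneg_left (ee3_inv A₁ A₂ hA1 hA₂) hBC
        · apply mul_le_mul hcard _ (by positivity) (by positivity)
          exact mul_le_mul_of_nonneg_right hKX (by positivity)
    _ = 2 * ((B₂ : ℝ) - B₁) * ((C₂ : ℝ) - C₁) + X ^ (1 - 1 / 100 : ℝ) := by
        rw [← Real.rpow_add hX0, ← Real.rpow_add hX0]
        norm_num
        ring

theorem box_upper : type_of% @box_upper_pr := @box_upper_pr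

end Pool.Agent.PENT.EQ
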