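import Pool.Agent.Lib_helper39.PEQ.Defs

/-! block EF1 of PEQ, proved by helper36 -/

set_option autoImplicit false

namespace Pool.Agent.PENT.EQ

open Finset

theorem ef1_cop (M : ℕ) (c d : ℤ) (hc : c ≠ 0) (h : ∀ p : ℕ, p.Prime → p ∣ M → (p : ℤ) ∣ c →
    ¬ (p : ℤ) ∣ d) : ∃ k : ℤ, IsCoprime (d + M * k) c := by
  classical
  refine ⟨((∏ p ∈ c.natAbs.primeFactors.filter (fun p : ℕ => ¬ (p : ℤ) ∣ d), p : ℕ) : ℤ), ?_⟩
  rw [Int.isCoprime_iff_gcd_eq_one]
  by_contra hne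
  obtain ⟨p, hp, hpd⟩ := Nat.exists_prime_and_dvd hne
  have h1 : (p : ℤ) ∣ d + M * ((∏ p ∈ c.natAbs.primeFactors.filter
      (fun p : ℕ => ¬ (p : ℤ) ∣ d), p : ℕ) : ℤ) :=
    (Int.natCast_dvd_natCast.2 hpd).trans (Int.gcd_dvd_left _ _)
  have h2 : (p : ℤ) ∣ c := (Int.natCast_dvd_natCast.2 hpd).trans (Int.gcd_dvd_right _ _)
  by_cases hd : (p : ℤ) ∣ d
  · have h3 := (dvd_add_right hd).1 h1
    rcases (Nat.prime_iff_prime_int.1 hp).dvd_or_dvd h3 with h4 | h4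
    · exact h p hp (Int.natCast_dvd_natCast.1 h4) h2 hd
    · rw [Int.natCast_dvd_natCast] at h4
      obtain ⟨q, hq, hq'⟩ := (hp.prime.dvd_finsetProd_iff _).1 h4
      rw [mem_filter, Nat.mem_primeFactors] at hq
      rw [(Nat.prime_dvd_prime_iff_eq hp hq.1.1).1 hq'] at hd
      exact hq.2 hd
  · have h3 : p ∈ c.natAbs.primeFactors.filter (fun p : ℕ => ¬ (p : ℤ) ∣ d) := by
      rw [mem_filter, Nat.mem_primeFactors]
      exact ⟨⟨hp, Int.natCast_dvd.1 h2, by simpa using hc⟩, hd⟩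
    have h4 : (p : ℤ) ∣ M * ((∏ p ∈ c.natAbs.primeFactors.filter
      (fun p : ℕ => ¬ (p : ℤ) ∣ d), p : ℕ) : ℤ) :=
      Dvd.dvd.mul_left (Int.natCast_dvd_natCast.2 (Finset.dvd_prod_of_mem _ h3)) _
    exact hd ((dvd_add_left h4).1 h1)

theorem ef1_lift (M : ℕ) (hM : 1 ≤ M) (a b c d : ℤ) (h : (M : ℤ) ∣ a * d - b * c - 1) :
    ∃ a' b' c' d' : ℤ, a' * d' - b' * c' = 1 ∧ (M : ℤ) ∣ a' - a ∧ (M : ℤ) ∣ b' - b ∧
      (M : ℤ) ∣ c' - c ∧ (M : ℤ) ∣ d' - d := by
  obtain ⟨c', hc0, hcc⟩ : ∃ c' : ℤ, c' ≠ 0 ∧ (M : ℤ) ∣ c' - c := by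
    by_cases hc : c = 0
    · exact ⟨M, by positivity, by simp [hc]⟩
    · exact ⟨c, hc, by simp⟩
  obtain ⟨k, hk⟩ := ef1_cop M c' d hc0 (by
    intro p hp hpM hpc hpd
    have hpM' : (p : ℤ) ∣ M := Int.natCast_dvd_natCast.2 hpM
    have h1 : (p : ℤ) ∣ c := by
      have := dvd_sub hpc (hpM'.trans hcc)
      simpa using this
    have h2 : (p : ℤ) ∣ 1 := by
      have h3 := dvd_sub (dvd_sub (Dvd.dvd.mul_left hpd a) (Dvd.dvd.mul_left h1 b)) (hpM'.trans h)
      simpa using h3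
    exact hp.one_lt.ne' (by exact_mod_cast Int.eq_one_of_dvd_one (by positivity) h2))
  obtain ⟨u, v, huv⟩ := hk
  obtain ⟨e, he⟩ : (M : ℤ) ∣ a * (d + M * k) - b * c' - 1 := by
    have h1 : a * (d + M * k) - b * c' - 1 = (a * d - b * c - 1) + M * (a * k) - b * (c' - c) := by
      ring
    rw [h1]
    exact dvd_sub (dvd_add h (Dvd.intro _ rfl)) (Dvd.dvd.mul_left hcc b)
  refine ⟨a - M * e * u, b + M * e * v, c', d + M * k, ?_, ?_, ?_, hcc, ?_⟩
  · linear_combination he - (M : ℤ) * e * huv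
  · exact ⟨-(e * u), by ring⟩
  · exact ⟨e * v, by ring⟩
  · exact ⟨k, by ring⟩

/-- the tuple of a matrix -/
def ef1_tup {M : ℕ} (A : Matrix.SpecialLinearGroup (Fin 2) (ZMod M)) :
    ZMod M × ZMod M × ZMod M × ZMod M := (A 0 0, A 0 1, A 1 0, A 1 1)

theorem ef1_sum (M : ℕ) [NeZero M] (f : ZMod M × ZMod M × ZMod M × ZMod M → ℝ) :
    ∑ g ∈ SLM M, f g = ∑ A : Matrix.SpecialLinearGroup (Fin 2) (ZMod M), f (ef1_tup A) := by
  classical
  symm
  refine Finset.sum_bij (fun A _ => ef1_tup A) ?_ ?_ ?_ ?_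
  · intro A _
    have h := A.det_coe
    rw [Matrix.det_fin_two] at h
    simp only [SLM, mem_filter, mem_univ, true_and, ef1_tup]
    exact h
  · intro A _ B _ h
    simp only [ef1_tup, Prod.mk.injEq] at h
    obtain ⟨h1, h2, h3, h4⟩ := h
    ext i j
    fin_cases i <;> fin_cases j
    · exact h1
    · exact h2
    · exact h3
    · exact h4
  · intro g hg
    simp only [SLM, mem_filter, mem_univ, true_and] at hg
    refine ⟨⟨!![g.1, g.2.1; g.2.2.1, g.2.2.2], ?_⟩, mem_univ _, ?_⟩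
    · rw [Matrix.det_fin_two_of]
      exact hg
    · simp [ef1_tup]
  · intro A _
    rfl

/-- reduction of the group -/
def ef1_map {M N : ℕ} (h : M ∣ N) :
    Matrix.SpecialLinearGroup (Fin 2) (ZMod N) →* Matrix.SpecialLinearGroup (Fin 2) (ZMod M) :=
  Matrix.SpecialLinearGroup.map (ZMod.castHom h (ZMod M))

theorem ef1_surj (M N : ℕ) [NeZero M] [NeZero N] (h : M ∣ N) :
    Function.Surjective (ef1_map h) := by
  intro B
  have hB := B.det_coe
  rw [Matrix.det_fin_two] at hB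
  obtain ⟨a, b, c, d, h1, h2, h3, h4, h5⟩ := ef1_lift M (NeZero.one_le) ((B 0 0).val : ℤ)
    ((B 0 1).val : ℤ) ((B 1 0).val : ℤ) ((B 1 1).val : ℤ) (by
      rw [← ZMod.intCast_zmod_eq_zero_iff_dvd]
      push_cast
      simp only [ZMod.natCast_val, ZMod.cast_id', id_eq]
      rw [hB]
      ring)
  have key : ∀ (x : ℤ) (y : ZMod M), (M : ℤ) ∣ x - (y.val : ℤ) → (x : ZMod M) = y := by
    intro x y hxy
    rw [← ZMod.intCast_zmod_eq_zero_iff_dvd] at hxy
    push_cast at hxy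
    simp only [ZMod.natCast_val, ZMod.cast_id', id_eq] at hxy
    exact sub_eq_zero.1 hxy
  refine ⟨⟨!![(a : ZMod N), b; c, d], ?_⟩, ?_⟩
  · rw [Matrix.det_fin_two_of]
    have : ((a * d - b * c : ℤ) : ZMod N) = ((1 : ℤ) : ZMod N) := by rw [h1]
    push_cast at this
    exact this
  · ext i j
    fin_cases i <;> fin_cases j
    · change ZMod.castHom h (ZMod M) (a : ZMod N) = B 0 0
      rw [map_intCast]
      exact key a _ h2
    · change ZMod.castHom h (ZMod M) (b : ZMod N) = B 0 1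
      rw [map_intCast]
      exact key b _ h3
    · change ZMod.castHom h (ZMod M) (c : ZMod N) = B 1 0
      rw [map_intCast]
      exact key c _ h4
    · change ZMod.castHom h (ZMod M) (d : ZMod N) = B 1 1
      rw [map_intCast]
      exact key d _ h5

theorem ef1_red (M N : ℕ) [NeZero M] [NeZero N] (h : M ∣ N) (F : ℤ × ℤ × ℤ × ℤ → ℝ)
    (hF : Per M F) (A : Matrix.SpecialLinearGroup (Fin 2) (ZMod N)) :
    F (lft (ef1_tup A)) = F (lft (ef1_tup (ef1_map h A))) := by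
  have key : ∀ x : ZMod N, (M : ℤ) ∣ (x.val : ℤ) - ((ZMod.castHom h (ZMod M) x).val : ℤ) := by
    intro x
    rw [← ZMod.intCast_zmod_eq_zero_iff_dvd]
    push_cast
    simp only [ZMod.natCast_val, ZMod.castHom_apply, ZMod.cast_id', id_eq]
    exact sub_self _
  refine hF _ _ ?_ ?_ ?_ ?_
  · exact key (A 0 0)
  · exact key (A 0 1)
  · exact key (A 1 0)
  · exact key (A 1 1)

theorem EM_dvd_pr (M N : ℕ) [NeZero M] [NeZero N] (h : M ∣ N) (F : ℤ × ℤ × ℤ × ℤ → ℝ)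
    (hF : Per M F) : EM N F = EM M F := by
  classical
  have hfib : ∀ B : Matrix.SpecialLinearGroup (Fin 2) (ZMod M),
      (univ.filter (fun A => ef1_map h A = B)).card =
        (univ.filter (fun A => ef1_map h A = 1)).card := by
    intro B
    exact MonoidHom.card_fiber_eq_of_mem_range (ef1_map h) (Set.mem_range.2 (ef1_surj M N h B))
      (Set.mem_range.2 (ef1_surj M N h 1))
  set K := (univ.filter (fun A => ef1_map h A = 1)).card with hK
  have hK0 : (0 : ℝ) < K := by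
    have : 0 < K := card_pos.2 ⟨1, by simp⟩
    exact_mod_cast this
  have hsum : ∀ f : Matrix.SpecialLinearGroup (Fin 2) (ZMod M) → ℝ,
      ∑ A, f (ef1_map h A) = K * ∑ B, f B := by
    intro f
    rw [← Finset.sum_fiberwise_of_maps_to (s := univ) (t := univ) (g := ef1_map h)
      (fun _ _ => mem_univ _), Finset.mul_sum]
    refine sum_congr rfl (fun B _ => ?_)
    rw [sum_congr rfl (g := fun _ => f B) (fun A hA => by rw [(mem_filter.1 hA).2])]
    rw [sum_const, hfib B, nsmul_eq_mul]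
  have hcard : ∀ (L : ℕ) [NeZero L], ((SLM L).card : ℝ) =
      ∑ _A : Matrix.SpecialLinearGroup (Fin 2) (ZMod L), (1 : ℝ) := by
    intro L _
    rw [← ef1_sum L (fun _ => 1)]
    simp
  have h1 : ∑ g ∈ SLM N, F (lft g) = K * ∑ g ∈ SLM M, F (lft g) := by
    rw [ef1_sum, ef1_sum, ← hsum (fun B => F (lft (ef1_tup B)))]
    exact sum_congr rfl (fun A _ => ef1_red M N h F hF A)
  have h2 : ((SLM N).card : ℝ) = K * (SLM M).card := by
    rw [hcard N, hcard M, ← hsum (fun _ => 1)]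
  unfold EM
  rw [h1, h2, mul_div_mul_left _ _ hK0.ne']

theorem EM_dvd : type_of% @EM_dvd_pr := @EM_dvd_pr

end Pool.Agent.PENT.EQ
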