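import Pool.Agent.Lib_helper39.PEQ.Defs

/-! block EF2 of PEQ, proved by helper24 -/

/-!
# PENT, part EQ, block EF2: the product formula for the means over `SL₂(ℤ/M)`
-/

set_option autoImplicit false

namespace Pool.Agent.PENT.EQ

open Finset

theorem ef2_mem {M : ℕ} [NeZero M] (g : ZMod M × ZMod M × ZMod M × ZMod M) :
    g ∈ SLM M ↔ g.1 * g.2.2.2 - g.2.1 * g.2.2.1 = 1 := by
  unfold SLM
  rw [Finset.mem_filter]
  simp

theorem ef2_fst {M N : ℕ} (h : Nat.Coprime M N) (x : ZMod (M * N)) :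
    (ZMod.chineseRemainder h x).1 = ZMod.castHom (dvd_mul_right M N) (ZMod M) x := by
  have : (RingHom.fst (ZMod M) (ZMod N)).comp (ZMod.chineseRemainder h).toRingHom =
      ZMod.castHom (dvd_mul_right M N) (ZMod M) := Subsingleton.elim _ _
  exact congrArg (fun f => f x) this

theorem ef2_snd {M N : ℕ} (h : Nat.Coprime M N) (x : ZMod (M * N)) :
    (ZMod.chineseRemainder h x).2 = ZMod.castHom (dvd_mul_left N M) (ZMod N) x := by
  have : (RingHom.snd (ZMod M) (ZMod N)).comp (ZMod.chineseRemainder h).toRingHom =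
      ZMod.castHom (dvd_mul_left N M) (ZMod N) := Subsingleton.elim _ _
  exact congrArg (fun f => f x) this

theorem ef2_val {M L : ℕ} [NeZero M] [NeZero L] (h : M ∣ L) (x : ZMod L) :
    (M : ℤ) ∣ (x.val : ℤ) - ((ZMod.castHom h (ZMod M) x).val : ℤ) := by
  rw [← ZMod.intCast_zmod_eq_zero_iff_dvd]
  push_cast
  rw [ZMod.natCast_zmod_val, ZMod.castHom_apply, ZMod.natCast_val, sub_self]

/-- the bijection -/
noncomputable def ef2_i {M N : ℕ} (h : Nat.Coprime M N)
    (g : ZMod (M * N) × ZMod (M * N) × ZMod (M * N) × ZMod (M * N)) :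
    (ZMod M × ZMod M × ZMod M × ZMod M) × (ZMod N × ZMod N × ZMod N × ZMod N) :=
  (((ZMod.chineseRemainder h g.1).1, (ZMod.chineseRemainder h g.2.1).1,
    (ZMod.chineseRemainder h g.2.2.1).1, (ZMod.chineseRemainder h g.2.2.2).1),
   ((ZMod.chineseRemainder h g.1).2, (ZMod.chineseRemainder h g.2.1).2,
    (ZMod.chineseRemainder h g.2.2.1).2, (ZMod.chineseRemainder h g.2.2.2).2))

theorem ef2_sum {M N : ℕ} [NeZero M] [NeZero N] [NeZero (M * N)] (h : Nat.Coprime M N)
    (f : (ZMod M × ZMod M × ZMod M × ZMod M) × (ZMod N × ZMod N × ZMod N × ZMod N) → ℝ) :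
    ∑ g ∈ SLM (M * N), f (ef2_i h g) = ∑ p ∈ SLM M ×ˢ SLM N, f p := by
  set c := ZMod.chineseRemainder h with hc
  refine Finset.sum_nbij' (ef2_i h)
    (fun p => (c.symm (p.1.1, p.2.1), c.symm (p.1.2.1, p.2.2.1), c.symm (p.1.2.2.1, p.2.2.2.1),
      c.symm (p.1.2.2.2, p.2.2.2.2))) ?_ ?_ ?_ ?_ ?_
  · intro g hg
    rw [ef2_mem] at hg
    have h1 := congrArg c hg
    rw [map_sub, map_mul, map_mul, map_one] at h1
    rw [Finset.mem_product, ef2_mem, ef2_mem]
    exact ⟨congrArg Prod.fst h1, congrArg Prod.snd h1⟩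
  · intro p hp
    rw [Finset.mem_product, ef2_mem, ef2_mem] at hp
    rw [ef2_mem]
    apply c.injective
    rw [map_sub, map_mul, map_mul, map_one]
    simp only [RingEquiv.apply_symm_apply]
    exact Prod.ext hp.1 hp.2
  · rintro ⟨a, b, x, d⟩ _
    simp only [ef2_i, Prod.mk.eta, ← hc, RingEquiv.symm_apply_apply]
  · rintro ⟨⟨a, b, x, d⟩, ⟨a', b', x', d'⟩⟩ _
    simp only [ef2_i, ← hc, RingEquiv.apply_symm_apply]
  · intro g _
    rfl

theorem EM_mul_pr (M N : ℕ) [NeZero M] [NeZero N] [NeZero (M * N)] (F G : ℤ × ℤ × ℤ × ℤ → ℝ)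
    (hF : Per M F) (hG : Per N G) (h : Nat.Coprime M N) :
    EM (M * N) (fun g => F g * G g) = EM M F * EM N G := by
  have h1 : ∑ g ∈ SLM (M * N), F (lft g) * G (lft g) =
      (∑ g ∈ SLM M, F (lft g)) * ∑ g ∈ SLM N, G (lft g) := by
    have h2 := ef2_sum h (fun p => F (lft p.1) * G (lft p.2))
    rw [Finset.sum_product] at h2
    rw [Finset.sum_mul_sum, ← h2]
    refine Finset.sum_congr rfl fun g _ => ?_
    congr 1
    · apply hF
      · simp only [ef2_i, lft, ef2_fst]; exact ef2_val _ _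
      · simp only [ef2_i, lft, ef2_fst]; exact ef2_val _ _
      · simp only [ef2_i, lft, ef2_fst]; exact ef2_val _ _
      · simp only [ef2_i, lft, ef2_fst]; exact ef2_val _ _
    · apply hG
      · simp only [ef2_i, lft, ef2_snd]; exact ef2_val _ _
      · simp only [ef2_i, lft, ef2_snd]; exact ef2_val _ _
      · simp only [ef2_i, lft, ef2_snd]; exact ef2_val _ _
      · simp only [ef2_i, lft, ef2_snd]; exact ef2_val _ _
  have h3 : ((SLM (M * N)).card : ℝ) = ((SLM M).card : ℝ) * (SLM N).card := by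
    have h4 := ef2_sum h (fun _ => 1)
    simp only [Finset.sum_const, nsmul_eq_mul, mul_one, Finset.card_product] at h4
    push_cast at h4
    exact h4
  unfold EM
  rw [h1, h3, mul_div_mul_comm]

theorem EM_mul : type_of% @EM_mul_pr := @EM_mul_pr

end Pool.Agent.PENT.EQ
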