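import Pool.Agent.Lib_helper39.PEQ.Defs

/-! block EF3 of PEQ, proved by helper80 -/

set_option autoImplicit false

namespace Pool.Agent.PENT.EQ

theorem ef3_raw (k : ℕ) : ∀ (g n g' : ℤ), n.natAbs ≤ k → 0 < g → g * g' = n ^ 2 + 1 →
    ∃ α β γ δ : ℤ, α * δ - β * γ = 1 ∧ g = α ^ 2 + γ ^ 2 ∧ n = α * β + γ * δ ∧
      g' = β ^ 2 + δ ^ 2 := by
  induction k with
  | zero =>
    intro g n g' hn hg h
    have hn0 : n = 0 := by omega
    subst hn0
    have h1 : g * g' = 1 := by rw [h]; ring
    have h2 : g = 1 := by
      rcases Int.eq_one_or_neg_one_of_mul_eq_one h1 with h2 | h2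
      · exact h2
      · omega
    subst h2
    have h3 : g' = 1 := by linarith
    subst h3
    exact ⟨1, 0, 0, 1, by ring, by ring, by ring, by ring⟩
  | succ k ih =>
    intro g n g' hn hg h
    have hg' : 0 < g' := by
      by_contra hcon
      push Not at hcon
      have : g * g' ≤ 0 := mul_nonpos_of_nonneg_of_nonpos hg.le hcon
      nlinarith [sq_nonneg n]
    by_cases hk : n.natAbs ≤ k
    · exact ih g n g' hk hg h
    · have hnabs : n.natAbs = k + 1 := by omega
      rcases lt_trichotomy n 0 with hneg | hzero | hpos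
      · -- n < 0
        have hor : g ≤ -n ∨ g' ≤ -n := by
          by_contra hcon
          push Not at hcon
          have h1 : -n + 1 ≤ g := by omega
          have h2 : -n + 1 ≤ g' := by omega
          have h3 : (-n + 1) * (-n + 1) ≤ g * g' :=
            mul_le_mul h1 h2 (by omega) hg.le
          nlinarith
        rcases hor with hle | hle
        · obtain ⟨α, β, γ, δ, e1, e2, e3, e4⟩ := ih g (n + g) (g' + 2 * n + g) (by omega) hg
            (by linear_combination h)
          refine ⟨α, β - α, γ, δ - γ, by linear_combination e1, e2,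
            by linear_combination e3 - e2, ?_⟩
          linear_combination e4 - 2 * e3 + e2
        · have hg1 : 0 < g + 2 * n + g' := by
            have h5 : (g + 2 * n + g') * g' = (n + g') ^ 2 + 1 := by linear_combination h
            by_contra hcon
            push Not at hcon
            have := mul_nonpos_of_nonpos_of_nonneg hcon hg'.le
            nlinarith [sq_nonneg (n + g')]
          obtain ⟨α, β, γ, δ, e1, e2, e3, e4⟩ := ih (g + 2 * n + g') (n + g') g' (by omega) hg1
            (by linear_combination h)
          refine ⟨α - β, β, γ - δ, δ, by linear_combination e1, ?_,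
            by linear_combination e3 - e4, e4⟩
          linear_combination e2 - 2 * e3 + e4
      · exact absurd hzero (by omega)
      · have hor : g ≤ n ∨ g' ≤ n := by
          by_contra hcon
          push Not at hcon
          have h1 : n + 1 ≤ g := by omega
          have h2 : n + 1 ≤ g' := by omega
          have h3 : (n + 1) * (n + 1) ≤ g * g' :=
            mul_le_mul h1 h2 (by omega) hg.le
          nlinarith
        rcases hor with hle | hle
        · obtain ⟨α, β, γ, δ, e1, e2, e3, e4⟩ := ih g (n - g) (g' - 2 * n + g) (by omega) hg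
            (by linear_combination h)
          refine ⟨α, β + α, γ, δ + γ, by linear_combination e1, e2,
            by linear_combination e3 + e2, ?_⟩
          linear_combination e4 + 2 * e3 + e2
        · have hg1 : 0 < g - 2 * n + g' := by
            have h5 : (g - 2 * n + g') * g' = (n - g') ^ 2 + 1 := by linear_combination h
            by_contra hcon
            push Not at hcon
            have := mul_nonpos_of_nonpos_of_nonneg hcon hg'.le
            nlinarith [sq_nonneg (n - g')]
          obtain ⟨α, β, γ, δ, e1, e2, e3, e4⟩ := ih (g - 2 * n + g') (n - g') g' (by omega) hg1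
            (by linear_combination h)
          refine ⟨α + β, β, γ + δ, δ, by linear_combination e1, ?_,
            by linear_combination e3 + e4, e4⟩
          linear_combination e2 + 2 * e3 + e4

theorem form_decomp_pr (g n g' : ℤ) (hg : 0 < g) (h : g * g' = n ^ 2 + 1) :
    ∃ α β γ δ : ℤ, α * δ - β * γ = 1 ∧ g = α ^ 2 + γ ^ 2 ∧ n = α * β + γ * δ ∧
      g' = β ^ 2 + δ ^ 2 ∧ 0 < α ∧ γ ^ 2 ≤ α ^ 2 := by
  have sgn : ∀ α β γ δ : ℤ, α * δ - β * γ = 1 → g = α ^ 2 + γ ^ 2 → n = α * β + γ * δ →
      g' = β ^ 2 + δ ^ 2 → γ ^ 2 ≤ α ^ 2 →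
      ∃ α β γ δ : ℤ, α * δ - β * γ = 1 ∧ g = α ^ 2 + γ ^ 2 ∧ n = α * β + γ * δ ∧
      g' = β ^ 2 + δ ^ 2 ∧ 0 < α ∧ γ ^ 2 ≤ α ^ 2 := by
    intro α β γ δ e1 e2 e3 e4 e5
    have hα : α ≠ 0 := by
      intro h0
      subst h0
      have : γ ^ 2 = 0 := le_antisymm (by simpa using e5) (sq_nonneg γ)
      have h1 : γ = 0 := by simpa using this
      subst h1
      simp at e1
    rcases lt_or_gt_of_ne hα with h1 | h1
    · exact ⟨-α, -β, -γ, -δ, by linear_combination e1, by linear_combination e2,
        by linear_combination e3, by linear_combination e4, by omega, by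
          have e6 : (-γ) ^ 2 = γ ^ 2 := by ring
          have e7 : (-α) ^ 2 = α ^ 2 := by ring
          rw [e6, e7]; exact e5⟩
    · exact ⟨α, β, γ, δ, e1, e2, e3, e4, h1, e5⟩
  obtain ⟨α, β, γ, δ, e1, e2, e3, e4⟩ := ef3_raw n.natAbs g n g' le_rfl hg h
  rcases le_total (γ ^ 2) (α ^ 2) with h1 | h1
  · exact sgn α β γ δ e1 e2 e3 e4 h1
  · refine sgn γ δ (-α) (-β) (by linear_combination e1) (by linear_combination e2)
      (by linear_combination e3) (by linear_combination e4) ?_
    have e6 : (-α) ^ 2 = α ^ 2 := by ring
    rw [e6]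
    exact h1

theorem form_decomp : type_of% @form_decomp_pr := @form_decomp_pr

end Pool.Agent.PENT.EQ
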