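import Pool.Agent.Lib_helper39.PEQ.Defs

/-! block EC3 of PEQ, proved by helper19 -/

/-! PENT part EQ, block EC3: the mean of `ρ(α, M)/α` over two classes. -/

set_option autoImplicit false

namespace Pool.Agent.PENT.EQ

open Finset

/-- two classes modulo `q` have the same harmonic sum up to `1/A₁` -/
theorem ec3_class (q A₁ A₂ : ℕ) (hq : 1 ≤ q) (hA : 1 ≤ A₁) (c c' : ℤ) :
    ∑ n ∈ (Ioc A₁ A₂).filter (fun n : ℕ => (q : ℤ) ∣ n - c), (1 : ℝ) / n ≤
      1 / A₁ + ∑ n ∈ (Ioc A₁ A₂).filter (fun n : ℕ => (q : ℤ) ∣ n - c'), (1 : ℝ) / n := by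
  set T := (Ioc A₁ A₂).filter (fun n : ℕ => (q : ℤ) ∣ n - c) with hT
  set T' := (Ioc A₁ A₂).filter (fun n : ℕ => (q : ℤ) ∣ n - c') with hT'
  have hq0 : (0 : ℤ) < q := by exact_mod_cast (by omega : 0 < q)
  have hA0 : (0 : ℝ) < A₁ := by exact_mod_cast (by omega : 0 < A₁)
  have hr0 : 0 ≤ (c - c') % q := Int.emod_nonneg _ hq0.ne'
  have hr1 : (c - c') % q < q := Int.emod_lt_of_pos _ hq0
  obtain ⟨r, hr⟩ := Int.eq_ofNat_of_zero_le hr0
  have hrq : r < q := by
    rw [hr] at hr1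
    exact_mod_cast hr1
  have hrd : (q : ℤ) ∣ (c - c') - r := by
    have h1 : (c - c') - r = (c - c') - (c - c') % q := by rw [hr]
    rw [h1]
    exact Int.dvd_self_sub_emod
  rw [← Finset.sum_filter_add_sum_filter_not T (fun n => n < A₁ + q)]
  refine add_le_add ?_ ?_
  · have hcard : (T.filter (fun n => n < A₁ + q)).card ≤ 1 := by
      rw [Finset.card_le_one]
      intro x hx y hy
      rw [Finset.mem_filter, hT, Finset.mem_filter, Finset.mem_Ioc] at hx hy
      obtain ⟨⟨⟨hx1, _⟩, hx2⟩, hx3⟩ := hx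
      obtain ⟨⟨⟨hy1, _⟩, hy2⟩, hy3⟩ := hy
      have h1 : (q : ℤ) ∣ (x : ℤ) - y := by
        have := dvd_sub hx2 hy2
        have e : (x : ℤ) - c - (y - c) = x - y := by ring
        rwa [e] at this
      have h2 : |(x : ℤ) - y| < q := by
        rw [abs_lt]
        constructor <;> omega
      have h3 := Int.eq_zero_of_abs_lt_dvd h1 h2
      omega
    calc ∑ n ∈ T.filter (fun n => n < A₁ + q), (1 : ℝ) / n
        ≤ ∑ n ∈ T.filter (fun n => n < A₁ + q), (1 : ℝ) / A₁ := by
          refine Finset.sum_le_sum fun n hn => ?_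
          rw [Finset.mem_filter, hT, Finset.mem_filter, Finset.mem_Ioc] at hn
          have h1 : (A₁ : ℝ) ≤ n := by exact_mod_cast hn.1.1.1.le
          exact one_div_le_one_div_of_le hA0 h1
      _ = ((T.filter (fun n => n < A₁ + q)).card : ℝ) * (1 / A₁) := by
          rw [Finset.sum_const, nsmul_eq_mul]
      _ ≤ 1 * (1 / A₁) := by
          refine mul_le_mul_of_nonneg_right ?_ (by positivity)
          exact_mod_cast hcard
      _ = 1 / A₁ := one_mul _
  · calc ∑ n ∈ T.filter (fun n => ¬ n < A₁ + q), (1 : ℝ) / n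
        ≤ ∑ n ∈ T.filter (fun n => ¬ n < A₁ + q), (1 : ℝ) / ((n - r : ℕ) : ℝ) := by
          refine Finset.sum_le_sum fun n hn => ?_
          rw [Finset.mem_filter] at hn
          have h1 : A₁ + q ≤ n := by omega
          have h2 : (0 : ℝ) < ((n - r : ℕ) : ℝ) := by exact_mod_cast (by omega : 0 < n - r)
          refine one_div_le_one_div_of_le h2 ?_
          exact_mod_cast Nat.sub_le n r
      _ = ∑ m ∈ (T.filter (fun n => ¬ n < A₁ + q)).image (fun n => n - r), (1 : ℝ) / (m : ℝ) := by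
          rw [Finset.sum_image]
          intro x hx y hy hxy
          rw [Finset.mem_coe, Finset.mem_filter] at hx hy
          simp only at hxy
          omega
      _ ≤ ∑ n ∈ T', (1 : ℝ) / n := by
          refine Finset.sum_le_sum_of_subset_of_nonneg ?_ (fun _ _ _ => by positivity)
          intro m hm
          rw [Finset.mem_image] at hm
          obtain ⟨n, hn, rfl⟩ := hm
          rw [Finset.mem_filter, hT, Finset.mem_filter, Finset.mem_Ioc] at hn
          obtain ⟨⟨⟨_, hn2⟩, hn3⟩, hn4⟩ := hn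
          rw [hT', Finset.mem_filter, Finset.mem_Ioc]
          refine ⟨⟨by omega, by omega⟩, ?_⟩
          have e : (((n - r : ℕ) : ℤ)) - c' = (n - c) + ((c - c') - r) := by
            rw [Nat.cast_sub (by omega)]
            ring
          rw [e]
          exact dvd_add hn3 hrd

/-- the same for the classes `M ∣ α - a`, `d ∣ α` -/
theorem ec3_two (d M A₁ A₂ : ℕ) (hd : 1 ≤ d) (hM : 1 ≤ M) (hdM : Nat.Coprime d M) (hA : 1 ≤ A₁)
    (a a' : ℤ) :
    ∑ n ∈ (Ioc A₁ A₂).filter (fun n : ℕ => (M : ℤ) ∣ n - a), (if d ∣ n then (1 : ℝ) / n else 0) ≤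
      1 / A₁ + ∑ n ∈ (Ioc A₁ A₂).filter (fun n : ℕ => (M : ℤ) ∣ n - a'),
        (if d ∣ n then (1 : ℝ) / n else 0) := by
  obtain ⟨u, v, huv⟩ := Nat.isCoprime_iff_coprime.2 hdM
  have hco : IsCoprime (d : ℤ) (M : ℤ) := Nat.isCoprime_iff_coprime.2 hdM
  have key : ∀ b : ℤ, ∑ n ∈ (Ioc A₁ A₂).filter (fun n : ℕ => (M : ℤ) ∣ n - b),
      (if d ∣ n then (1 : ℝ) / n else 0) =
      ∑ n ∈ (Ioc A₁ A₂).filter (fun n : ℕ => ((d * M : ℕ) : ℤ) ∣ n - u * d * b), (1 : ℝ) / n := by
    intro b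
    rw [← Finset.sum_filter, Finset.filter_filter]
    refine Finset.sum_congr ?_ (fun _ _ => rfl)
    refine Finset.filter_congr fun n _ => ?_
    constructor
    · rintro ⟨h1, h2⟩
      push_cast
      refine hco.mul_dvd ?_ ?_
      · refine dvd_sub (by exact_mod_cast h2) ?_
        exact Dvd.intro (u * b) (by ring)
      · have e : (n : ℤ) - u * d * b = (n - b) + M * (v * b) := by
          have : u * d = 1 - v * M := by linarith
          rw [this]
          ring
        rw [e]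
        exact dvd_add h1 (Dvd.intro _ rfl)
    · intro h
      push_cast at h
      have h1 : (d : ℤ) ∣ n - u * d * b := (Dvd.intro _ rfl).trans h
      have h2 : (M : ℤ) ∣ n - u * d * b := (Dvd.intro_left _ rfl).trans h
      constructor
      · have e : (n : ℤ) - b = (n - u * d * b) - M * (v * b) := by
          have : u * d = 1 - v * M := by linarith
          rw [this]
          ring
        rw [e]
        exact dvd_sub h2 (Dvd.intro _ rfl)
      · have e : (n : ℤ) = (n - u * d * b) + d * (u * b) := by ring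
        have h3 : (d : ℤ) ∣ (n : ℤ) := by
          rw [e]
          exact dvd_add h1 (Dvd.intro _ rfl)
        exact_mod_cast h3
  rw [key a, key a']
  exact ec3_class (d * M) A₁ A₂ (Nat.mul_pos hd hM) hA _ _

theorem ec3_rho (M A₂ α : ℕ) (hα : 1 ≤ α) (h : α ≤ A₂) : rho α M / α =
    ∑ d ∈ (Icc 1 A₂).filter (fun d => Nat.Coprime d M),
      (ArithmeticFunction.moebius d : ℝ) / d * (if d ∣ α then (1 : ℝ) / α else 0) := by
  unfold rho
  rw [Finset.sum_div]
  have hs : α.divisors.filter (fun d => Nat.Coprime d M) =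
      ((Icc 1 A₂).filter (fun d => Nat.Coprime d M)).filter (fun d => d ∣ α) := by
    ext d
    simp only [Finset.mem_filter, Nat.mem_divisors, Finset.mem_Icc]
    constructor
    · rintro ⟨⟨h1, _⟩, h3⟩
      exact ⟨⟨⟨Nat.pos_of_dvd_of_pos h1 hα, (Nat.le_of_dvd hα h1).trans h⟩, h3⟩, h1⟩
    · rintro ⟨⟨_, h3⟩, h1⟩
      exact ⟨⟨h1, by omega⟩, h3⟩
  rw [hs, Finset.sum_filter]
  refine Finset.sum_congr rfl fun d _ => ?_
  split_ifs
  · rw [div_eq_mul_one_div]
  · rw [mul_zero]

theorem ec3_exchange (M A₁ A₂ : ℕ) (b : ℤ) :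
    ∑ α ∈ (Ioc A₁ A₂).filter (fun α : ℕ => (M : ℤ) ∣ α - b), rho α M / α =
      ∑ d ∈ (Icc 1 A₂).filter (fun d => Nat.Coprime d M), (ArithmeticFunction.moebius d : ℝ) / d *
        ∑ n ∈ (Ioc A₁ A₂).filter (fun n : ℕ => (M : ℤ) ∣ n - b),
          (if d ∣ n then (1 : ℝ) / n else 0) := by
  simp_rw [Finset.mul_sum]
  rw [Finset.sum_comm]
  refine Finset.sum_congr rfl fun α hα => ?_
  rw [Finset.mem_filter, Finset.mem_Ioc] at hα
  exact ec3_rho M A₂ α (by omega) hα.1.2

/-- EC3 -/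
theorem rho_class_pr (M A₁ A₂ : ℕ) (hM : 1 ≤ M) (hA : 1 ≤ A₁) (hA2 : A₁ ≤ A₂) (a a' : ℤ) :
    |∑ α ∈ (Ioc A₁ A₂).filter (fun α : ℕ => (M : ℤ) ∣ α - a), rho α M / α -
      ∑ α ∈ (Ioc A₁ A₂).filter (fun α : ℕ => (M : ℤ) ∣ α - a'), rho α M / α| ≤
      (1 + Real.log A₂) / A₁ := by
  have hA0 : (0 : ℝ) < A₁ := by exact_mod_cast (by omega : 0 < A₁)
  rw [ec3_exchange, ec3_exchange, ← Finset.sum_sub_distrib]
  calc |∑ d ∈ (Icc 1 A₂).filter (fun d => Nat.Coprime d M),
        ((ArithmeticFunction.moebius d : ℝ) / d *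
        ∑ n ∈ (Ioc A₁ A₂).filter (fun n : ℕ => (M : ℤ) ∣ n - a),
          (if d ∣ n then (1 : ℝ) / n else 0) - (ArithmeticFunction.moebius d : ℝ) / d *
        ∑ n ∈ (Ioc A₁ A₂).filter (fun n : ℕ => (M : ℤ) ∣ n - a'),
          (if d ∣ n then (1 : ℝ) / n else 0))|
      ≤ ∑ d ∈ (Icc 1 A₂).filter (fun d => Nat.Coprime d M), (1 : ℝ) / d * (1 / A₁) := by
        refine (Finset.abs_sum_le_sum_abs _ _).trans ?_
        refine Finset.sum_le_sum fun d hd => ?_
        rw [Finset.mem_filter, Finset.mem_Icc] at hd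
        rw [← mul_sub, abs_mul]
        have hd0 : (0 : ℝ) < d := by exact_mod_cast (by omega : 0 < d)
        refine mul_le_mul ?_ ?_ (abs_nonneg _) (by positivity)
        · rw [abs_div, abs_of_pos hd0]
          refine div_le_div_of_nonneg_right ?_ hd0.le
          have := ArithmeticFunction.abs_moebius_le_one (n := d)
          exact_mod_cast this
        · have h1 := ec3_two d M A₁ A₂ hd.1.1 hM hd.2 hA a a'
          have h2 := ec3_two d M A₁ A₂ hd.1.1 hM hd.2 hA a' a
          rw [abs_le]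
          constructor <;> linarith
    _ ≤ ∑ d ∈ Icc 1 A₂, (1 : ℝ) / d * (1 / A₁) := by
        refine Finset.sum_le_sum_of_subset_of_nonneg (Finset.filter_subset _ _) ?_
        intro _ _ _
        positivity
    _ = (∑ d ∈ Icc 1 A₂, (1 : ℝ) / d) * (1 / A₁) := by rw [Finset.sum_mul]
    _ ≤ (1 + Real.log A₂) * (1 / A₁) := by
        refine mul_le_mul_of_nonneg_right ?_ (by positivity)
        have h := harmonic_le_one_add_log A₂
        rw [harmonic_eq_sum_Icc] at h
        push_cast at h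
        simpa [one_div] using h
    _ = (1 + Real.log A₂) / A₁ := by rw [mul_one_div]

theorem rho_class : type_of% @rho_class_pr := @rho_class_pr

end Pool.Agent.PENT.EQ
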