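import Pool.Agent.Lib_helper39.PEQ.Defs
import Pool.Agent.Lib_helper39.PEQF.EC1
import Pool.Agent.Lib_helper39.PEQF.EC2
import Pool.Agent.Lib_helper39.PEQF.EC3
import Pool.Agent.Lib_helper39.PEQF.EC4

/-! block ED1 of PEQ, proved by helper36 -/

set_option autoImplicit false

namespace Pool.Agent.PENT.EQ

open Finset

theorem ed1_kl (M A₂ α : ℕ) (hM : 1 ≤ M) (hα : α ≤ A₂) (T : ℝ) (hT1 : 1 ≤ T)
    (hT : ((α * M).divisors.card : ℝ) ≤ T) :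
    klB (α * M) M ≤ 2 * ((A₂ : ℝ) * M) ^ (3 / 4 : ℝ) * M * T := by
  have hM' : (1 : ℝ) ≤ M := by exact_mod_cast hM
  have hα' : (α : ℝ) ≤ A₂ := by exact_mod_cast hα
  have h0 : (0 : ℝ) ≤ α := Nat.cast_nonneg _
  have hA0 : (0 : ℝ) ≤ A₂ := Nat.cast_nonneg _
  have hd0 : (0 : ℝ) ≤ ((α * M).divisors.card : ℝ) := Nat.cast_nonneg _
  have h1 : klB (α * M) M ≤ (((A₂ : ℝ) * M) ^ 3 * (2 * M * T) ^ 4) ^ (1 / 4 : ℝ) := by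
    unfold klB
    refine Real.rpow_le_rpow (by positivity) ?_ (by norm_num)
    have e1 : (((α * M : ℕ) : ℝ)) ^ 3 ≤ ((A₂ : ℝ) * M) ^ 3 := by
      push_cast
      gcongr
    have e2 : ((α * M).divisors.card : ℝ) ^ 3 ≤ T ^ 3 := by gcongr
    have e3 : (2 : ℝ) * M * T ^ 3 ≤ (2 * M * T) ^ 4 := by
      have t1 : (M : ℝ) ≤ M ^ 4 := by
        nlinarith [pow_le_pow_right₀ hM' (show 1 ≤ 4 by norm_num)]
      have t2 : T ^ 3 ≤ T ^ 4 := pow_le_pow_right₀ hT1 (by norm_num)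
      have t3 : (0 : ℝ) ≤ T ^ 3 := by positivity
      calc (2 : ℝ) * M * T ^ 3 ≤ 2 * M ^ 4 * T ^ 4 := by gcongr
        _ ≤ 16 * M ^ 4 * T ^ 4 := by gcongr; norm_num
        _ = (2 * M * T) ^ 4 := by ring
    calc 2 * (((α * M : ℕ) : ℝ)) ^ 3 * (M : ℝ) * ((α * M).divisors.card : ℝ) ^ 3
        ≤ 2 * ((A₂ : ℝ) * M) ^ 3 * M * T ^ 3 := by gcongr
      _ = ((A₂ : ℝ) * M) ^ 3 * (2 * M * T ^ 3) := by ring
      _ ≤ ((A₂ : ℝ) * M) ^ 3 * (2 * M * T) ^ 4 := by gcongr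
  have h2 : (((A₂ : ℝ) * M) ^ 3 * (2 * M * T) ^ 4) ^ (1 / 4 : ℝ) =
      2 * ((A₂ : ℝ) * M) ^ (3 / 4 : ℝ) * M * T := by
    rw [Real.mul_rpow (by positivity) (by positivity), ← Real.rpow_natCast ((A₂ : ℝ) * M) 3,
      ← Real.rpow_mul (by positivity), ← Real.rpow_natCast (2 * (M : ℝ) * T) 4,
      ← Real.rpow_mul (by positivity)]
    have t1 : ((3 : ℕ) : ℝ) * (1 / 4) = 3 / 4 := by norm_num
    have t2 : ((4 : ℕ) : ℝ) * (1 / 4) = 1 := by norm_num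
    rw [t1, t2, Real.rpow_one]
    ring
  exact h1.trans_eq h2

theorem ed1_row (M A₁ A₂ α : ℕ) (hM : 1 ≤ M) (hA : 1 ≤ A₁) (h1 : A₁ < α) (h2 : α ≤ A₂)
    (B₁ B₂ C₁ C₂ : ℤ) (hB : B₁ ≤ B₂) (hC : C₁ ≤ C₂) (T : ℝ) (hT1 : 1 ≤ T)
    (hT : ((α * M).divisors.card : ℝ) ≤ T) (α₀ β₀ γ₀ δ₀ : ℤ)
    (h0 : (M : ℤ) ∣ α₀ * δ₀ - β₀ * γ₀ - 1) (hα : (M : ℤ) ∣ α - α₀) :
    |((Nrow α M β₀ γ₀ δ₀ B₁ B₂ C₁ C₂).card : ℝ) -
      ((B₂ : ℝ) - B₁) * ((C₂ : ℝ) - C₁) / (M : ℝ) ^ 2 * (rho α M / α)| ≤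
      2 * ((A₂ : ℝ) * M) ^ (3 / 4 : ℝ) * M * T *
        (2 * ((C₂ : ℝ) - C₁) / A₁ + 1 + Real.log (A₂ * M)) * (T * (1 + Real.log (A₂ * M))) +
      ((B₂ : ℝ) - B₁) * T * (α : ℝ)⁻¹ := by
  have hM' : (1 : ℝ) ≤ M := by exact_mod_cast hM
  have hM0 : (0 : ℝ) < M := by linarith
  have hα1 : 1 ≤ α := by omega
  have hα0 : (0 : ℝ) < α := by exact_mod_cast hα1
  have hA1 : (0 : ℝ) < A₁ := by exact_mod_cast hA
  have hαA : (A₁ : ℝ) ≤ α := by exact_mod_cast h1.le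
  have hαA2 : (α : ℝ) ≤ A₂ := by exact_mod_cast h2
  have hB' : (0 : ℝ) ≤ (B₂ : ℝ) - B₁ := by
    have : (B₁ : ℝ) ≤ B₂ := by exact_mod_cast hB
    linarith
  have hC' : (0 : ℝ) ≤ (C₂ : ℝ) - C₁ := by
    have : (C₁ : ℝ) ≤ C₂ := by exact_mod_cast hC
    linarith
  have hd : (α.divisors.card : ℝ) ≤ T := by
    refine le_trans ?_ hT
    have : α.divisors.card ≤ (α * M).divisors.card :=
      card_le_card (Nat.divisors_subset_of_dvd (by positivity) (Dvd.intro _ rfl))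
    exact_mod_cast this
  have hlog1 : 0 ≤ Real.log ((α : ℝ) * M) := by
    refine Real.log_nonneg ?_
    have : (1 : ℝ) ≤ α := by exact_mod_cast hα1
    nlinarith
  have hlog : Real.log ((α : ℝ) * M) ≤ Real.log (A₂ * M) :=
    Real.log_le_log (by positivity) (by gcongr)
  have r1 := row_count α M hα1 hM α₀ β₀ γ₀ δ₀ B₁ B₂ C₁ C₂ h0 hα hB hC
  have r2 := grow_count α M hα1 hM γ₀ C₁ C₂ hC (by
    intro p hp hpM hpα hpg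
    have hpM' : (p : ℤ) ∣ M := Int.natCast_dvd_natCast.2 hpM
    have hp0 : (p : ℤ) ∣ α₀ := by
      have h3 := dvd_sub (Int.natCast_dvd_natCast.2 hpα : (p : ℤ) ∣ (α : ℤ)) (hpM'.trans hα)
      simpa using h3
    have h4 : (p : ℤ) ∣ 1 := by
      have h3 := dvd_sub (dvd_sub (Dvd.dvd.mul_right hp0 δ₀) (Dvd.dvd.mul_left hpg β₀))
        (hpM'.trans h0)
      simpa using h3
    exact hp.one_lt.ne' (by exact_mod_cast Int.eq_one_of_dvd_one (by positivity) h4))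
  have kl := ed1_kl M A₂ α hM h2 T hT1 hT
  have kl0 : 0 ≤ klB (α * M) M := by
    unfold klB
    positivity
  have b1 : klB (α * M) M * (2 * ((C₂ : ℝ) - C₁) / α + 1 + Real.log (α * M)) *
        (α.divisors.card * (1 + Real.log (α * M))) ≤
      2 * ((A₂ : ℝ) * M) ^ (3 / 4 : ℝ) * M * T *
        (2 * ((C₂ : ℝ) - C₁) / A₁ + 1 + Real.log (A₂ * M)) * (T * (1 + Real.log (A₂ * M))) := by
    have : 2 * ((C₂ : ℝ) - C₁) / α ≤ 2 * ((C₂ : ℝ) - C₁) / A₁ := by gcongr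
    have t0 : 0 ≤ 2 * ((C₂ : ℝ) - C₁) / α := by positivity
    have t1 : 0 ≤ 2 * ((C₂ : ℝ) - C₁) / A₁ := by positivity
    have t2 : 0 ≤ Real.log ((A₂ : ℝ) * M) := hlog1.trans hlog
    have t3 : 0 ≤ 2 * ((A₂ : ℝ) * M) ^ (3 / 4 : ℝ) * M * T *
        (2 * ((C₂ : ℝ) - C₁) / A₁ + 1 + Real.log (A₂ * M)) := by positivity
    gcongr
  have b2 : ((B₂ : ℝ) - B₁) / ((α : ℝ) * M) *
      |((Grow α M γ₀ C₁ C₂).card : ℝ) - ((C₂ : ℝ) - C₁) / M * rho α M| ≤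
      ((B₂ : ℝ) - B₁) * T * (α : ℝ)⁻¹ := by
    calc ((B₂ : ℝ) - B₁) / ((α : ℝ) * M) *
        |((Grow α M γ₀ C₁ C₂).card : ℝ) - ((C₂ : ℝ) - C₁) / M * rho α M|
        ≤ ((B₂ : ℝ) - B₁) / ((α : ℝ) * 1) * T := by
          have := r2.trans hd
          gcongr
      _ = ((B₂ : ℝ) - B₁) * T * (α : ℝ)⁻¹ := by
          rw [mul_one, div_eq_mul_inv]
          ring
  have e : ((Nrow α M β₀ γ₀ δ₀ B₁ B₂ C₁ C₂).card : ℝ) -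
      ((B₂ : ℝ) - B₁) * ((C₂ : ℝ) - C₁) / (M : ℝ) ^ 2 * (rho α M / α) =
      (((Nrow α M β₀ γ₀ δ₀ B₁ B₂ C₁ C₂).card : ℝ) -
        ((B₂ : ℝ) - B₁) / ((α : ℝ) * M) * (Grow α M γ₀ C₁ C₂).card) +
      ((B₂ : ℝ) - B₁) / ((α : ℝ) * M) *
        (((Grow α M γ₀ C₁ C₂).card : ℝ) - ((C₂ : ℝ) - C₁) / M * rho α M) := by
    field_simp
    ring
  rw [e]
  refine (abs_add_le _ _).trans ?_
  rw [abs_mul, abs_of_nonneg (by positivity : (0 : ℝ) ≤ ((B₂ : ℝ) - B₁) / ((α : ℝ) * M))]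
  linarith

theorem ed1_harm (A₁ A₂ : ℕ) (P : ℕ → Prop) [DecidablePred P] :
    ∑ α ∈ (Ioc A₁ A₂).filter P, (α : ℝ)⁻¹ ≤ 1 + Real.log A₂ := by
  have h1 : ∑ α ∈ (Ioc A₁ A₂).filter P, (α : ℝ)⁻¹ ≤ ∑ α ∈ Icc 1 A₂, (α : ℝ)⁻¹ := by
    refine sum_le_sum_of_subset_of_nonneg ?_ (fun _ _ _ => by positivity)
    intro α hα
    rw [mem_filter, mem_Ioc] at hα
    rw [mem_Icc]
    omega
  refine h1.trans ?_
  have h2 := harmonic_le_one_add_log A₂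
  rw [harmonic_eq_sum_Icc] at h2
  push_cast at h2
  exact h2

theorem ed1_one (M : ℕ) [NeZero M] (A₁ A₂ : ℕ) (hA : 1 ≤ A₁) (hA2 : A₁ ≤ A₂)
    (B₁ B₂ C₁ C₂ : ℤ) (hB : B₁ ≤ B₂) (hC : C₁ ≤ C₂) (T : ℝ) (hT1 : 1 ≤ T)
    (hT : ∀ α ∈ Ioc A₁ A₂, ((α * M).divisors.card : ℝ) ≤ T)
    (g : ZMod M × ZMod M × ZMod M × ZMod M) (hg : g ∈ SLM M) :
    |((Cls M A₁ A₂ B₁ B₂ C₁ C₂ g).card : ℝ) -
      ((B₂ : ℝ) - B₁) * ((C₂ : ℝ) - C₁) / (M : ℝ) ^ 2 *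
        ∑ α ∈ (Ioc A₁ A₂).filter (fun α : ℕ => (M : ℤ) ∣ α - (lft g).1), rho α M / α| ≤
      A₂ * (2 * ((A₂ : ℝ) * M) ^ (3 / 4 : ℝ) * M * T *
        (2 * ((C₂ : ℝ) - C₁) / A₁ + 1 + Real.log (A₂ * M)) * (T * (1 + Real.log (A₂ * M)))) +
      ((B₂ : ℝ) - B₁) * T * (1 + Real.log A₂) := by
  have hM : 1 ≤ M := NeZero.one_le
  have hM' : (1 : ℝ) ≤ M := by exact_mod_cast hM
  have hA1 : (0 : ℝ) < A₁ := by exact_mod_cast hA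
  have hA2' : (1 : ℝ) ≤ A₂ := by exact_mod_cast hA.trans hA2
  have hB' : (0 : ℝ) ≤ (B₂ : ℝ) - B₁ := by
    have : (B₁ : ℝ) ≤ B₂ := by exact_mod_cast hB
    linarith
  have hC' : (0 : ℝ) ≤ (C₂ : ℝ) - C₁ := by
    have : (C₁ : ℝ) ≤ C₂ := by exact_mod_cast hC
    linarith
  have hlog : 0 ≤ Real.log ((A₂ : ℝ) * M) := Real.log_nonneg (by nlinarith)
  have h0 : (M : ℤ) ∣ (lft g).1 * (lft g).2.2.2 - (lft g).2.1 * (lft g).2.2.1 - 1 := by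
    simp only [SLM, mem_filter, mem_univ, true_and] at hg
    rw [← ZMod.intCast_zmod_eq_zero_iff_dvd]
    simp only [lft]
    push_cast
    simp only [ZMod.natCast_val, ZMod.cast_id', id_eq]
    rw [hg]
    ring
  rw [cls_rows, mul_sum, ← sum_sub_distrib]
  refine (abs_sum_le_sum_abs _ _).trans ?_
  refine (sum_le_sum (g := fun α : ℕ => (2 * ((A₂ : ℝ) * M) ^ (3 / 4 : ℝ) * M * T *
        (2 * ((C₂ : ℝ) - C₁) / A₁ + 1 + Real.log (A₂ * M)) * (T * (1 + Real.log (A₂ * M)))) +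
      ((B₂ : ℝ) - B₁) * T * (α : ℝ)⁻¹) ?_).trans ?_
  · intro α hα
    rw [mem_filter] at hα
    have hα1 := mem_Ioc.1 hα.1
    exact ed1_row M A₁ A₂ α hM hA hα1.1 hα1.2 B₁ B₂ C₁ C₂ hB hC T hT1 (hT α hα.1) _ _ _ _ h0 hα.2
  · rw [sum_add_distrib, sum_const, nsmul_eq_mul, ← mul_sum]
    have c1 : (((Ioc A₁ A₂).filter (fun α : ℕ => (M : ℤ) ∣ α - (lft g).1)).card : ℝ) ≤ A₂ := by
      have : ((Ioc A₁ A₂).filter (fun α : ℕ => (M : ℤ) ∣ α - (lft g).1)).card ≤ A₂ := by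
        refine (card_filter_le _ _).trans ?_
        rw [Nat.card_Ioc]
        omega
      exact_mod_cast this
    have c2 := ed1_harm A₁ A₂ (fun α : ℕ => (M : ℤ) ∣ α - (lft g).1)
    have c3 : 0 ≤ (2 * ((A₂ : ℝ) * M) ^ (3 / 4 : ℝ) * M * T *
        (2 * ((C₂ : ℝ) - C₁) / A₁ + 1 + Real.log (A₂ * M)) * (T * (1 + Real.log (A₂ * M)))) := by
      positivity
    exact add_le_add (mul_le_mul_of_nonneg_right c1 c3)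
      (mul_le_mul_of_nonneg_left c2 (by positivity))

/-- ED1: two classes (uses EC1-EC4) -/
theorem two_classes_pr (M : ℕ) [NeZero M] (A₁ A₂ : ℕ) (hA : 1 ≤ A₁) (hA2 : A₁ ≤ A₂)
    (B₁ B₂ C₁ C₂ : ℤ) (hB : B₁ ≤ B₂) (hC : C₁ ≤ C₂) (T : ℝ) (hT1 : 1 ≤ T)
    (hT : ∀ α ∈ Ioc A₁ A₂, ((α * M).divisors.card : ℝ) ≤ T)
    (g g' : ZMod M × ZMod M × ZMod M × ZMod M) (hg : g ∈ SLM M) (hg' : g' ∈ SLM M) :
    |((Cls M A₁ A₂ B₁ B₂ C₁ C₂ g).card : ℝ) - (Cls M A₁ A₂ B₁ B₂ C₁ C₂ g').card| ≤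
      4 * (A₂ : ℝ) * ((A₂ : ℝ) * M) ^ (3 / 4 : ℝ) * M * T ^ 2 *
        (2 * ((C₂ : ℝ) - C₁) / A₁ + 1 + Real.log (A₂ * M)) * (1 + Real.log (A₂ * M)) +
      2 * ((B₂ : ℝ) - B₁) * T * (1 + Real.log A₂) +
      ((B₂ : ℝ) - B₁) * ((C₂ : ℝ) - C₁) * (1 + Real.log A₂) / A₁ := by
  have hM : 1 ≤ M := NeZero.one_le
  have hM' : (1 : ℝ) ≤ M := by exact_mod_cast hM
  have hA1 : (0 : ℝ) < A₁ := by exact_mod_cast hA
  have hA2' : (1 : ℝ) ≤ A₂ := by exact_mod_cast hA.trans hA2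
  have hB' : (0 : ℝ) ≤ (B₂ : ℝ) - B₁ := by
    have : (B₁ : ℝ) ≤ B₂ := by exact_mod_cast hB
    linarith
  have hC' : (0 : ℝ) ≤ (C₂ : ℝ) - C₁ := by
    have : (C₁ : ℝ) ≤ C₂ := by exact_mod_cast hC
    linarith
  have hl2 : 0 ≤ Real.log (A₂ : ℝ) := Real.log_nonneg hA2'
  have o1 := ed1_one M A₁ A₂ hA hA2 B₁ B₂ C₁ C₂ hB hC T hT1 hT g hg
  have o2 := ed1_one M A₁ A₂ hA hA2 B₁ B₂ C₁ C₂ hB hC T hT1 hT g' hg'
  have o3 := rho_class M A₁ A₂ hM hA hA2 (lft g).1 (lft g').1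
  set S := ∑ α ∈ (Ioc A₁ A₂).filter (fun α : ℕ => (M : ℤ) ∣ α - (lft g).1), rho α M / α
  set S' := ∑ α ∈ (Ioc A₁ A₂).filter (fun α : ℕ => (M : ℤ) ∣ α - (lft g').1), rho α M / α
  have o4 : |((B₂ : ℝ) - B₁) * ((C₂ : ℝ) - C₁) / (M : ℝ) ^ 2 * S -
      ((B₂ : ℝ) - B₁) * ((C₂ : ℝ) - C₁) / (M : ℝ) ^ 2 * S'| ≤
      ((B₂ : ℝ) - B₁) * ((C₂ : ℝ) - C₁) * (1 + Real.log A₂) / A₁ := by
    rw [← mul_sub, abs_mul, abs_of_nonneg (by positivity)]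
    calc ((B₂ : ℝ) - B₁) * ((C₂ : ℝ) - C₁) / (M : ℝ) ^ 2 * |S - S'|
        ≤ ((B₂ : ℝ) - B₁) * ((C₂ : ℝ) - C₁) / 1 * ((1 + Real.log A₂) / A₁) := by
          have : (1 : ℝ) ≤ (M : ℝ) ^ 2 := one_le_pow₀ hM'
          gcongr
      _ = ((B₂ : ℝ) - B₁) * ((C₂ : ℝ) - C₁) * (1 + Real.log A₂) / A₁ := by ring
  have hfin : 4 * (A₂ : ℝ) * ((A₂ : ℝ) * M) ^ (3 / 4 : ℝ) * M * T ^ 2 *
        (2 * ((C₂ : ℝ) - C₁) / A₁ + 1 + Real.log (A₂ * M)) * (1 + Real.log (A₂ * M)) +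
      2 * ((B₂ : ℝ) - B₁) * T * (1 + Real.log A₂) =
      2 * (A₂ * (2 * ((A₂ : ℝ) * M) ^ (3 / 4 : ℝ) * M * T *
        (2 * ((C₂ : ℝ) - C₁) / A₁ + 1 + Real.log (A₂ * M)) * (T * (1 + Real.log (A₂ * M)))) +
      ((B₂ : ℝ) - B₁) * T * (1 + Real.log A₂)) := by ring
  rw [hfin]
  rw [abs_le] at o1 o2 o4 ⊢
  constructor <;> linarith [o1.1, o1.2, o2.1, o2.2, o4.1, o4.2]

theorem two_classes : type_of% @two_classes_pr := @two_classes_pr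

end Pool.Agent.PENT.EQ
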