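import Pool.Agent.Lib_helper39.PEQ.Defs
import Pool.Agent.Lib_helper61.FG.DivB
import Pool.Agent.Lib_helper39.PEQF.ED1

/-! block ED2 of PEQ, proved by helper30 -/
set_option autoImplicit false

namespace Pool.Agent.PENT.EQ

open Finset

theorem ed2_pow (X : ℝ) (hX : 0 ≤ X) (k : ℕ) (a : ℝ) (ha : a = k / 1000) :
    X ^ a = (X ^ (1 / 1000 : ℝ)) ^ k := by
  rw [← Real.rpow_natCast, ← Real.rpow_mul hX]
  congr 1
  rw [ha]
  ring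

/-- ED2 -/
theorem eq_class_pr : ∃ c X₀ : ℝ, 0 < c ∧ c ≤ 1 / 100 ∧ 2 ≤ X₀ ∧ ∀ X : ℝ, X₀ ≤ X → ∀ M : ℕ,
    ∀ _ : NeZero M, (M : ℝ) ≤ X ^ c → ∀ (A₁ A₂ : ℕ) (B₁ B₂ C₁ C₂ : ℤ),
    X ^ (1 / 2 - c) ≤ A₁ → A₁ ≤ A₂ → (A₂ : ℝ) ≤ X ^ (1 / 2 + c) → B₁ ≤ B₂ →
    (B₂ : ℝ) - B₁ ≤ X ^ (1 / 2 + c) → C₁ ≤ C₂ → (C₂ : ℝ) - C₁ ≤ X ^ (1 / 2 + c) →
    ∀ g ∈ SLM M, ∀ g' ∈ SLM M,
      |((Cls M A₁ A₂ B₁ B₂ C₁ C₂ g).card : ℝ) - (Cls M A₁ A₂ B₁ B₂ C₁ C₂ g').card| ≤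
        X ^ (1 - c) := by
  obtain ⟨C, hC0, hC⟩ := Pool.Agent.FG61.divisor_bound (ε := 1 / 1000) (by norm_num)
  have hlog : ∀ᶠ X : ℝ in Filter.atTop, Real.log X ≤ 1 / 2 * X ^ (1 / 1000 : ℝ) := by
    have h := (isLittleO_log_rpow_atTop (r := (1 / 1000 : ℝ)) (by norm_num)).bound
      (c := 1 / 2) (by norm_num)
    filter_upwards [h, Filter.eventually_ge_atTop (1 : ℝ)] with X hX h1
    rw [Real.norm_of_nonneg (Real.log_nonneg h1),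
      Real.norm_of_nonneg (Real.rpow_nonneg (by linarith) _)] at hX
    exact hX
  have hbig : ∀ᶠ X : ℝ in Filter.atTop, max C 4 ≤ X ^ (1 / 1000 : ℝ) :=
    (tendsto_rpow_atTop (by norm_num)).eventually_ge_atTop _
  obtain ⟨X₁, hX₁⟩ := Filter.eventually_atTop.mp (hlog.and hbig)
  refine ⟨1 / 1000, max X₁ 2, by norm_num, by norm_num, le_max_right _ _, ?_⟩
  intro X hX M hM0 hM A₁ A₂ B₁ B₂ C₁ C₂ hA₁ hA₂ hA₂' hB hB' hC₁ hC₁' g hg g' hg'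
  have hX2 : (2 : ℝ) ≤ X := (le_max_right _ _).trans hX
  have hX0 : (0 : ℝ) ≤ X := by linarith
  obtain ⟨hL, hbig'⟩ := hX₁ X ((le_max_left _ _).trans hX)
  set Y : ℝ := X ^ (1 / 1000 : ℝ) with hY
  have hYC : C ≤ Y := (le_max_left _ _).trans hbig'
  have hY4 : (4 : ℝ) ≤ Y := (le_max_right _ _).trans hbig'
  have hY0 : (0 : ℝ) < Y := by linarith
  have hY1 : (1 : ℝ) ≤ Y := by linarith
  have hlogY : 1 + Real.log X ≤ Y := by linarith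
  rw [ed2_pow X hX0 499 (1 / 2 - 1 / 1000) (by norm_num)] at hA₁
  rw [ed2_pow X hX0 501 (1 / 2 + 1 / 1000) (by norm_num)] at hA₂' hB' hC₁'
  rw [ed2_pow X hX0 999 (1 - 1 / 1000) (by norm_num)]
  have hXY : X = Y ^ 1000 := by
    rw [← ed2_pow X hX0 1000 1 (by norm_num), Real.rpow_one]
  rw [← hY] at hA₁ hA₂' hB' hC₁' ⊢
  have hA1 : 1 ≤ A₁ := by
    have : (1 : ℝ) ≤ A₁ := (one_le_pow₀ hY1).trans hA₁
    exact_mod_cast this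
  have hM1 : (1 : ℝ) ≤ M := by
    have : 1 ≤ M := Nat.one_le_iff_ne_zero.mpr (NeZero.ne M)
    exact_mod_cast this
  have hA2r : (1 : ℝ) ≤ A₂ := by
    have : 1 ≤ A₂ := hA1.trans hA₂
    exact_mod_cast this
  have hA2M : (A₂ : ℝ) * M ≤ Y ^ 502 := by
    calc (A₂ : ℝ) * M ≤ Y ^ 501 * Y := mul_le_mul hA₂' hM (by positivity) (by positivity)
      _ = Y ^ 502 := by ring
  have hlogAM : 1 + Real.log (A₂ * M) ≤ Y := by
    have h1 : Real.log (A₂ * M) ≤ Real.log X := by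
      refine Real.log_le_log (by positivity) (hA2M.trans ?_)
      rw [hXY]
      exact pow_le_pow_right₀ hY1 (by norm_num)
    linarith
  have hlogA : 1 + Real.log A₂ ≤ Y := by
    have h1 : Real.log A₂ ≤ Real.log X := by
      refine Real.log_le_log (by positivity) (hA₂'.trans ?_)
      rw [hXY]
      exact pow_le_pow_right₀ hY1 (by norm_num)
    linarith
  have hlogAM0 : 0 ≤ 1 + Real.log (A₂ * M) := by
    have : 0 ≤ Real.log ((A₂ : ℝ) * M) := Real.log_nonneg (by nlinarith)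
    linarith
  have hlogA0 : 0 ≤ 1 + Real.log A₂ := by
    have : 0 ≤ Real.log (A₂ : ℝ) := Real.log_nonneg hA2r
    linarith
  have hT : ∀ α ∈ Ioc A₁ A₂, ((α * M).divisors.card : ℝ) ≤ Y ^ 2 := by
    intro α hα
    rw [Finset.mem_Ioc] at hα
    have hαM : 0 < α * M := Nat.mul_pos (by omega) (Nat.pos_of_ne_zero (NeZero.ne M))
    refine (hC (α * M) hαM).trans ?_
    have h1 : ((α * M : ℕ) : ℝ) ≤ X := by
      push_cast
      have h2 : (α : ℝ) ≤ A₂ := by exact_mod_cast hα.2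
      calc (α : ℝ) * M ≤ A₂ * M := mul_le_mul_of_nonneg_right h2 (by positivity)
        _ ≤ Y ^ 502 := hA2M
        _ ≤ Y ^ 1000 := pow_le_pow_right₀ hY1 (by norm_num)
        _ = X := hXY.symm
    calc C * ((α * M : ℕ) : ℝ) ^ (1 / 1000 : ℝ) ≤ Y * Y := by
          refine mul_le_mul hYC ?_ (by positivity) hY0.le
          exact Real.rpow_le_rpow (by positivity) h1 (by norm_num)
      _ = Y ^ 2 := by ring
  have hmain := two_classes M A₁ A₂ hA1 hA₂ B₁ B₂ C₁ C₂ hB hC₁ (Y ^ 2) (one_le_pow₀ hY1) hT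
    g g' hg hg'
  refine hmain.trans ?_
  have hB0 : (0 : ℝ) ≤ (B₂ : ℝ) - B₁ := by
    have : (B₁ : ℝ) ≤ B₂ := by exact_mod_cast hB
    linarith
  have hCC0 : (0 : ℝ) ≤ (C₂ : ℝ) - C₁ := by
    have : (C₁ : ℝ) ≤ C₂ := by exact_mod_cast hC₁
    linarith
  have hA₁0 : (0 : ℝ) < A₁ := by exact_mod_cast hA1
  have h34 : ((A₂ : ℝ) * M) ^ (3 / 4 : ℝ) ≤ Y ^ 378 := by
    calc ((A₂ : ℝ) * M) ^ (3 / 4 : ℝ) ≤ (Y ^ 504) ^ (3 / 4 : ℝ) := by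
          refine Real.rpow_le_rpow (by positivity) (hA2M.trans ?_) (by norm_num)
          exact pow_le_pow_right₀ hY1 (by norm_num)
      _ = Y ^ 378 := by
          rw [← Real.rpow_natCast, ← Real.rpow_mul hY0.le, ← Real.rpow_natCast]
          norm_num
  have hCA : ((C₂ : ℝ) - C₁) / A₁ ≤ Y ^ 2 := by
    rw [div_le_iff₀ hA₁0]
    calc (C₂ : ℝ) - C₁ ≤ Y ^ 501 := hC₁'
      _ = Y ^ 2 * Y ^ 499 := by rw [← pow_add]
      _ ≤ Y ^ 2 * A₁ := mul_le_mul_of_nonneg_left hA₁ (by positivity)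
  have hparen : 2 * ((C₂ : ℝ) - C₁) / A₁ + 1 + Real.log (A₂ * M) ≤ Y ^ 3 := by
    have h1 : 2 * ((C₂ : ℝ) - C₁) / A₁ = 2 * (((C₂ : ℝ) - C₁) / A₁) := by ring
    rw [h1]
    have h2 : Y ≤ Y ^ 2 := by nlinarith
    have h3 : 3 * Y ^ 2 ≤ Y ^ 3 := by
      have : Y ^ 3 = Y * Y ^ 2 := by ring
      rw [this]
      exact mul_le_mul_of_nonneg_right (by linarith) (by positivity)
    linarith
  have hparen0 : 0 ≤ 2 * ((C₂ : ℝ) - C₁) / A₁ + 1 + Real.log (A₂ * M) := by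
    have : 0 ≤ 2 * ((C₂ : ℝ) - C₁) / A₁ := by positivity
    linarith
  have t1 : 4 * (A₂ : ℝ) * ((A₂ : ℝ) * M) ^ (3 / 4 : ℝ) * M * (Y ^ 2) ^ 2 *
        (2 * ((C₂ : ℝ) - C₁) / A₁ + 1 + Real.log (A₂ * M)) * (1 + Real.log (A₂ * M)) ≤
      Y ^ 890 := by
    calc 4 * (A₂ : ℝ) * ((A₂ : ℝ) * M) ^ (3 / 4 : ℝ) * M * (Y ^ 2) ^ 2 *
        (2 * ((C₂ : ℝ) - C₁) / A₁ + 1 + Real.log (A₂ * M)) * (1 + Real.log (A₂ * M))
        ≤ Y * Y ^ 501 * Y ^ 378 * Y * (Y ^ 2) ^ 2 * Y ^ 3 * Y := by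
          gcongr
      _ = Y ^ 889 := by ring
      _ ≤ Y ^ 890 := pow_le_pow_right₀ hY1 (by norm_num)
  have t2 : 2 * ((B₂ : ℝ) - B₁) * Y ^ 2 * (1 + Real.log A₂) ≤ Y ^ 890 := by
    calc 2 * ((B₂ : ℝ) - B₁) * Y ^ 2 * (1 + Real.log A₂) ≤ Y * Y ^ 501 * Y ^ 2 * Y := by
          gcongr
          linarith
      _ = Y ^ 505 := by ring
      _ ≤ Y ^ 890 := pow_le_pow_right₀ hY1 (by norm_num)
  have t3 : ((B₂ : ℝ) - B₁) * ((C₂ : ℝ) - C₁) * (1 + Real.log A₂) / A₁ ≤ Y ^ 890 := by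
    rw [div_le_iff₀ hA₁0]
    calc ((B₂ : ℝ) - B₁) * ((C₂ : ℝ) - C₁) * (1 + Real.log A₂) ≤ Y ^ 501 * Y ^ 501 * Y := by
          gcongr
      _ = Y ^ 1003 := by ring
      _ ≤ Y ^ 890 * Y ^ 499 := by
          rw [← pow_add]
          exact pow_le_pow_right₀ hY1 (by norm_num)
      _ ≤ Y ^ 890 * A₁ := mul_le_mul_of_nonneg_left hA₁ (by positivity)
  have t4 : 3 * Y ^ 890 ≤ Y ^ 999 := by
    calc 3 * Y ^ 890 ≤ Y * Y ^ 890 := mul_le_mul_of_nonneg_right (by linarith) (by positivity)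
      _ = Y ^ 891 := by ring
      _ ≤ Y ^ 999 := pow_le_pow_right₀ hY1 (by norm_num)
  linarith

theorem eq_class : type_of% @eq_class_pr := @eq_class_pr

end Pool.Agent.PENT.EQ
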