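import Pool.Agent.Lib_helper39.PEQ.Defs
import Pool.Agent.Lib_helper39.PEQF.ED2

/-! block ED3 of PEQ, proved by helper4 -/

set_option autoImplicit false

/-! Block ED3: `eq_mean` (uses `eq_class`) -/

namespace Pool.Agent.PENT.EQ

open Finset

theorem ed3_dvd (M : ℕ) [NeZero M] (x : ℤ) : (M : ℤ) ∣ x - (((x : ZMod M).val : ℕ) : ℤ) := by
  rw [← ZMod.intCast_zmod_eq_zero_iff_dvd]
  push_cast
  rw [ZMod.natCast_zmod_val]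
  ring

theorem ed3_per (M : ℕ) [NeZero M] (F : ℤ × ℤ × ℤ × ℤ → ℝ) (hF : Per M F) (g : ℤ × ℤ × ℤ × ℤ) :
    F g = F (lft (red M g)) := by
  apply hF
  · exact ed3_dvd M g.1
  · exact ed3_dvd M g.2.1
  · exact ed3_dvd M g.2.2.1
  · exact ed3_dvd M g.2.2.2

theorem ed3_mem (M : ℕ) [NeZero M] (g : ZMod M × ZMod M × ZMod M × ZMod M) :
    g ∈ SLM M ↔ g.1 * g.2.2.2 - g.2.1 * g.2.2.1 = 1 := by
  classical
  unfold SLM
  simp only [mem_filter, mem_univ, true_and]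

theorem ed3_red (M : ℕ) [NeZero M] (A₁ A₂ : ℕ) (B₁ B₂ C₁ C₂ : ℤ) (t : ℤ × ℤ × ℤ)
    (ht : t ∈ EBox A₁ A₂ B₁ B₂ C₁ C₂) : red M (emat t) ∈ SLM M := by
  rw [ed3_mem]
  unfold EBox at ht
  rw [mem_filter] at ht
  obtain ⟨_, k, hk⟩ := ht
  have h1 : t.1 * ((t.2.1 * t.2.2 + 1) / t.1) - t.2.1 * t.2.2 = 1 := by
    rw [Int.mul_ediv_cancel' ⟨k, hk⟩]
    ring
  have h2 : ((t.1 * ((t.2.1 * t.2.2 + 1) / t.1) - t.2.1 * t.2.2 : ℤ) : ZMod M) =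
      ((1 : ℤ) : ZMod M) := by rw [h1]
  unfold red emat
  push_cast at h2
  exact h2

theorem ed3_card (M : ℕ) [NeZero M] : (SLM M).card ≤ M ^ 4 := by
  classical
  have h1 := Finset.card_le_univ (SLM M)
  simp only [Fintype.card_prod, ZMod.card] at h1
  calc (SLM M).card ≤ _ := h1
    _ = M ^ 4 := by ring

theorem ed3_pos (M : ℕ) [NeZero M] : 0 < (SLM M).card := by
  apply Finset.card_pos.mpr
  refine ⟨(1, 0, 0, 1), ?_⟩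
  rw [ed3_mem]
  simp

/-- sums over the box, by classes -/
theorem ed3_sum (M : ℕ) [NeZero M] (A₁ A₂ : ℕ) (B₁ B₂ C₁ C₂ : ℤ) (F : ℤ × ℤ × ℤ × ℤ → ℝ)
    (hF : Per M F) : ∑ t ∈ EBox A₁ A₂ B₁ B₂ C₁ C₂, F (emat t) =
      ∑ g ∈ SLM M, F (lft g) * ((Cls M A₁ A₂ B₁ B₂ C₁ C₂ g).card : ℝ) := by
  classical
  rw [← Finset.sum_fiberwise_of_maps_to
    (fun t ht => ed3_red M A₁ A₂ B₁ B₂ C₁ C₂ t ht) (fun t => F (emat t))]
  apply Finset.sum_congr rfl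
  intro g _
  have h1 : ∀ t ∈ (EBox A₁ A₂ B₁ B₂ C₁ C₂).filter (fun t => red M (emat t) = g),
      F (emat t) = F (lft g) := by
    intro t ht
    rw [mem_filter] at ht
    rw [ed3_per M F hF (emat t), ht.2]
  rw [Finset.sum_congr rfl h1, Finset.sum_const, nsmul_eq_mul, mul_comm]
  congr 2

/-- the averaging -/
theorem ed3_avg {ι : Type} (S : Finset ι) (hS : 0 < S.card) (f N : ι → ℝ) (E : ℝ)
    (hf : ∀ g ∈ S, 0 ≤ f g ∧ f g ≤ 1) (hN : ∀ g ∈ S, ∀ g' ∈ S, |N g - N g'| ≤ E) :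
    |∑ g ∈ S, f g * N g - (∑ g ∈ S, N g) * ((∑ g ∈ S, f g) / (S.card : ℝ))| ≤ S.card * E := by
  have hS' : (0 : ℝ) < S.card := by exact_mod_cast hS
  have h1 : ∑ g ∈ S, f g * N g - (∑ g ∈ S, N g) * ((∑ g ∈ S, f g) / (S.card : ℝ)) =
      (∑ g ∈ S, ∑ g' ∈ S, f g * (N g - N g')) / S.card := by
    have h2 : ∑ g ∈ S, ∑ g' ∈ S, f g * (N g - N g') =
        S.card * ∑ g ∈ S, f g * N g - (∑ g ∈ S, f g) * ∑ g ∈ S, N g := by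
      have h3 : ∀ g ∈ S, ∑ g' ∈ S, f g * (N g - N g') =
          (S.card : ℝ) * (f g * N g) - f g * ∑ g' ∈ S, N g' := by
        intro g _
        rw [← Finset.mul_sum, Finset.sum_sub_distrib, Finset.sum_const, nsmul_eq_mul]
        ring
      rw [Finset.sum_congr rfl h3, Finset.sum_sub_distrib, ← Finset.mul_sum, ← Finset.sum_mul]
    rw [h2]
    field_simp
  rw [h1, abs_div, abs_of_pos hS', div_le_iff₀ hS']
  refine (Finset.abs_sum_le_sum_abs _ _).trans ?_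
  have h4 : ∀ g ∈ S, |∑ g' ∈ S, f g * (N g - N g')| ≤ S.card * E := by
    intro g hg
    refine (Finset.abs_sum_le_sum_abs _ _).trans ?_
    have h5 : ∀ g' ∈ S, |f g * (N g - N g')| ≤ E := by
      intro g' hg'
      rw [abs_mul, abs_of_nonneg (hf g hg).1]
      calc f g * |N g - N g'| ≤ 1 * |N g - N g'| :=
            mul_le_mul_of_nonneg_right (hf g hg).2 (abs_nonneg _)
        _ ≤ E := by rw [one_mul]; exact hN g hg g' hg'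
    refine (Finset.sum_le_sum h5).trans ?_
    rw [Finset.sum_const, nsmul_eq_mul]
  refine (Finset.sum_le_sum h4).trans ?_
  rw [Finset.sum_const, nsmul_eq_mul]
  apply le_of_eq
  ring

/-- ED3: **(EQ)** equidistribution of `SL₂(ℤ)` in boxes, for periodic functions -/
theorem eq_mean_pr : ∃ c X₀ : ℝ, 0 < c ∧ c ≤ 1 / 100 ∧ 2 ≤ X₀ ∧ ∀ X : ℝ, X₀ ≤ X → ∀ M : ℕ,
    ∀ _ : NeZero M, (M : ℝ) ≤ X ^ c → ∀ (A₁ A₂ : ℕ) (B₁ B₂ C₁ C₂ : ℤ),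
    X ^ (1 / 2 - c) ≤ A₁ → A₁ ≤ A₂ → (A₂ : ℝ) ≤ X ^ (1 / 2 + c) → B₁ ≤ B₂ →
    (B₂ : ℝ) - B₁ ≤ X ^ (1 / 2 + c) → C₁ ≤ C₂ → (C₂ : ℝ) - C₁ ≤ X ^ (1 / 2 + c) →
    ∀ F : ℤ × ℤ × ℤ × ℤ → ℝ, Per M F → (∀ g, 0 ≤ F g ∧ F g ≤ 1) →
      |∑ t ∈ EBox A₁ A₂ B₁ B₂ C₁ C₂, F (emat t) -
        ((EBox A₁ A₂ B₁ B₂ C₁ C₂).card : ℝ) * EM M F| ≤ X ^ (1 - c) := by
  obtain ⟨c₀, X₀, hc0, hc1, hX0, hmain⟩ := eq_class
  refine ⟨c₀ / 8, X₀, by positivity, by linarith, hX0, ?_⟩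
  intro X hX M hM hMX A₁ A₂ B₁ B₂ C₁ C₂ hA1 hA12 hA2 hB12 hB hC12 hC F hF hF01
  have hX1 : (1 : ℝ) ≤ X := by linarith
  have hXp : (0 : ℝ) < X := by linarith
  have hm1 : X ^ (c₀ / 8) ≤ X ^ c₀ := Real.rpow_le_rpow_of_exponent_le hX1 (by linarith)
  have hm2 : X ^ (1 / 2 - c₀) ≤ X ^ (1 / 2 - c₀ / 8) :=
    Real.rpow_le_rpow_of_exponent_le hX1 (by linarith)
  have hm3 : X ^ (1 / 2 + c₀ / 8) ≤ X ^ (1 / 2 + c₀) :=
    Real.rpow_le_rpow_of_exponent_le hX1 (by linarith)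
  have hcls := hmain X hX M hM (hMX.trans hm1) A₁ A₂ B₁ B₂ C₁ C₂ (hm2.trans hA1) hA12
    (hA2.trans hm3) hB12 (hB.trans hm3) hC12 (hC.trans hm3)
  have hsum := ed3_sum M A₁ A₂ B₁ B₂ C₁ C₂ F hF
  have hone : ((EBox A₁ A₂ B₁ B₂ C₁ C₂).card : ℝ) =
      ∑ g ∈ SLM M, ((Cls M A₁ A₂ B₁ B₂ C₁ C₂ g).card : ℝ) := by
    have h1 := ed3_sum M A₁ A₂ B₁ B₂ C₁ C₂ (fun _ => (1 : ℝ)) (fun _ _ _ _ _ _ => rfl)
    simpa using h1
  rw [hsum, hone]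
  unfold EM
  refine (ed3_avg (SLM M) (ed3_pos M) (fun g => F (lft g))
    (fun g => ((Cls M A₁ A₂ B₁ B₂ C₁ C₂ g).card : ℝ)) (X ^ (1 - c₀))
    (fun g _ => hF01 _) hcls).trans ?_
  have h2 : ((SLM M).card : ℝ) ≤ (M : ℝ) ^ 4 := by exact_mod_cast ed3_card M
  have h3 : (M : ℝ) ^ 4 ≤ (X ^ (c₀ / 8)) ^ 4 := pow_le_pow_left₀ (by positivity) hMX 4
  have h4 : (X ^ (c₀ / 8)) ^ 4 = X ^ (c₀ / 2) := by
    rw [← Real.rpow_natCast, ← Real.rpow_mul hXp.le]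
    congr 1
    push_cast
    ring
  have h5 : 0 < X ^ (1 - c₀) := Real.rpow_pos_of_pos hXp _
  calc ((SLM M).card : ℝ) * X ^ (1 - c₀) ≤ X ^ (c₀ / 2) * X ^ (1 - c₀) := by
        apply mul_le_mul_of_nonneg_right _ h5.le
        linarith
    _ = X ^ (c₀ / 2 + (1 - c₀)) := (Real.rpow_add hXp _ _).symm
    _ ≤ X ^ (1 - c₀ / 8) := Real.rpow_le_rpow_of_exponent_le hX1 (by linarith)

theorem eq_mean : type_of% @eq_mean_pr := @eq_mean_pr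

end Pool.Agent.PENT.EQ
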