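import Pool.Agent.Lib_helper39.PEQ.QDefs

/-! block GA1 of PEQ, proved by helper90 -/

set_option autoImplicit false

namespace Pool.Agent.PENT.EQ

open Finset

/-- GA1: units modulo an odd `m` are sums of two squares (Dirichlet + Fermat) -/
theorem unit_rep_pr (m : ℕ) (hm : Odd m) (a : ℤ) (ha : IsCoprime a (m : ℤ)) :
    ∃ x y : ℤ, (m : ℤ) ∣ x ^ 2 + y ^ 2 - a := by
  have hm0 : m ≠ 0 := by rintro rfl; exact absurd hm (by decide)
  have hm1 : (0 : ℤ) < (m : ℤ) := by exact_mod_cast Nat.pos_of_ne_zero hm0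
  have hco : Nat.Coprime m 4 := by
    have h2 : Nat.Coprime m 2 := hm.coprime_two_right
    have := Nat.Coprime.pow_right 2 h2
    simpa using this
  -- a natural representative
  obtain ⟨a', ha'⟩ : ∃ a' : ℕ, (a' : ℤ) = a % m :=
    ⟨(a % m).toNat, Int.toNat_of_nonneg (Int.emod_nonneg _ hm1.ne')⟩
  have hdv : (m : ℤ) ∣ (a' : ℤ) - a := by
    rw [ha']
    exact ⟨-(a / m), by have := Int.emod_add_mul_ediv a m; linarith⟩
  have hco' : Nat.Coprime a' m := by
    rw [← Nat.isCoprime_iff_coprime]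
    obtain ⟨t, ht⟩ := hdv
    have h1 : (a' : ℤ) = a + m * t := by linarith
    rw [h1]
    exact IsCoprime.add_mul_left_left ha t
  obtain ⟨k, hk1, hk2⟩ := Nat.chineseRemainder hco a' 1
  have hkm : Nat.Coprime k m := by
    have h1 := hk1.gcd_eq
    unfold Nat.Coprime
    rw [h1]; exact hco'
  have hk4 : Nat.Coprime k 4 := by
    have h1 := hk2.gcd_eq
    unfold Nat.Coprime
    rw [h1]
    decide
  obtain ⟨l, _, hl, hlk⟩ := Nat.forall_exists_prime_gt_and_modEq 0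
    (mul_ne_zero hm0 (by norm_num : (4 : ℕ) ≠ 0)) (Nat.Coprime.mul_right hkm hk4)
  have hl4 : l % 4 = 1 := by
    have h1 : l ≡ 1 [MOD 4] := (hlk.of_dvd (dvd_mul_left 4 m)).trans hk2
    exact h1
  have hlm : l ≡ a' [MOD m] := (hlk.of_dvd (dvd_mul_right m 4)).trans hk1
  have : Fact l.Prime := ⟨hl⟩
  obtain ⟨x, y, hxy⟩ := Nat.Prime.sq_add_sq (p := l) (by omega)
  refine ⟨x, y, ?_⟩
  have h2 : (m : ℤ) ∣ (l : ℤ) - a' := by
    have := (Nat.modEq_iff_dvd.1 hlm.symm)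
    exact this
  have h3 : ((x : ℤ) ^ 2 + (y : ℤ) ^ 2 - a) = ((l : ℤ) - a') + ((a' : ℤ) - a) := by
    have : ((x : ℤ) ^ 2 + (y : ℤ) ^ 2) = (l : ℤ) := by exact_mod_cast hxy
    rw [this]; ring
  rw [h3]
  exact dvd_add h2 hdv

theorem unit_rep : type_of% @unit_rep_pr := @unit_rep_pr

end Pool.Agent.PENT.EQ
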