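import Pool.Agent.Lib_helper39.PEQ.QDefs

/-! block GA2 of PEQ, proved by helper99 -/

set_option autoImplicit false

namespace Pool.Agent.PENT.EQ

open Finset

theorem ga2_crt (a b c : ℤ) (S : Finset ℕ) (hS : ∀ p ∈ S, p.Prime)
    (h : ∀ p ∈ S, ∃ t : ℤ, ¬ (p : ℤ) ∣ a + 2 * b * t + c * t ^ 2) :
    ∃ t : ℤ, ∀ p ∈ S, ¬ (p : ℤ) ∣ a + 2 * b * t + c * t ^ 2 := by
  induction S using Finset.induction_on with
  | empty => exact ⟨0, fun p hp => absurd hp (Finset.notMem_empty p)⟩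
  | insert p S hp ih =>
    obtain ⟨t', ht'⟩ := ih (fun q hq => hS q (Finset.mem_insert_of_mem hq))
      (fun q hq => h q (Finset.mem_insert_of_mem hq))
    obtain ⟨tp, htp⟩ := h p (Finset.mem_insert_self p S)
    have hcop : IsCoprime ((∏ q ∈ S, q : ℕ) : ℤ) (p : ℤ) := by
      rw [Nat.isCoprime_iff_coprime]
      refine Nat.Coprime.prod_left fun q hq => ?_
      rw [Nat.coprime_primes (hS q (Finset.mem_insert_of_mem hq)) (hS p (Finset.mem_insert_self p S))]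
      rintro rfl
      exact hp hq
    obtain ⟨u, v, huv⟩ := hcop
    refine ⟨t' + ((∏ q ∈ S, q : ℕ) : ℤ) * (u * (tp - t')), fun q hq => ?_⟩
    rcases Finset.mem_insert.mp hq with rfl | hq
    · intro hd
      apply htp
      have e : a + 2 * b * tp + c * tp ^ 2 =
          (a + 2 * b * (t' + ((∏ q ∈ S, q : ℕ) : ℤ) * (u * (tp - t'))) +
            c * (t' + ((∏ q ∈ S, q : ℕ) : ℤ) * (u * (tp - t'))) ^ 2) +
          (q : ℤ) * (v * (tp - t') * (2 * b + c * (tp + (t' + ((∏ q ∈ S, q : ℕ) : ℤ) * (u * (tp - t')))))) := by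
        have hQ : ((∏ q ∈ S, q : ℕ) : ℤ) * (u * (tp - t')) = (1 - v * q) * (tp - t') := by
          rw [← huv]; ring
        rw [hQ]
        ring
      rw [e]
      exact dvd_add hd (dvd_mul_right _ _)
    · intro hd
      apply ht' q hq
      have hqQ : (q : ℤ) ∣ ((∏ q ∈ S, q : ℕ) : ℤ) := by
        exact_mod_cast Finset.dvd_prod_of_mem (fun q => q) hq
      have e : a + 2 * b * t' + c * t' ^ 2 =
          (a + 2 * b * (t' + ((∏ q ∈ S, q : ℕ) : ℤ) * (u * (tp - t'))) +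
            c * (t' + ((∏ q ∈ S, q : ℕ) : ℤ) * (u * (tp - t'))) ^ 2) -
          ((∏ q ∈ S, q : ℕ) : ℤ) * (u * (tp - t') * (2 * b + c * (t' + (t' + ((∏ q ∈ S, q : ℕ) : ℤ) * (u * (tp - t')))))) := by
        ring
      rw [e]
      exact dvd_sub hd (Dvd.dvd.mul_right hqQ _)

theorem ga2_local (p : ℕ) (hp : p.Prime) (hodd : p ≠ 2) (a b c : ℤ)
    (h : (p : ℤ) ∣ a * c - b ^ 2 - 1) : ∃ t : ℤ, ¬ (p : ℤ) ∣ a + 2 * b * t + c * t ^ 2 := by
  by_contra hcon
  push Not at hcon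
  have h0 := hcon 0
  have h1 := hcon 1
  have h2 := hcon 2
  have hpp : Prime (p : ℤ) := Nat.prime_iff_prime_int.mp hp
  have hp2 : ¬ (p : ℤ) ∣ 2 := by
    intro hd
    have hd' : p ∣ 2 := by exact_mod_cast hd
    exact hodd ((Nat.prime_dvd_prime_iff_eq hp Nat.prime_two).mp hd')
  have h2c : (p : ℤ) ∣ 2 * c := by
    have e : 2 * c = (a + 2 * b * 2 + c * 2 ^ 2) - 2 * (a + 2 * b * 1 + c * 1 ^ 2) +
        (a + 2 * b * 0 + c * 0 ^ 2) := by ring
    rw [e]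
    exact dvd_add (dvd_sub h2 (Dvd.dvd.mul_left h1 2)) h0
  have hc : (p : ℤ) ∣ c := (hpp.dvd_or_dvd h2c).resolve_left hp2
  have h2b : (p : ℤ) ∣ 2 * b := by
    have e : 2 * b = (a + 2 * b * 1 + c * 1 ^ 2) - (a + 2 * b * 0 + c * 0 ^ 2) - c := by ring
    rw [e]
    exact dvd_sub (dvd_sub h1 h0) hc
  have hb : (p : ℤ) ∣ b := (hpp.dvd_or_dvd h2b).resolve_left hp2
  have h3 : (p : ℤ) ∣ 1 := by
    have e : (1 : ℤ) = a * c - b * b - (a * c - b ^ 2 - 1) := by ring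
    rw [e]
    exact dvd_sub (dvd_sub (Dvd.dvd.mul_left hc a) (Dvd.dvd.mul_left hb b)) h
  exact hpp.not_dvd_one h3

/-- GA2: a form of determinant one takes a unit value at some `(1, t)` -/
theorem unit_value_pr (m : ℕ) (hm : Odd m) (a b c : ℤ) (h : (m : ℤ) ∣ a * c - b ^ 2 - 1) :
    ∃ t : ℤ, IsCoprime (a + 2 * b * t + c * t ^ 2) (m : ℤ) := by
  obtain ⟨t, ht⟩ := ga2_crt a b c m.primeFactors (fun p hp => Nat.prime_of_mem_primeFactors hp)
    (fun p hp => by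
      have hpp := Nat.prime_of_mem_primeFactors hp
      have hpm := Nat.dvd_of_mem_primeFactors hp
      refine ga2_local p hpp ?_ a b c ((Int.natCast_dvd_natCast.mpr hpm).trans h)
      rintro rfl
      have h1 := hm.of_dvd_nat hpm
      exact absurd h1 (by decide))
  refine ⟨t, ?_⟩
  rw [Int.isCoprime_iff_gcd_eq_one]
  by_contra hg
  obtain ⟨p, hp, hpd⟩ := Nat.exists_prime_and_dvd hg
  have h1 : (p : ℤ) ∣ a + 2 * b * t + c * t ^ 2 :=
    (Int.natCast_dvd_natCast.mpr hpd).trans (Int.gcd_dvd_left ..)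
  have h2 : (p : ℤ) ∣ (m : ℤ) := (Int.natCast_dvd_natCast.mpr hpd).trans (Int.gcd_dvd_right ..)
  have h3 : p ∣ m := Int.natCast_dvd_natCast.mp h2
  have hm0 : m ≠ 0 := by
    rintro rfl
    exact absurd hm (by decide)
  exact ht p (Nat.mem_primeFactors.mpr ⟨hp, h3, hm0⟩) h1

theorem unit_value : type_of% @unit_value_pr := @unit_value_pr

end Pool.Agent.PENT.EQ
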