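import Pool.Agent.Lib_helper39.PEQ.QDefs
import Pool.Agent.Lib_helper39.PEQF.GA1
import Pool.Agent.Lib_helper39.PEQF.GA2

/-! block GA3 of PEQ, proved by helper87 -/

/-! PEQ, block GA3 -/

set_option autoImplicit false

namespace Pool.Agent.PENT.EQ

open Finset

/-- the computation in a commutative ring -/
theorem ga3_ring {R : Type} [CommRing R] (a b c t x y u : R) (h : a * c - b ^ 2 - 1 = 0)
    (hS : x ^ 2 + y ^ 2 - (a + 2 * b * t + c * t ^ 2) = 0)
    (hU : u * (a + 2 * b * t + c * t ^ 2) - 1 = 0) :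
    (x - t * ((x * (b + c * t) - y) * u)) * ((y * (b + c * t) + x) * u) -
        ((x * (b + c * t) - y) * u) * (y - t * ((y * (b + c * t) + x) * u)) - 1 = 0 ∧
      (x - t * ((x * (b + c * t) - y) * u)) ^ 2 + (y - t * ((y * (b + c * t) + x) * u)) ^ 2
        - a = 0 ∧
      (x - t * ((x * (b + c * t) - y) * u)) * ((x * (b + c * t) - y) * u) +
        (y - t * ((y * (b + c * t) + x) * u)) * ((y * (b + c * t) + x) * u) - b = 0 ∧
      ((x * (b + c * t) - y) * u) ^ 2 + ((y * (b + c * t) + x) * u) ^ 2 - c = 0 := by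
  have hH : (a + 2 * b * t + c * t ^ 2) * c - (b + c * t) ^ 2 - 1 = 0 := by
    linear_combination h
  have e0 : x * ((y * (b + c * t) + x) * u) - ((x * (b + c * t) - y) * u) * y - 1 = 0 := by
    linear_combination u * hS + hU
  have e1 : x * ((x * (b + c * t) - y) * u) + y * ((y * (b + c * t) + x) * u) - (b + c * t) = 0 := by
    linear_combination (u * (b + c * t)) * hS + (b + c * t) * hU
  have e2 : ((x * (b + c * t) - y) * u) ^ 2 + ((y * (b + c * t) + x) * u) ^ 2 - c = 0 := by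
    linear_combination (u ^ 2 * ((b + c * t) ^ 2 + 1)) * hS + (u * ((b + c * t) ^ 2 + 1)) * hU +
      c * hU - u * hH
  set β := (x * (b + c * t) - y) * u with hβ
  set δ := (y * (b + c * t) + x) * u with hδ
  refine ⟨?_, ?_, ?_, e2⟩
  · linear_combination e0
  · linear_combination hS - 2 * t * e1 + t ^ 2 * e2
  · linear_combination e1 - t * e2

/-- GA3: every form of determinant one modulo an odd `m` is `PᵀP` (uses GA1, GA2) -/
theorem form_surj_pr (m : ℕ) (hm : Odd m) (a b c : ℤ) (h : (m : ℤ) ∣ a * c - b ^ 2 - 1) :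
    ∃ α β γ δ : ℤ, (m : ℤ) ∣ α * δ - β * γ - 1 ∧ (m : ℤ) ∣ α ^ 2 + γ ^ 2 - a ∧
      (m : ℤ) ∣ α * β + γ * δ - b ∧ (m : ℤ) ∣ β ^ 2 + δ ^ 2 - c := by
  obtain ⟨t, ht⟩ := unit_value m hm a b c h
  obtain ⟨x, y, hxy⟩ := unit_rep m hm _ ht
  obtain ⟨u, v, huv⟩ := ht
  have h1 : ((a : ZMod m)) * c - b ^ 2 - 1 = 0 := by
    have := (ZMod.intCast_zmod_eq_zero_iff_dvd _ _).2 h
    push_cast at this
    exact this
  have h2 : ((x : ZMod m)) ^ 2 + y ^ 2 - (a + 2 * b * t + c * t ^ 2) = 0 := by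
    have := (ZMod.intCast_zmod_eq_zero_iff_dvd _ _).2 hxy
    push_cast at this
    exact this
  have h3 : ((u : ZMod m)) * (a + 2 * b * t + c * t ^ 2) - 1 = 0 := by
    have h4 := congrArg (fun z : ℤ => (z : ZMod m)) huv
    push_cast at h4
    rw [ZMod.natCast_self, mul_zero, add_zero] at h4
    rw [h4, sub_self]
  obtain ⟨g1, g2, g3, g4⟩ := ga3_ring (a : ZMod m) b c t x y u h1 h2 h3
  refine ⟨x - t * ((x * (b + c * t) - y) * u), (x * (b + c * t) - y) * u,
    y - t * ((y * (b + c * t) + x) * u), (y * (b + c * t) + x) * u, ?_, ?_, ?_, ?_⟩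
  · rw [← ZMod.intCast_zmod_eq_zero_iff_dvd]
    push_cast
    exact g1
  · rw [← ZMod.intCast_zmod_eq_zero_iff_dvd]
    push_cast
    exact g2
  · rw [← ZMod.intCast_zmod_eq_zero_iff_dvd]
    push_cast
    exact g3
  · rw [← ZMod.intCast_zmod_eq_zero_iff_dvd]
    push_cast
    exact g4

theorem form_surj : type_of% @form_surj_pr := @form_surj_pr

end Pool.Agent.PENT.EQ
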