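import Pool.Agent.Lib_helper39.PEQ.QDefs
import Pool.Agent.Lib_helper39.PEQF.GA3

/-! block GA4 of PEQ, proved by helper23 -/

set_option autoImplicit false

namespace Pool.Agent.PENT.EQ

open Finset

/-- the form of a matrix over a commutative ring -/
def ga4_q {R : Type} [CommRing R] (g : R × R × R × R) : R × R × R :=
  (g.1 ^ 2 + g.2.2.1 ^ 2, g.1 * g.2.1 + g.2.2.1 * g.2.2.2, g.2.1 ^ 2 + g.2.2.2 ^ 2)

/-- the product of matrices -/
def ga4_m {R : Type} [CommRing R] (g p : R × R × R × R) : R × R × R × R :=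
  (g.1 * p.1 + g.2.1 * p.2.2.1, g.1 * p.2.1 + g.2.1 * p.2.2.2,
    g.2.2.1 * p.1 + g.2.2.2 * p.2.2.1, g.2.2.1 * p.2.1 + g.2.2.2 * p.2.2.2)

/-- the inverse matrix -/
def ga4_i {R : Type} [CommRing R] (p : R × R × R × R) : R × R × R × R :=
  (p.2.2.2, -p.2.1, -p.2.2.1, p.1)

/-- the forms of determinant one over `ZMod m` -/
noncomputable def ga4_V (m : ℕ) [NeZero m] : Finset (ZMod m × ZMod m × ZMod m) :=
  by classical exact univ.filter (fun v => v.1 * v.2.2 - v.2.1 ^ 2 = 1)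

theorem ga4_memS (m : ℕ) [NeZero m] (g : ZMod m × ZMod m × ZMod m × ZMod m) :
    g ∈ SLM m ↔ g.1 * g.2.2.2 - g.2.1 * g.2.2.1 = 1 := by
  unfold SLM
  simp

theorem ga4_memV (m : ℕ) [NeZero m] (v : ZMod m × ZMod m × ZMod m) :
    v ∈ ga4_V m ↔ v.1 * v.2.2 - v.2.1 ^ 2 = 1 := by
  unfold ga4_V
  simp

theorem ga4_dvd (m : ℕ) (z : ℤ) : (m : ℤ) ∣ z ↔ ((z : ℤ) : ZMod m) = 0 :=
  (ZMod.intCast_zmod_eq_zero_iff_dvd z m).symm

theorem ga4_val (m : ℕ) [NeZero m] (w : ZMod m) : (((w.val : ℕ) : ℤ) : ZMod m) = w := by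
  rw [Int.cast_natCast, ZMod.natCast_zmod_val]

theorem ga4_valint (m : ℕ) [NeZero m] (z : ℤ) (h0 : 0 ≤ z) (h1 : z < m) :
    (((z : ZMod m).val : ℕ) : ℤ) = z := by
  rw [ZMod.val_intCast]
  exact Int.emod_eq_of_lt h0 h1

/-- the fibres have the same size -/
theorem ga4_fib (m : ℕ) [NeZero m] (P : ZMod m × ZMod m × ZMod m × ZMod m)
    (hP : P.1 * P.2.2.2 - P.2.1 * P.2.2.1 = 1) :
    ((SLM m).filter (fun g => ga4_q g = ga4_q P)).card =
      ((SLM m).filter (fun g => ga4_q g = (1, 0, 1))).card := by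
  refine Finset.card_nbij' (fun g => ga4_m g (ga4_i P)) (fun g => ga4_m g P) ?_ ?_ ?_ ?_
  · intro g hg
    obtain ⟨a, b, c, d⟩ := g
    obtain ⟨α, β, γ, δ⟩ := P
    have hg' := Finset.mem_coe.1 hg
    rw [Finset.mem_filter, ga4_memS] at hg'
    simp only [ga4_q, Prod.mk.injEq] at hg'
    obtain ⟨h0, h1, h2, h3⟩ := hg'
    simp only at hP
    refine Finset.mem_coe.2 ?_
    rw [Finset.mem_filter, ga4_memS]
    simp only [ga4_q, ga4_m, ga4_i, Prod.mk.injEq]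
    refine ⟨?_, ?_, ?_, ?_⟩
    · linear_combination (a * d - b * c) * hP + h0
    · linear_combination δ ^ 2 * h1 - 2 * γ * δ * h2 + γ ^ 2 * h3 + (α * δ - β * γ + 1) * hP
    · linear_combination (- β * δ) * h1 + (α * δ + β * γ) * h2 - α * γ * h3
    · linear_combination β ^ 2 * h1 - 2 * α * β * h2 + α ^ 2 * h3 + (α * δ - β * γ + 1) * hP
  · intro g hg
    obtain ⟨a, b, c, d⟩ := g
    obtain ⟨α, β, γ, δ⟩ := P
    have hg' := Finset.mem_coe.1 hg
    rw [Finset.mem_filter, ga4_memS] at hg'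
    simp only [ga4_q, Prod.mk.injEq] at hg'
    obtain ⟨h0, h1, h2, h3⟩ := hg'
    simp only at hP
    refine Finset.mem_coe.2 ?_
    rw [Finset.mem_filter, ga4_memS]
    simp only [ga4_q, ga4_m, Prod.mk.injEq]
    refine ⟨?_, ?_, ?_, ?_⟩
    · linear_combination (a * d - b * c) * hP + h0
    · linear_combination α ^ 2 * h1 + 2 * α * γ * h2 + γ ^ 2 * h3
    · linear_combination α * β * h1 + (α * δ + β * γ) * h2 + γ * δ * h3
    · linear_combination β ^ 2 * h1 + 2 * β * δ * h2 + δ ^ 2 * h3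
  · intro g _
    obtain ⟨a, b, c, d⟩ := g
    obtain ⟨α, β, γ, δ⟩ := P
    simp only at hP
    simp only [ga4_m, ga4_i, Prod.mk.injEq]
    refine ⟨?_, ?_, ?_, ?_⟩
    · linear_combination a * hP
    · linear_combination b * hP
    · linear_combination c * hP
    · linear_combination d * hP
  · intro g _
    obtain ⟨a, b, c, d⟩ := g
    obtain ⟨α, β, γ, δ⟩ := P
    simp only at hP
    simp only [ga4_m, ga4_i, Prod.mk.injEq]
    refine ⟨?_, ?_, ?_, ?_⟩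
    · linear_combination a * hP
    · linear_combination b * hP
    · linear_combination c * hP
    · linear_combination d * hP

/-- every form over `ZMod m` comes from a matrix -/
theorem ga4_surj (m : ℕ) [NeZero m] (hm : Odd m) (v : ZMod m × ZMod m × ZMod m)
    (hv : v.1 * v.2.2 - v.2.1 ^ 2 = 1) :
    ∃ P : ZMod m × ZMod m × ZMod m × ZMod m,
      P.1 * P.2.2.2 - P.2.1 * P.2.2.1 = 1 ∧ ga4_q P = v := by
  obtain ⟨a, b, c⟩ := v
  simp only at hv
  have h1 : (m : ℤ) ∣ ((a.val : ℕ) : ℤ) * ((c.val : ℕ) : ℤ) - ((b.val : ℕ) : ℤ) ^ 2 - 1 := by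
    rw [ga4_dvd]
    rw [Int.cast_sub, Int.cast_sub, Int.cast_mul, Int.cast_pow, Int.cast_one, ga4_val, ga4_val,
      ga4_val]
    linear_combination hv
  obtain ⟨α, β, γ, δ, k1, k2, k3, k4⟩ := form_surj m hm _ _ _ h1
  rw [ga4_dvd] at k1 k2 k3 k4
  rw [Int.cast_sub, ga4_val] at k2 k3 k4
  push_cast at k1 k2 k3 k4
  refine ⟨((α : ZMod m), (β : ZMod m), (γ : ZMod m), (δ : ZMod m)), ?_, ?_⟩
  · linear_combination k1
  · simp only [ga4_q, Prod.mk.injEq]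
    refine ⟨?_, ?_, ?_⟩
    · linear_combination k2
    · linear_combination k3
    · linear_combination k4

/-- the function over `ZMod m` -/
noncomputable def ga4_H {m : ℕ} (h : ℤ × ℤ × ℤ → ℝ) (v : ZMod m × ZMod m × ZMod m) : ℝ :=
  h (((v.1.val : ℕ) : ℤ), ((v.2.1.val : ℕ) : ℤ), ((v.2.2.val : ℕ) : ℤ))

theorem ga4_lift (m : ℕ) [NeZero m] (h : ℤ × ℤ × ℤ → ℝ) (hh : Per3 m h)
    (g : ZMod m × ZMod m × ZMod m × ZMod m) : h (QQ (lft g)) = ga4_H h (ga4_q g) := by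
  unfold ga4_H
  refine hh _ _ ?_ ?_ ?_
  · rw [ga4_dvd, Int.cast_sub, ga4_val]
    simp only [QQ, lft, ga4_q]
    push_cast
    simp
  · rw [ga4_dvd, Int.cast_sub, ga4_val]
    simp only [QQ, lft, ga4_q]
    push_cast
    simp
  · rw [ga4_dvd, Int.cast_sub, ga4_val]
    simp only [QQ, lft, ga4_q]
    push_cast
    simp

theorem ga4_memV3 (m : ℕ) (v : ℤ × ℤ × ℤ) : v ∈ V3 m ↔
    ((0 ≤ v.1 ∧ v.1 < m) ∧ (0 ≤ v.2.1 ∧ v.2.1 < m) ∧ (0 ≤ v.2.2 ∧ v.2.2 < m)) ∧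
      (m : ℤ) ∣ v.1 * v.2.2 - v.2.1 ^ 2 - 1 := by
  unfold V3
  rw [Finset.mem_filter, Finset.mem_product, Finset.mem_product, Finset.mem_Ico, Finset.mem_Ico,
    Finset.mem_Ico]

/-- sums over `V3 m` -/
theorem ga4_sum (m : ℕ) [NeZero m] (h : ℤ × ℤ × ℤ → ℝ) :
    ∑ v ∈ V3 m, h v = ∑ w ∈ ga4_V m, ga4_H h w := by
  refine Finset.sum_nbij' (fun v => ((v.1 : ZMod m), (v.2.1 : ZMod m), (v.2.2 : ZMod m)))
    (fun w => (((w.1.val : ℕ) : ℤ), ((w.2.1.val : ℕ) : ℤ), ((w.2.2.val : ℕ) : ℤ)))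
    ?_ ?_ ?_ ?_ ?_
  · intro v hv
    rw [ga4_memV3] at hv
    rw [ga4_memV]
    have h1 := hv.2
    rw [ga4_dvd] at h1
    push_cast at h1
    linear_combination h1
  · intro w hw
    rw [ga4_memV] at hw
    rw [ga4_memV3]
    have hpos : ∀ z : ZMod m, (0 : ℤ) ≤ ((z.val : ℕ) : ℤ) ∧ ((z.val : ℕ) : ℤ) < m := by
      intro z
      exact ⟨Int.natCast_nonneg _, by exact_mod_cast ZMod.val_lt z⟩
    refine ⟨⟨hpos _, hpos _, hpos _⟩, ?_⟩
    rw [ga4_dvd]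
    rw [Int.cast_sub, Int.cast_sub, Int.cast_mul, Int.cast_pow, Int.cast_one, ga4_val, ga4_val,
      ga4_val]
    linear_combination hw
  · intro v hv
    rw [ga4_memV3] at hv
    obtain ⟨⟨h1, h2, h3⟩, _⟩ := hv
    refine Prod.ext ?_ (Prod.ext ?_ ?_)
    · exact ga4_valint m _ h1.1 h1.2
    · exact ga4_valint m _ h2.1 h2.2
    · exact ga4_valint m _ h3.1 h3.2
  · intro w _
    refine Prod.ext ?_ (Prod.ext ?_ ?_)
    · exact ga4_val m _
    · exact ga4_val m _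
    · exact ga4_val m _
  · intro v hv
    rw [ga4_memV3] at hv
    obtain ⟨⟨h1, h2, h3⟩, _⟩ := hv
    unfold ga4_H
    congr 1
    refine Prod.ext ?_ (Prod.ext ?_ ?_)
    · exact (ga4_valint m _ h1.1 h1.2).symm
    · exact (ga4_valint m _ h2.1 h2.2).symm
    · exact (ga4_valint m _ h3.1 h3.2).symm

theorem ga4_maps (m : ℕ) [NeZero m] (g : ZMod m × ZMod m × ZMod m × ZMod m) (hg : g ∈ SLM m) :
    ga4_q g ∈ ga4_V m := by
  rw [ga4_memS] at hg
  rw [ga4_memV]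
  simp only [ga4_q]
  linear_combination (g.1 * g.2.2.2 - g.2.1 * g.2.2.1 + 1) * hg

/-- sums over `SLM m` of functions of the form -/
theorem ga4_sumS (m : ℕ) [NeZero m] (hm : Odd m) (H : ZMod m × ZMod m × ZMod m → ℝ) :
    ∑ g ∈ SLM m, H (ga4_q g) =
      (((SLM m).filter (fun g => ga4_q g = (1, 0, 1))).card : ℝ) * ∑ w ∈ ga4_V m, H w := by
  rw [← Finset.sum_fiberwise_of_maps_to (ga4_maps m) (fun g => H (ga4_q g)), Finset.mul_sum]
  refine Finset.sum_congr rfl fun v hv => ?_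
  have e1 : ∑ g ∈ (SLM m).filter (fun g => ga4_q g = v), H (ga4_q g) =
      ∑ g ∈ (SLM m).filter (fun g => ga4_q g = v), H v := by
    refine Finset.sum_congr rfl fun g hg => ?_
    rw [(Finset.mem_filter.1 hg).2]
  rw [e1, Finset.sum_const, nsmul_eq_mul]
  rw [ga4_memV] at hv
  obtain ⟨P, hP, hq⟩ := ga4_surj m hm v hv
  have e2 := ga4_fib m P hP
  rw [hq] at e2
  rw [e2]

theorem EM_form_pr (m : ℕ) [NeZero m] (hm : Odd m) (h : ℤ × ℤ × ℤ → ℝ) (hh : Per3 m h) :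
    EM m (fun g => h (QQ g)) = MV m h := by
  have e1 : ∑ g ∈ SLM m, h (QQ (lft g)) =
      (((SLM m).filter (fun g => ga4_q g = (1, 0, 1))).card : ℝ) *
        ∑ w ∈ ga4_V m, ga4_H h w := by
    rw [← ga4_sumS m hm]
    exact Finset.sum_congr rfl fun g _ => ga4_lift m h hh g
  have e2 : ((SLM m).card : ℝ) =
      (((SLM m).filter (fun g => ga4_q g = (1, 0, 1))).card : ℝ) * ((ga4_V m).card : ℝ) := by
    have := ga4_sumS m hm (fun _ => (1 : ℝ))
    simpa using this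
  have e3 : ((V3 m).card : ℝ) = ((ga4_V m).card : ℝ) := by
    have := ga4_sum m (fun _ => (1 : ℝ))
    simpa [ga4_H] using this
  have hk : (((SLM m).filter (fun g => ga4_q g = (1, 0, 1))).card : ℝ) ≠ 0 := by
    have hmem : ((1, 0, 0, 1) : ZMod m × ZMod m × ZMod m × ZMod m) ∈
        (SLM m).filter (fun g => ga4_q g = (1, 0, 1)) := by
      rw [Finset.mem_filter, ga4_memS]
      simp [ga4_q]
    exact_mod_cast Finset.card_ne_zero.2 ⟨_, hmem⟩
  unfold EM MV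
  rw [e1, e2, e3, ga4_sum]
  exact mul_div_mul_left _ _ hk

theorem EM_form : type_of% @EM_form_pr := @EM_form_pr

end Pool.Agent.PENT.EQ
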