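import Pool.Agent.Lib_helper39.PEQ.QDefs
import Pool.Agent.Lib_helper39.PEQF.ED3
import Pool.Agent.Lib_helper39.PEQF.EF2
import Pool.Agent.Lib_helper39.PEQF.GA4

/-! block GB1 of PEQ, proved by helper9 -/

/-! Block GB1 -/

set_option autoImplicit false

namespace Pool.Agent.PENT.EQ

open Finset

theorem gb1_sq {m a b : ℤ} (h : m ∣ a - b) : m ∣ a ^ 2 - b ^ 2 := by
  have h1 : a ^ 2 - b ^ 2 = (a - b) * (a + b) := by ring
  rw [h1]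
  exact Dvd.dvd.mul_right h _

theorem gb1_mul {m a b c d : ℤ} (h : m ∣ a - b) (h' : m ∣ c - d) : m ∣ a * c - b * d := by
  have h1 : a * c - b * d = (a - b) * c + b * (c - d) := by ring
  rw [h1]
  exact dvd_add (Dvd.dvd.mul_right h _) (Dvd.dvd.mul_left h' _)

theorem gb1_per (m : ℕ) (h : ℤ × ℤ × ℤ → ℝ) (hh : Per3 m h) : Per m (fun g => h (QQ g)) := by
  intro g g' h1 h2 h3 h4
  apply hh
  · show (m : ℤ) ∣ (g.1 ^ 2 + g.2.2.1 ^ 2) - (g'.1 ^ 2 + g'.2.2.1 ^ 2)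
    have e : (g.1 ^ 2 + g.2.2.1 ^ 2) - (g'.1 ^ 2 + g'.2.2.1 ^ 2) =
        (g.1 ^ 2 - g'.1 ^ 2) + (g.2.2.1 ^ 2 - g'.2.2.1 ^ 2) := by ring
    rw [e]
    exact dvd_add (gb1_sq h1) (gb1_sq h3)
  · show (m : ℤ) ∣ (g.1 * g.2.1 + g.2.2.1 * g.2.2.2) - (g'.1 * g'.2.1 + g'.2.2.1 * g'.2.2.2)
    have e : (g.1 * g.2.1 + g.2.2.1 * g.2.2.2) - (g'.1 * g'.2.1 + g'.2.2.1 * g'.2.2.2) =
        (g.1 * g.2.1 - g'.1 * g'.2.1) + (g.2.2.1 * g.2.2.2 - g'.2.2.1 * g'.2.2.2) := by ring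
    rw [e]
    exact dvd_add (gb1_mul h1 h2) (gb1_mul h3 h4)
  · show (m : ℤ) ∣ (g.2.1 ^ 2 + g.2.2.2 ^ 2) - (g'.2.1 ^ 2 + g'.2.2.2 ^ 2)
    have e : (g.2.1 ^ 2 + g.2.2.2 ^ 2) - (g'.2.1 ^ 2 + g'.2.2.2 ^ 2) =
        (g.2.1 ^ 2 - g'.2.1 ^ 2) + (g.2.2.2 ^ 2 - g'.2.2.2 ^ 2) := by ring
    rw [e]
    exact dvd_add (gb1_sq h2) (gb1_sq h4)

theorem gb1_per_dvd (m M : ℕ) (hmM : m ∣ M) (F : ℤ × ℤ × ℤ × ℤ → ℝ) (hF : Per m F) : Per M F := by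
  have hd : (m : ℤ) ∣ (M : ℤ) := Int.natCast_dvd_natCast.2 hmM
  intro g g' h1 h2 h3 h4
  exact hF g g' (dvd_trans hd h1) (dvd_trans hd h2) (dvd_trans hd h3) (dvd_trans hd h4)

theorem gb1_per_prod (T : Finset ℕ) (M : ℕ) (hM : ∀ m ∈ T, m ∣ M) (h : ℕ → ℤ × ℤ × ℤ → ℝ)
    (hh : ∀ m ∈ T, Per3 m (h m)) : Per M (fun g => ∏ m ∈ T, h m (QQ g)) := by
  intro g g' h1 h2 h3 h4
  refine Finset.prod_congr rfl fun m hm => ?_
  exact gb1_per_dvd m M (hM m hm) _ (gb1_per m (h m) (hh m hm)) g g' h1 h2 h3 h4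

theorem gb1_EM (T : Finset ℕ) : (∀ m ∈ T, Odd m) →
    (∀ m ∈ T, ∀ m' ∈ T, m ≠ m' → Nat.Coprime m m') → ∀ h : ℕ → ℤ × ℤ × ℤ → ℝ,
    (∀ m ∈ T, Per3 m (h m)) → ∀ M : ℕ, M = ∏ m ∈ T, m → ∀ _ : NeZero M,
    EM M (fun g => ∏ m ∈ T, h m (QQ g)) = ∏ m ∈ T, MV m (h m) := by
  classical
  induction T using Finset.induction_on with
  | empty =>
    intro _ _ h _ M hM inst
    have hM1 : M = 1 := by rw [hM, Finset.prod_empty]
    subst hM1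
    simp only [Finset.prod_empty]
    unfold EM
    have hne : ((SLM 1).card : ℝ) ≠ 0 := by
      have h1 : (0 : ℕ) < (SLM 1).card := by
        apply Finset.card_pos.2
        refine ⟨(0, 0, 0, 0), ?_⟩
        unfold SLM
        refine mem_filter.2 ⟨mem_univ _, Subsingleton.elim _ _⟩
      exact_mod_cast h1.ne'
    rw [Finset.sum_const, nsmul_eq_mul, mul_one]
    exact div_self hne
  | insert a T ha ih =>
    intro hodd hcop h hper M hM inst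
    rw [Finset.prod_insert ha] at hM
    subst hM
    have ha0 : Odd a := hodd a (mem_insert_self a T)
    have haz : NeZero a := ⟨by
      rintro rfl
      exact absurd ha0 (by decide)⟩
    have hMz : NeZero (∏ m ∈ T, m) := ⟨by
      intro h0
      exact inst.out (by rw [h0, mul_zero])⟩
    have hc : Nat.Coprime a (∏ m ∈ T, m) := by
      apply Nat.Coprime.prod_right
      intro m hm
      refine hcop a (mem_insert_self a T) m (mem_insert_of_mem hm) ?_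
      rintro rfl
      exact ha hm
    have hPT : Per (∏ m ∈ T, m) (fun g => ∏ m ∈ T, h m (QQ g)) :=
      gb1_per_prod T _ (fun m hm => Finset.dvd_prod_of_mem _ hm) h
        (fun m hm => hper m (mem_insert_of_mem hm))
    have hPa : Per a (fun g => h a (QQ g)) := gb1_per a (h a) (hper a (mem_insert_self a T))
    have e1 : (fun g : ℤ × ℤ × ℤ × ℤ => ∏ m ∈ insert a T, h m (QQ g)) =
        fun g => (fun g => h a (QQ g)) g * (fun g => ∏ m ∈ T, h m (QQ g)) g := by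
      funext g
      rw [Finset.prod_insert ha]
    rw [e1, EM_mul a (∏ m ∈ T, m) _ _ hPa hPT hc, Finset.prod_insert ha,
      EM_form a ha0 (h a) (hper a (mem_insert_self a T)),
      ih (fun m hm => hodd m (mem_insert_of_mem hm))
        (fun m hm m' hm' => hcop m (mem_insert_of_mem hm) m' (mem_insert_of_mem hm')) h
        (fun m hm => hper m (mem_insert_of_mem hm)) _ rfl hMz]

/-- GB1: product-form equidistribution for boxes (uses ED3 = eq_mean, EF2 = EM_mul, EF1, GA4) -/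
theorem eq_prod_pr : ∃ c X₀ : ℝ, 0 < c ∧ c ≤ 1 / 100 ∧ 2 ≤ X₀ ∧ ∀ X : ℝ, X₀ ≤ X →
    ∀ (A₁ A₂ : ℕ) (B₁ B₂ C₁ C₂ : ℤ),
    X ^ (1 / 2 - c) ≤ A₁ → A₁ ≤ A₂ → (A₂ : ℝ) ≤ X ^ (1 / 2 + c) → B₁ ≤ B₂ →
    (B₂ : ℝ) - B₁ ≤ X ^ (1 / 2 + c) → C₁ ≤ C₂ → (C₂ : ℝ) - C₁ ≤ X ^ (1 / 2 + c) →
      EqFam (EBox A₁ A₂ B₁ B₂ C₁ C₂) (fun t => QQ (emat t)) (X ^ c) (X ^ (1 - c)) := by
  obtain ⟨c, X₀, hc, hc1, hX0, H⟩ := eq_mean
  refine ⟨c, X₀, hc, hc1, hX0, ?_⟩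
  intro X hX A₁ A₂ B₁ B₂ C₁ C₂ h1 h2 h3 h4 h5 h6 h7 T hodd hcop hD h hper h01
  have hMz : NeZero (∏ m ∈ T, m) := ⟨by
    rw [Finset.prod_ne_zero_iff]
    intro m hm h0
    have := hodd m hm
    rw [h0] at this
    exact absurd this (by decide)⟩
  have hPT : Per (∏ m ∈ T, m) (fun g => ∏ m ∈ T, h m (QQ g)) :=
    gb1_per_prod T _ (fun m hm => Finset.dvd_prod_of_mem _ hm) h hper
  have hF01 : ∀ g : ℤ × ℤ × ℤ × ℤ, 0 ≤ ∏ m ∈ T, h m (QQ g) ∧ ∏ m ∈ T, h m (QQ g) ≤ 1 := by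
    intro g
    exact ⟨Finset.prod_nonneg fun m hm => (h01 m hm _).1,
      Finset.prod_le_one (fun m hm => (h01 m hm _).1) (fun m hm => (h01 m hm _).2)⟩
  have h8 := H X hX (∏ m ∈ T, m) hMz hD A₁ A₂ B₁ B₂ C₁ C₂ h1 h2 h3 h4 h5 h6 h7
    (fun g => ∏ m ∈ T, h m (QQ g)) hPT hF01
  rw [gb1_EM T hodd hcop h hper _ rfl hMz] at h8
  exact h8

theorem eq_prod : type_of% @eq_prod_pr := @eq_prod_pr

end Pool.Agent.PENT.EQ
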