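import Pool.Agent.Lib_helper39.PEQ.QDefs
import Pool.Agent.Lib_helper39.PEQF.EE3
import Pool.Agent.Lib_helper39.PEQF.EF3
import Pool.Agent.Lib_helper39.PEQF.GB1

/-! block GB2 of PEQ, proved by helper9 -/

/-! Block GB2 -/

set_option autoImplicit false

namespace Pool.Agent.PENT.EQ

open Finset Filter

theorem gb2_mono {O : Finset (ℤ × ℤ × ℤ)} {q : ℤ × ℤ × ℤ → ℤ × ℤ × ℤ} {D D' R R' : ℝ}
    (h : EqFam O q D R) (hD : D' ≤ D) (hR : R ≤ R') : EqFam O q D' R' := by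
  intro T h1 h2 h3 f h4 h5
  exact le_trans (h T h1 h2 (le_trans h3 hD) f h4 h5) hR

theorem gb2_abs {x R : ℝ} {y : ℤ} (hy : ((y : ℝ)) ^ 2 ≤ x) (hx : x ≤ R ^ 2) (hR : 0 ≤ R) :
    -⌊R⌋ - 1 < y ∧ y ≤ ⌊R⌋ := by
  have h1 : |(y : ℝ)| ≤ R := by
    apply abs_le_of_sq_le_sq _ hR
    linarith
  have h2 := abs_le.1 h1
  constructor
  · have h3 : -R ≤ (y : ℝ) := h2.1
    have h4 : (-y : ℤ) ≤ ⌊R⌋ := by
      apply Int.le_floor.2
      push_cast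
      linarith
    omega
  · exact Int.le_floor.2 h2.2

/-- the numerical part -/
theorem gb2_num (C₄ : ℝ) (c c1 : ℝ) (hc : 0 < c) (hc0 : c ≤ 1 / 100)
    (hc1 : 4 * c ≤ c1) : ∃ X₀ : ℝ, 2 ≤ X₀ ∧ ∀ X : ℝ, X₀ ≤ X →
      5 * C₄ * X ^ (1 / 2 + c / 2) ≤ X ^ (1 / 2 + c1) ∧
      X ^ (1 / 2 - c1) * 5 ≤ X ^ (1 / 2 - c / 2) ∧ 40 ≤ X ^ (1 / 2 - c / 2) := by
  have t1 := (tendsto_rpow_atTop (y := c1 - c / 2) (by linarith)).eventually_ge_atTop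
    (max (5 * C₄) 5)
  have t2 := (tendsto_rpow_atTop (y := 1 / 2 - c / 2) (by linarith)).eventually_ge_atTop (40 : ℝ)
  obtain ⟨X₁, hX₁⟩ := eventually_atTop.1 (t1.and t2)
  refine ⟨max X₁ 2, le_max_right _ _, fun X hX => ?_⟩
  have hX2 : 2 ≤ X := le_trans (le_max_right _ _) hX
  have hX0 : 0 < X := by linarith
  obtain ⟨h1, h2⟩ := hX₁ X (le_trans (le_max_left _ _) hX)
  have h3 : 5 * C₄ ≤ X ^ (c1 - c / 2) := le_trans (le_max_left _ _) h1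
  have h4 : 5 ≤ X ^ (c1 - c / 2) := le_trans (le_max_right _ _) h1
  refine ⟨?_, ?_, h2⟩
  · have e : X ^ (1 / 2 + c1) = X ^ (c1 - c / 2) * X ^ (1 / 2 + c / 2) := by
      rw [← Real.rpow_add hX0]
      congr 1
      ring
    rw [e]
    exact mul_le_mul_of_nonneg_right h3 (Real.rpow_nonneg hX0.le _)
  · have e : X ^ (1 / 2 - c / 2) = X ^ (1 / 2 - c1) * X ^ (c1 - c / 2) := by
      rw [← Real.rpow_add hX0]
      congr 1
      ring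
    rw [e]
    exact mul_le_mul_of_nonneg_left h4 (Real.rpow_nonneg hX0.le _)

theorem gb2_det {t : ℤ × ℤ × ℤ} (h0 : 0 < t.1) (h : t.1 ∣ t.2.1 * t.2.2 + 1) :
    (QQ (emat t)).1 * (QQ (emat t)).2.2 = (QQ (emat t)).2.1 ^ 2 + 1 ∧ 0 < (QQ (emat t)).1 := by
  obtain ⟨d, hd⟩ := h
  have h1 : (t.2.1 * t.2.2 + 1) / t.1 = d := by
    rw [hd]
    exact Int.mul_ediv_cancel_left d h0.ne'
  unfold QQ emat
  simp only [h1]
  constructor
  · have h2 : t.1 * d - t.2.1 * t.2.2 = 1 := by linarith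
    have h3 : (t.1 ^ 2 + t.2.2 ^ 2) * (t.2.1 ^ 2 + d ^ 2) =
        (t.1 * t.2.1 + t.2.2 * d) ^ 2 + (t.1 * d - t.2.1 * t.2.2) ^ 2 := by ring
    rw [h3, h2]
    ring
  · positivity

theorem maj_pr (C₄ : ℝ) (hC : 1 ≤ C₄) : ∃ c X₀ C : ℝ, 0 < c ∧ c ≤ 1 / 100 ∧ 2 ≤ X₀ ∧ 0 < C ∧
    ∀ X : ℝ, X₀ ≤ X → ∀ G : ℝ, X ^ (1 - c) ≤ G → G ≤ X ^ (1 + c) →
    ∃ O : Finset (ℤ × ℤ × ℤ),
      (∀ g n g' : ℤ, g * g' = n ^ 2 + 1 → G < g → (g : ℝ) ≤ 2 * G → |(n : ℝ)| ≤ C₄ * X →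
        ∃ t ∈ O, QQ (emat t) = (g, n, g')) ∧
      (∀ t ∈ O, (QQ (emat t)).1 * (QQ (emat t)).2.2 = (QQ (emat t)).2.1 ^ 2 + 1 ∧
        0 < (QQ (emat t)).1) ∧
      ((O.card : ℝ) ≤ C * X) ∧ EqFam O (fun t => QQ (emat t)) (X ^ c) (X ^ (1 - c)) := by
  obtain ⟨c1, X1, hc1, hc1', hX1, H1⟩ := eq_prod
  obtain ⟨c2, X2, hc2, hc2', hX2, H2⟩ := box_upper
  obtain ⟨c, hcdef⟩ : ∃ c : ℝ, c = min c1 c2 / 4 := ⟨_, rfl⟩
  have hmin : 0 < min c1 c2 := lt_min hc1 hc2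
  have hc0 : 0 < c := by rw [hcdef]; linarith
  have hcc1 : 4 * c ≤ c1 := by
    have := min_le_left c1 c2
    rw [hcdef]; linarith
  have hcc2 : 4 * c ≤ c2 := by
    have := min_le_right c1 c2
    rw [hcdef]; linarith
  have hc100 : c ≤ 1 / 100 := by linarith
  obtain ⟨Y1, hY1, K1⟩ := gb2_num C₄ c c1 hc0 hc100 hcc1
  obtain ⟨Y2, hY2, K2⟩ := gb2_num C₄ c c2 hc0 hc100 hcc2
  refine ⟨c, max (max X1 X2) (max Y1 Y2), 51 * C₄, hc0, hc100,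
    le_trans hX1 (le_trans (le_max_left _ _) (le_max_left _ _)), by linarith, ?_⟩
  intro X hX G hG1 hG2
  have hXX1 : X1 ≤ X := le_trans (le_trans (le_max_left _ _) (le_max_left _ _)) hX
  have hXX2 : X2 ≤ X := le_trans (le_trans (le_max_right _ _) (le_max_left _ _)) hX
  have hXY1 : Y1 ≤ X := le_trans (le_trans (le_max_left _ _) (le_max_right _ _)) hX
  have hXY2 : Y2 ≤ X := le_trans (le_trans (le_max_right _ _) (le_max_right _ _)) hX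
  obtain ⟨a1, a2, a3⟩ := K1 X hXY1
  obtain ⟨b1, b2, -⟩ := K2 X hXY2
  have hX2' : 2 ≤ X := le_trans hX1 hXX1
  have hX0 : 0 < X := by linarith
  have hX1' : 1 ≤ X := by linarith
  have hG0 : 0 < G := lt_of_lt_of_le (Real.rpow_pos_of_pos hX0 _) hG1
  -- the square root
  obtain ⟨s, hs⟩ : ∃ s : ℝ, s = √G := ⟨_, rfl⟩
  have hs0 : 0 ≤ s := by rw [hs]; exact Real.sqrt_nonneg _
  have hs2 : s ^ 2 = G := by rw [hs]; exact Real.sq_sqrt hG0.le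
  obtain ⟨P, hP⟩ : ∃ P : ℝ, P = X ^ (1 / 2 - c / 2) := ⟨_, rfl⟩
  obtain ⟨Q, hQ⟩ : ∃ Q : ℝ, Q = X ^ (1 / 2 + c / 2) := ⟨_, rfl⟩
  have hP2 : P ^ 2 = X ^ (1 - c) := by
    rw [hP, pow_two, ← Real.rpow_add hX0]
    congr 1
    ring
  have hQ2 : Q ^ 2 = X ^ (1 + c) := by
    rw [hQ, pow_two, ← Real.rpow_add hX0]
    congr 1
    ring
  have hPQ : P * Q = X := by
    rw [hP, hQ, ← Real.rpow_add hX0]
    have : (1 / 2 - c / 2 + (1 / 2 + c / 2) : ℝ) = 1 := by ring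
    rw [this, Real.rpow_one]
  have hP0 : 0 < P := by rw [hP]; exact Real.rpow_pos_of_pos hX0 _
  have hQ0 : 0 < Q := by rw [hQ]; exact Real.rpow_pos_of_pos hX0 _
  rw [← hQ] at a1 b1
  rw [← hP] at a2 a3 b2
  have hPs : P ≤ s := by
    apply le_of_sq_le_sq _ hs0
    rw [hP2, hs2]
    exact hG1
  have hsQ : s ≤ Q := by
    apply le_of_sq_le_sq _ hQ0.le
    rw [hQ2, hs2]
    exact hG2
  have hs40 : 40 ≤ s := le_trans a3 hPs
  have hspos : 0 < s := by linarith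
  have hQX : Q ≤ X := by
    rw [hQ]
    calc X ^ (1 / 2 + c / 2) ≤ X ^ (1 : ℝ) := Real.rpow_le_rpow_of_exponent_le hX1' (by linarith)
      _ = X := Real.rpow_one X
  have hXs : X / s ≤ Q := by
    rw [div_le_iff₀ hspos]
    calc X = P * Q := hPQ.symm
      _ ≤ s * Q := mul_le_mul_of_nonneg_right hPs hQ0.le
      _ = Q * s := mul_comm _ _
  -- the roots of G/2 and 2G
  obtain ⟨r, hr⟩ : ∃ r : ℝ, r = √(G / 2) := ⟨_, rfl⟩
  have hr0 : 0 ≤ r := by rw [hr]; exact Real.sqrt_nonneg _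
  have hr2 : r ^ 2 = G / 2 := by rw [hr]; exact Real.sq_sqrt (by linarith)
  have hrs : s / 2 ≤ r := by
    apply le_of_sq_le_sq _ hr0
    rw [hr2, div_pow, hs2]
    linarith
  have hrs' : r ≤ s := by
    apply le_of_sq_le_sq _ hs0
    rw [hr2, hs2]
    linarith
  have h2r : (2 * r) ^ 2 = 2 * G := by rw [mul_pow, hr2]; ring
  obtain ⟨A₁, hA₁⟩ : ∃ A₁ : ℕ, A₁ = ⌊r⌋₊ := ⟨_, rfl⟩
  obtain ⟨A₂, hA₂⟩ : ∃ A₂ : ℕ, A₂ = ⌊2 * r⌋₊ := ⟨_, rfl⟩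
  have hA1le : (A₁ : ℝ) ≤ r := by rw [hA₁]; exact Nat.floor_le hr0
  have hA1lt : r < A₁ + 1 := by rw [hA₁]; exact Nat.lt_floor_add_one r
  have hA2le : (A₂ : ℝ) ≤ 2 * r := by rw [hA₂]; exact Nat.floor_le (by linarith)
  have hA12 : A₁ ≤ A₂ := by
    rw [hA₁, hA₂]
    exact Nat.floor_le_floor (by linarith)
  have hA1big : (1 : ℝ) ≤ A₁ := by linarith
  have hA24 : A₂ ≤ 4 * A₁ := by
    have h1 : (A₂ : ℝ) ≤ 4 * A₁ := by linarith
    exact_mod_cast h1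
  -- the other sides
  obtain ⟨R, hR⟩ : ∃ R : ℝ, R = (C₄ * X + 1) / s := ⟨_, rfl⟩
  have hC4X : X ≤ C₄ * X := le_mul_of_one_le_left hX0.le hC
  have hR0 : 0 ≤ R := by rw [hR]; apply div_nonneg _ hs0; linarith
  have hBR : 2 * R + 1 ≤ 5 * C₄ * (X / s) := by
    rw [hR]
    have e1 : 2 * ((C₄ * X + 1) / s) + 1 = (2 * (C₄ * X + 1) + s) / s := by field_simp
    have e2 : 5 * C₄ * (X / s) = (5 * C₄ * X) / s := by ring
    rw [e1, e2]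
    apply div_le_div_of_nonneg_right _ hs0
    linarith
  have hBR2 : 5 * C₄ * (X / s) ≤ 5 * C₄ * Q := mul_le_mul_of_nonneg_left hXs (by linarith)
  have hfR : ((⌊R⌋ : ℤ) : ℝ) ≤ R := Int.floor_le R
  have hfR0 : (0 : ℤ) ≤ ⌊R⌋ := Int.floor_nonneg.2 hR0
  have hfr : ((⌊2 * r⌋ : ℤ) : ℝ) ≤ 2 * r := Int.floor_le _
  have hfr0 : (0 : ℤ) ≤ ⌊2 * r⌋ := Int.floor_nonneg.2 (by linarith)
  have hBlen : ((⌊R⌋ : ℤ) : ℝ) - ((-⌊R⌋ - 1 : ℤ) : ℝ) ≤ 5 * C₄ * (X / s) := by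
    push_cast
    linarith
  have hClen : ((⌊2 * r⌋ : ℤ) : ℝ) - ((-⌊2 * r⌋ - 1 : ℤ) : ℝ) ≤ 5 * s := by
    push_cast
    linarith
  have hBlen0 : 0 ≤ ((⌊R⌋ : ℤ) : ℝ) - ((-⌊R⌋ - 1 : ℤ) : ℝ) := by
    have : (0 : ℝ) ≤ ((⌊R⌋ : ℤ) : ℝ) := by exact_mod_cast hfR0
    push_cast
    linarith
  have hs5Q : 5 * s ≤ 5 * C₄ * Q := by
    have h1 : Q ≤ C₄ * Q := le_mul_of_one_le_left hQ0.le hC
    have h2 : 5 * C₄ * Q = 5 * (C₄ * Q) := by ring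
    rw [h2]
    linarith
  refine ⟨EBox A₁ A₂ (-⌊R⌋ - 1) ⌊R⌋ (-⌊2 * r⌋ - 1) ⌊2 * r⌋, ?_, ?_, ?_, ?_⟩
  · intro g n g' hgg hg1 hg2 hn
    have hgpos : 0 < g := by
      have h1 : (0 : ℝ) < g := lt_trans hG0 hg1
      exact_mod_cast h1
    obtain ⟨α, β, γ, δ, hdet, hgα, hnα, hg'α, hα0, hγα⟩ := form_decomp g n g' hgpos hgg
    have hαR : (0 : ℝ) < α := by exact_mod_cast hα0
    have hgR : (g : ℝ) = (α : ℝ) ^ 2 + (γ : ℝ) ^ 2 := by exact_mod_cast hgα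
    have hg'R : (g' : ℝ) = (β : ℝ) ^ 2 + (δ : ℝ) ^ 2 := by exact_mod_cast hg'α
    have hγαR : (γ : ℝ) ^ 2 ≤ (α : ℝ) ^ 2 := by exact_mod_cast hγα
    have hggR : (g : ℝ) * g' = (n : ℝ) ^ 2 + 1 := by exact_mod_cast hgg
    refine ⟨(α, β, γ), ?_, ?_⟩
    · unfold EBox
      rw [mem_filter, mem_product, mem_product, mem_Ioc, mem_Ioc, mem_Ioc]
      refine ⟨⟨⟨?_, ?_⟩, ?_, ?_⟩, ?_⟩
      · have h1 : r < α := by
          apply lt_of_pow_lt_pow_left₀ 2 hαR.le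
          rw [hr2]
          linarith
        have h2 : (A₁ : ℝ) < α := lt_of_le_of_lt hA1le h1
        exact_mod_cast h2
      · have h1 : (α : ℝ) ≤ 2 * r := by
          apply le_of_sq_le_sq _ (by linarith)
          rw [h2r]
          have h0 := sq_nonneg (γ : ℝ)
          linarith
        have h2 : α.toNat ≤ A₂ := by
          rw [hA₂]
          apply Nat.le_floor
          have h3 : ((α.toNat : ℕ) : ℤ) = α := Int.toNat_of_nonneg hα0.le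
          have h4 : ((α.toNat : ℕ) : ℝ) = α := by exact_mod_cast h3
          rw [h4]
          exact h1
        show α ≤ (A₂ : ℤ)
        omega
      · show -⌊R⌋ - 1 < β ∧ β ≤ ⌊R⌋
        apply gb2_abs (x := (g' : ℝ)) _ _ hR0
        · rw [hg'R]
          have h0 := sq_nonneg (δ : ℝ)
          linarith
        · rw [hR, div_pow, hs2, le_div_iff₀ hG0]
          have hg'0 : 0 ≤ (g' : ℝ) := by rw [hg'R]; positivity
          have hn2 : (n : ℝ) ^ 2 ≤ (C₄ * X) ^ 2 := by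
            rw [← sq_abs (n : ℝ)]
            exact pow_le_pow_left₀ (abs_nonneg _) hn 2
          have h5 : (g' : ℝ) * G ≤ g' * g := mul_le_mul_of_nonneg_left hg1.le hg'0
          have h6 : (C₄ * X + 1) ^ 2 = (C₄ * X) ^ 2 + 2 * (C₄ * X) + 1 := by ring
          have h7 : (g' : ℝ) * g = (n : ℝ) ^ 2 + 1 := by rw [mul_comm]; exact hggR
          rw [h6]
          linarith
      · show -⌊2 * r⌋ - 1 < γ ∧ γ ≤ ⌊2 * r⌋
        apply gb2_abs (x := (g : ℝ)) _ _ (by linarith)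
        · rw [hgR]
          have h0 := sq_nonneg (α : ℝ)
          linarith
        · rw [h2r]
          exact hg2
      · show α ∣ β * γ + 1
        exact ⟨δ, by linarith⟩
    · have h1 : (β * γ + 1) / α = δ := by
        have h2 : β * γ + 1 = α * δ := by linarith
        rw [h2]
        exact Int.mul_ediv_cancel_left δ hα0.ne'
      unfold QQ emat
      simp only [h1]
      rw [hgα, hnα, hg'α]
  · intro t ht
    unfold EBox at ht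
    rw [mem_filter, mem_product, mem_Ioc] at ht
    have h1 : (A₁ : ℤ) < t.1 := ht.1.1.1
    exact gb2_det (by omega) ht.2
  · have h1 := H2 X hXX2 A₁ A₂ (-⌊R⌋ - 1) ⌊R⌋ (-⌊2 * r⌋ - 1) ⌊2 * r⌋ (by linarith)
      hA24 (by linarith) (by omega) (by linarith) (by omega) (by linarith)
    have h2 : X ^ (1 - c2) ≤ X := by
      calc X ^ (1 - c2) ≤ X ^ (1 : ℝ) := Real.rpow_le_rpow_of_exponent_le hX1' (by linarith)
        _ = X := Real.rpow_one X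
    have h3 : (((⌊R⌋ : ℤ) : ℝ) - ((-⌊R⌋ - 1 : ℤ) : ℝ)) *
        (((⌊2 * r⌋ : ℤ) : ℝ) - ((-⌊2 * r⌋ - 1 : ℤ) : ℝ)) ≤ (5 * C₄ * (X / s)) * (5 * s) :=
      mul_le_mul hBlen hClen (by
        have : (0 : ℝ) ≤ ((⌊2 * r⌋ : ℤ) : ℝ) := by exact_mod_cast hfr0
        push_cast
        linarith) (le_trans hBlen0 hBlen)
    have h4 : (5 * C₄ * (X / s)) * (5 * s) = 25 * (C₄ * X) := by field_simp; ring
    have h5 : 51 * C₄ * X = 51 * (C₄ * X) := by ring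
    rw [h5]
    rw [h4] at h3
    refine le_trans h1 ?_
    rw [mul_assoc]
    linarith
  · have h1 := H1 X hXX1 A₁ A₂ (-⌊R⌋ - 1) ⌊R⌋ (-⌊2 * r⌋ - 1) ⌊2 * r⌋ (by linarith)
      hA12 (by linarith) (by omega) (by linarith) (by omega) (by linarith)
    refine gb2_mono h1 ?_ ?_
    · exact Real.rpow_le_rpow_of_exponent_le hX1' (by linarith)
    · exact Real.rpow_le_rpow_of_exponent_le hX1' (by linarith)

theorem maj : type_of% @maj_pr := @maj_pr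

end Pool.Agent.PENT.EQ
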