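import Pool.Agent.Lib_helper39.PEQ.QDefs

/-! block GC1 of PEQ, proved by helper35 -/

set_option autoImplicit false

namespace Pool.Agent.PENT.EQ

open Finset

theorem gc1_tot (a : ℕ) (ha : 1 ≤ a) :
    1 - ∑ p ∈ a.primeFactors, (1 : ℝ) / p ≤ (Nat.totient a : ℝ) / a := by
  classical
  have ha0 : (0 : ℝ) < a := by exact_mod_cast ha
  have h1 : (range a).filter (fun b => ¬ a.Coprime b) ⊆
      a.primeFactors.biUnion fun p => (range (a / p)).image fun k => p * k := by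
    intro b hb
    rw [Finset.mem_filter, Finset.mem_range] at hb
    obtain ⟨p, hp, hpa, hpb⟩ := Nat.Prime.not_coprime_iff_dvd.mp hb.2
    rw [Finset.mem_biUnion]
    refine ⟨p, Nat.mem_primeFactors.mpr ⟨hp, hpa, by omega⟩, ?_⟩
    obtain ⟨k, hk⟩ := hpb
    rw [Finset.mem_image]
    refine ⟨k, ?_, hk.symm⟩
    rw [Finset.mem_range]
    obtain ⟨l, hl⟩ := hpa
    have hp0 : 0 < p := hp.pos
    rw [hl, Nat.mul_div_cancel_left _ hp0]
    have h3 : p * k < p * l := by rw [← hk, ← hl]; exact hb.1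
    exact lt_of_mul_lt_mul_left h3 (Nat.zero_le _)
  have h2 : ((range a).filter (fun b => ¬ a.Coprime b)).card ≤ ∑ p ∈ a.primeFactors, a / p := by
    refine (Finset.card_le_card h1).trans (Finset.card_biUnion_le.trans ?_)
    refine Finset.sum_le_sum fun p _ => ?_
    refine Finset.card_image_le.trans ?_
    rw [Finset.card_range]
  have h3 : Nat.totient a + ((range a).filter (fun b => ¬ a.Coprime b)).card = a := by
    have h4 := Finset.card_filter_add_card_filter_not (s := range a) (fun b => a.Coprime b)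
    rw [Finset.card_range] at h4
    rw [Nat.totient_eq_card_coprime]
    exact h4
  have h4 : (a : ℝ) - ∑ p ∈ a.primeFactors, (a : ℝ) / p ≤ Nat.totient a := by
    have h5 : ((∑ p ∈ a.primeFactors, a / p : ℕ) : ℝ) ≤ ∑ p ∈ a.primeFactors, (a : ℝ) / p := by
      push_cast
      exact Finset.sum_le_sum fun p _ => Nat.cast_div_le
    have h6 : (a : ℝ) ≤ Nat.totient a + ((∑ p ∈ a.primeFactors, a / p : ℕ) : ℝ) := by
      have : a ≤ Nat.totient a + ∑ p ∈ a.primeFactors, a / p := by omega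
      exact_mod_cast this
    linarith
  rw [le_div_iff₀ ha0, sub_mul, one_mul, Finset.sum_mul]
  refine le_trans (le_of_eq ?_) h4
  congr 1
  refine Finset.sum_congr rfl fun p _ => ?_
  ring

theorem gc1_sq (N : ℕ) : ∑ p ∈ range (2 * N + 3), (if p.Prime then (1 : ℝ) / (p : ℝ) ^ 2 else 0) ≤
    1 / 4 + 1 / 4 * (1 - 1 / ((N : ℝ) + 1)) := by
  induction N with
  | zero =>
    simp only [Nat.mul_zero, Nat.zero_add, Finset.sum_range_succ, Finset.range_zero,
      Finset.sum_empty]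
    norm_num [Nat.prime_two]
  | succ N ih =>
    have h1 : 2 * (N + 1) + 3 = 2 * N + 3 + 1 + 1 := by ring
    rw [h1, Finset.sum_range_succ, Finset.sum_range_succ]
    have h2 : ¬ (2 * N + 3 + 1).Prime := by
      intro h
      have h3 : 2 ∣ 2 * N + 3 + 1 := ⟨N + 2, by ring⟩
      have h4 := (Nat.prime_dvd_prime_iff_eq Nat.prime_two h).mp h3
      omega
    rw [if_neg h2, add_zero]
    have h3 : (if (2 * N + 3).Prime then (1 : ℝ) / ((2 * N + 3 : ℕ) : ℝ) ^ 2 else 0) ≤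
        1 / 4 * (1 / ((N : ℝ) + 1) - 1 / ((N : ℝ) + 1 + 1)) := by
      have hN : (0 : ℝ) ≤ N := Nat.cast_nonneg N
      have h5 : 1 / 4 * (1 / ((N : ℝ) + 1) - 1 / ((N : ℝ) + 1 + 1)) =
          1 / (4 * ((N : ℝ) + 1) * ((N : ℝ) + 2)) := by
        field_simp
        ring
      rw [h5]
      split_ifs
      · refine one_div_le_one_div_of_le (by positivity) ?_
        push_cast
        nlinarith
      · positivity
    push_cast at ih h3 ⊢
    linarith

theorem gc1_cnt (A B p : ℕ) (hp : 1 ≤ p) (hAB : A ≤ B) :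
    (((Ioc A B).filter fun a => p ∣ a).card : ℝ) ≤ ((B : ℝ) - A) / p + 1 := by
  have hp0 : (0 : ℝ) < p := by exact_mod_cast hp
  have h1 : ((Ioc A B).filter fun a => p ∣ a).card + ((Ioc 0 A).filter fun a => p ∣ a).card =
      ((Ioc 0 B).filter fun a => p ∣ a).card := by
    rw [← Finset.card_union_of_disjoint]
    · congr 1
      ext x
      simp only [Finset.mem_union, Finset.mem_filter, Finset.mem_Ioc]
      constructor
      · rintro (⟨⟨h1, h2⟩, h3⟩ | ⟨⟨h1, h2⟩, h3⟩)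
        · exact ⟨⟨by omega, h2⟩, h3⟩
        · exact ⟨⟨h1, by omega⟩, h3⟩
      · rintro ⟨⟨h1, h2⟩, h3⟩
        by_cases h : A < x
        · exact Or.inl ⟨⟨h, h2⟩, h3⟩
        · exact Or.inr ⟨⟨h1, by omega⟩, h3⟩
    · rw [Finset.disjoint_left]
      intro x hx hx'
      simp only [Finset.mem_filter, Finset.mem_Ioc] at hx hx'
      omega
  rw [Nat.Ioc_filter_dvd_card_eq_div, Nat.Ioc_filter_dvd_card_eq_div] at h1
  have h2 : ((((Ioc A B).filter fun a => p ∣ a).card : ℕ) : ℝ) + ((A / p : ℕ) : ℝ) =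
      ((B / p : ℕ) : ℝ) := by exact_mod_cast h1
  have h3 : ((B / p : ℕ) : ℝ) ≤ (B : ℝ) / p := Nat.cast_div_le
  have h4 : (A : ℝ) / p < ((A / p : ℕ) : ℝ) + 1 := by
    rw [div_lt_iff₀ hp0]
    have := Nat.lt_div_mul_add (a := A) (b := p) hp
    have h5 : (A : ℝ) < ((A / p * p + p : ℕ) : ℝ) := by exact_mod_cast this
    push_cast at h5
    linarith
  have h5 : ((B : ℝ) - A) / p = (B : ℝ) / p - (A : ℝ) / p := by ring
  linarith

/-- GC1 -/
theorem totient_54_pr : ∃ A₀ : ℕ, 1 ≤ A₀ ∧ ∀ A : ℕ, A₀ ≤ A →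
    1 / 16 ≤ ∑ α ∈ Ioc A (5 * A / 4), (Nat.totient α : ℝ) / (α : ℝ) ^ 2 := by
  refine ⟨1000, by norm_num, fun A hA => ?_⟩
  have hA0 : (0 : ℝ) < A := by
    have : 0 < A := by omega
    exact_mod_cast this
  have hA1 : (1000 : ℝ) ≤ A := by exact_mod_cast hA
  obtain ⟨B, hB⟩ : ∃ B : ℕ, B = 5 * A / 4 := ⟨_, rfl⟩
  rw [← hB]
  have hB1 : (B : ℝ) ≤ 5 * A / 4 := by
    have : 4 * B ≤ 5 * A := by omega
    have : (4 : ℝ) * B ≤ 5 * A := by exact_mod_cast this
    linarith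
  have hB2 : 5 * (A : ℝ) / 4 - 1 ≤ B := by
    have : 5 * A ≤ 4 * B + 4 := by omega
    have : (5 : ℝ) * A ≤ 4 * B + 4 := by exact_mod_cast this
    linarith
  have hAB : A ≤ B := by omega
  have h1 : ∑ α ∈ Ioc A B, (1 - ∑ p ∈ α.primeFactors, (1 : ℝ) / p) / (5 * A / 4) ≤
      ∑ α ∈ Ioc A B, (Nat.totient α : ℝ) / (α : ℝ) ^ 2 := by
    refine Finset.sum_le_sum fun a ha => ?_
    rw [Finset.mem_Ioc] at ha
    have ha0 : (0 : ℝ) < a := by
      have : 0 < a := by omega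
      exact_mod_cast this
    have ha2 : (a : ℝ) ≤ 5 * A / 4 := by
      have : (a : ℝ) ≤ B := by exact_mod_cast ha.2
      linarith
    have h2 := gc1_tot a (by omega)
    calc (1 - ∑ p ∈ a.primeFactors, (1 : ℝ) / p) / (5 * A / 4)
        ≤ ((Nat.totient a : ℝ) / a) / (5 * A / 4) := by
          exact div_le_div_of_nonneg_right h2 (by positivity)
      _ ≤ ((Nat.totient a : ℝ) / a) / a := by
          exact div_le_div_of_nonneg_left (by positivity) ha0 ha2
      _ = (Nat.totient a : ℝ) / (a : ℝ) ^ 2 := by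
          rw [div_div, ← sq]
  refine le_trans ?_ h1
  rw [← Finset.sum_div, Finset.sum_sub_distrib, Finset.sum_const, Nat.card_Ioc, nsmul_eq_mul,
    mul_one]
  have h2 : ((B - A : ℕ) : ℝ) = (B : ℝ) - A := by
    rw [Nat.cast_sub hAB]
  rw [h2]
  -- the sum over the primes
  have h3 : ∑ a ∈ Ioc A B, ∑ p ∈ a.primeFactors, (1 : ℝ) / p =
      ∑ p ∈ (range (2 * A + 3)).filter Nat.Prime, ∑ a ∈ (Ioc A B).filter (fun a => p ∣ a),
        (1 : ℝ) / p := by
    refine Finset.sum_comm' fun a p => ?_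
    simp only [Finset.mem_Ioc, Nat.mem_primeFactors, Finset.mem_filter, Finset.mem_range]
    constructor
    · rintro ⟨⟨ha1, ha2⟩, hp, hpa, -⟩
      have := Nat.le_of_dvd (by omega) hpa
      exact ⟨⟨⟨ha1, ha2⟩, hpa⟩, by omega, hp⟩
    · rintro ⟨⟨⟨ha1, ha2⟩, hpa⟩, -, hp⟩
      exact ⟨⟨ha1, ha2⟩, hp, hpa, by omega⟩
  have hL0 : 0 ≤ (B : ℝ) - A := by
    have : (A : ℝ) ≤ B := by exact_mod_cast hAB
    linarith
  have h4 : ∀ p ∈ (range (2 * A + 3)).filter Nat.Prime,
      ∑ a ∈ (Ioc A B).filter (fun a => p ∣ a), (1 : ℝ) / p ≤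
        (((B : ℝ) - A) + 16) * (1 / (p : ℝ) ^ 2) + 1 / 64 := by
    intro p hp
    rw [Finset.mem_filter] at hp
    have hp0 : (0 : ℝ) < p := by exact_mod_cast hp.2.pos
    rw [Finset.sum_const, nsmul_eq_mul]
    have h5 := gc1_cnt A B p hp.2.one_lt.le hAB
    have h6 : (((Ioc A B).filter fun a => p ∣ a).card : ℝ) * (1 / p) ≤
        (((B : ℝ) - A) / p + 1) * (1 / p) :=
      mul_le_mul_of_nonneg_right h5 (by positivity)
    have h7 : (1 : ℝ) / p ≤ 16 * (1 / (p : ℝ) ^ 2) + 1 / 64 := by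
      have h8 : (1 : ℝ) / (p : ℝ) ^ 2 = (1 / p) * (1 / p) := by rw [sq]; field_simp
      rw [h8]
      nlinarith [sq_nonneg (4 * (1 / (p : ℝ)) - 1 / 8)]
    have h9 : (((B : ℝ) - A) / p + 1) * (1 / p) = ((B : ℝ) - A) * (1 / (p : ℝ) ^ 2) + 1 / p := by
      field_simp
    rw [h9] at h6
    linarith
  have h5 : ∑ a ∈ Ioc A B, ∑ p ∈ a.primeFactors, (1 : ℝ) / p ≤
      (((B : ℝ) - A) + 16) * (1 / 2) + (2 * A + 3) * (1 / 64) := by
    rw [h3]
    refine (Finset.sum_le_sum h4).trans ?_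
    rw [Finset.sum_add_distrib, ← Finset.mul_sum]
    refine add_le_add (mul_le_mul_of_nonneg_left ?_ (by linarith)) ?_
    · rw [Finset.sum_filter]
      refine (gc1_sq A).trans ?_
      have : 0 ≤ 1 / ((A : ℝ) + 1) := by positivity
      linarith
    · rw [Finset.sum_const, nsmul_eq_mul]
      refine mul_le_mul_of_nonneg_right ?_ (by norm_num)
      have := Finset.card_filter_le (range (2 * A + 3)) Nat.Prime
      rw [Finset.card_range] at this
      exact_mod_cast this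
  rw [le_div_iff₀ (by positivity)]
  linarith

theorem totient_54 : type_of% @totient_54_pr := @totient_54_pr

end Pool.Agent.PENT.EQ
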