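import Pool.Agent.Lib_helper39.PEQ.Defs
import Pool.Agent.Lib_helper39.PEQ.QDefs
import Pool.Agent.Lib_helper39.PEQF.GB1
import Pool.Agent.Lib_helper39.PEQF.GC2
import Pool.Agent.Lib_helper39.PEQF.GC3

/-! block GC4 of PEQ, proved by helper30 -/
set_option autoImplicit false

namespace Pool.Agent.PENT.EQ

open Finset

theorem gc4_image (O' : Finset (ℤ × ℤ × ℤ)) (φ : ℤ × ℤ × ℤ → ℤ × ℤ × ℤ)
    (hinj : Set.InjOn φ (O' : Set (ℤ × ℤ × ℤ))) {D D' R R' : ℝ} (hD : D' ≤ D) (hR : R ≤ R')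
    (h : EqFam O' φ D R) : EqFam (O'.image φ) (fun v => v) D' R' := by
  intro T hT hT' hTD f hf hf'
  have h1 := h T hT hT' (hTD.trans hD) f hf hf'
  rw [Finset.sum_image hinj, Finset.card_image_of_injOn hinj]
  exact h1.trans hR

theorem gc4_bd (A X al be ga : ℝ) (hA : 1 ≤ A) (h : 3.203125 * A ^ 2 + 1.25 ≤ 2 * X)
    (h1 : A ≤ al) (h1' : al ≤ 5 / 4 * A) (hbe : 0 ≤ be) (hbe' : be ≤ 5 / 4 * A)
    (hga : 0 ≤ ga) (hga' : ga ≤ 5 / 4 * A) : be * (al ^ 2 + ga ^ 2) + ga ≤ 2 * X * al := by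
  have hal : 0 ≤ al := by linarith
  have h2 : al ^ 2 ≤ 9 / 4 * A * al - 5 / 4 * A ^ 2 := by nlinarith
  have h3 : ga ^ 2 ≤ 25 / 16 * A ^ 2 := by nlinarith
  have h4 : be * (al ^ 2 + ga ^ 2) ≤ 5 / 4 * A * (9 / 4 * A * al + 5 / 16 * A ^ 2) := by
    have h5 : al ^ 2 + ga ^ 2 ≤ 9 / 4 * A * al + 5 / 16 * A ^ 2 := by linarith
    have h6 : 0 ≤ al ^ 2 + ga ^ 2 := by positivity
    calc be * (al ^ 2 + ga ^ 2) ≤ 5 / 4 * A * (al ^ 2 + ga ^ 2) :=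
          mul_le_mul_of_nonneg_right hbe' h6
      _ ≤ 5 / 4 * A * (9 / 4 * A * al + 5 / 16 * A ^ 2) :=
          mul_le_mul_of_nonneg_left h5 (by positivity)
  have h5 : A ^ 2 * A ≤ A ^ 2 * al := mul_le_mul_of_nonneg_left h1 (by positivity)
  have h6 : (3.203125 * A ^ 2 + 1.25) * al ≤ 2 * X * al := mul_le_mul_of_nonneg_right h hal
  nlinarith

theorem gc4_mat {A₁ A₂ : ℕ} {B₁ B₂ C₁ C₂ : ℤ} {t : ℤ × ℤ × ℤ} (ht : t ∈ EBox A₁ A₂ B₁ B₂ C₁ C₂) :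
    ((A₁ : ℤ) < t.1 ∧ t.1 ≤ A₂ ∧ B₁ < t.2.1 ∧ t.2.1 ≤ B₂ ∧ C₁ < t.2.2 ∧ t.2.2 ≤ C₂) ∧
      t.1 * (emat t).2.2.2 = t.2.1 * t.2.2 + 1 := by
  unfold EBox at ht
  rw [Finset.mem_filter, Finset.mem_product, Finset.mem_product, Finset.mem_Ioc, Finset.mem_Ioc,
    Finset.mem_Ioc] at ht
  refine ⟨⟨ht.1.1.1, ht.1.1.2, ht.1.2.1.1, ht.1.2.1.2, ht.1.2.2.1, ht.1.2.2.2⟩, ?_⟩
  show t.1 * ((t.2.1 * t.2.2 + 1) / t.1) = t.2.1 * t.2.2 + 1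
  exact Int.mul_ediv_cancel' ht.2

theorem gc4_pos {A₁ A₂ : ℕ} {B₁ B₂ C₁ C₂ : ℤ} (hB : 0 ≤ B₁) (hC : 0 ≤ C₁) {t : ℤ × ℤ × ℤ}
    (ht : t ∈ EBox A₁ A₂ B₁ B₂ C₁ C₂) :
    0 < t.1 ∧ 0 < t.2.1 ∧ 0 < t.2.2 ∧ 0 < (emat t).2.2.2 := by
  obtain ⟨⟨h1, h2, h3, h4, h5, h6⟩, h7⟩ := gc4_mat ht
  have ha : 0 < t.1 := lt_of_le_of_lt (Int.natCast_nonneg _) h1
  have hb : 0 < t.2.1 := lt_of_le_of_lt hB h3
  have hc : 0 < t.2.2 := lt_of_le_of_lt hC h5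
  refine ⟨ha, hb, hc, ?_⟩
  by_contra hcon
  push Not at hcon
  have h8 : t.1 * (emat t).2.2.2 ≤ 0 := mul_nonpos_of_nonneg_of_nonpos ha.le hcon
  have h9 : 0 < t.2.1 * t.2.2 := mul_pos hb hc
  omega

theorem gc4_inj (A₁ A₂ : ℕ) (B₁ B₂ C₁ C₂ : ℤ) (hB : 0 ≤ B₁) (hC : 0 ≤ C₁) :
    Set.InjOn (fun t => QQ (emat t)) (EBox A₁ A₂ B₁ B₂ C₁ C₂ : Set (ℤ × ℤ × ℤ)) := by
  intro t ht t' ht' hQ
  have ht := Finset.mem_coe.mp ht
  have ht' := Finset.mem_coe.mp ht'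
  obtain ⟨p1, p2, p3, p4⟩ := gc4_pos hB hC ht
  obtain ⟨q1, q2, q3, q4⟩ := gc4_pos hB hC ht'
  have d := (gc4_mat ht).2
  have d' := (gc4_mat ht').2
  have h := QQ_inj (emat t) (emat t') (by
      show t.1 * (emat t).2.2.2 - t.2.1 * t.2.2 = 1
      omega) (by
      show t'.1 * (emat t').2.2.2 - t'.2.1 * t'.2.2 = 1
      omega) p1 p2 p3 p4 q1 q2 q3 q4 hQ
  have e1 : t.1 = t'.1 := congrArg (fun g => g.1) h
  have e2 : t.2.1 = t'.2.1 := congrArg (fun g => g.2.1) h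
  have e3 : t.2.2 = t'.2.2 := congrArg (fun g => g.2.2.1) h
  exact Prod.ext e1 (Prod.ext e2 e3)

theorem gc4_real (A X al be ga de : ℝ) (hA : 1 ≤ A) (hX : 1000000 ≤ X)
    (hAA : (0.5184 : ℝ) * X < A ^ 2) (hAA2 : A ^ 2 ≤ 0.52 * X)
    (a1 : A < al) (a2 : al ≤ 5 / 4 * A) (b1 : A < be) (b2 : be ≤ 5 / 4 * A) (c1 : A < ga)
    (c2 : ga ≤ 5 / 4 * A) (hb : al * (al * be + ga * de) = be * (al ^ 2 + ga ^ 2) + ga) :
    X < al ^ 2 + ga ^ 2 ∧ al ^ 2 + ga ^ 2 ≤ 2 * X ∧ X < al * be + ga * de ∧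
      al * be + ga * de ≤ 2 * X := by
  have hal0 : (0 : ℝ) < al := by linarith
  have hga0 : (0 : ℝ) < ga := by linarith
  have hbe0 : (0 : ℝ) < be := by linarith
  have hal2 : A ^ 2 ≤ al ^ 2 := pow_le_pow_left₀ (by linarith) a1.le 2
  have hga2 : A ^ 2 ≤ ga ^ 2 := pow_le_pow_left₀ (by linarith) c1.le 2
  have hal3 : al ^ 2 ≤ (5 / 4 * A) ^ 2 := pow_le_pow_left₀ hal0.le a2 2
  have hga3 : ga ^ 2 ≤ (5 / 4 * A) ^ 2 := pow_le_pow_left₀ hga0.le c2 2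
  have hsq : (5 / 4 * A) ^ 2 = 25 / 16 * A ^ 2 := by ring
  rw [hsq] at hal3 hga3
  refine ⟨by linarith, by linarith, ?_, ?_⟩
  · have h5 : (2 : ℝ) * be * ga < al * be + ga * de := by
      have h6 : al * (2 * be * ga) < al * (al * be + ga * de) := by
        rw [hb]
        have h7 : 0 ≤ be * (al - ga) ^ 2 := mul_nonneg hbe0.le (sq_nonneg _)
        have h8 : be * (al - ga) ^ 2 = be * (al ^ 2 + ga ^ 2) - al * (2 * be * ga) := by ring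
        linarith
      exact lt_of_mul_lt_mul_left h6 hal0.le
    have h7 : A * A ≤ be * ga := mul_le_mul b1.le c1.le (by linarith) hbe0.le
    have h8 : A * A = A ^ 2 := by ring
    linarith
  · have h8 := gc4_bd A X al be ga hA (by linarith) a1.le a2 hbe0.le b2 hga0.le c2
    have h9 : al * (al * be + ga * de) ≤ al * (2 * X) := by
      rw [hb]; linarith
    exact le_of_mul_le_mul_left h9 hal0

/-- GC4 = MIN -/
theorem min_fam_pr : ∃ c : ℝ, ∃ X₀ : ℕ, 0 < c ∧ c ≤ 1 / 100 ∧ 2 ≤ X₀ ∧ ∀ X : ℕ, X₀ ≤ X →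
    ∃ O : Finset (ℤ × ℤ × ℤ),
      (∀ v ∈ O, v.1 * v.2.2 = v.2.1 ^ 2 + 1 ∧ (X : ℤ) < v.1 ∧ v.1 ≤ 2 * X ∧ (X : ℤ) < v.2.1 ∧
        v.2.1 ≤ 2 * X) ∧
      ((X : ℝ) / 1000 ≤ (O.card : ℝ)) ∧
      EqFam O (fun v => v) ((X : ℝ) ^ c) ((X : ℝ) ^ (1 - c)) := by
  classical
  obtain ⟨c₁, X₁, hc₁, hc₁', hX₁, h₁⟩ := eq_prod
  obtain ⟨c₂, X₂, hc₂, hc₂', hX₂, h₂⟩ := box_lower_54
  have ev : ∀ᶠ X : ℝ in Filter.atTop, X₁ ≤ X ∧ X₂ ≤ X ∧ 1000000 ≤ X ∧ 4000 ≤ X ^ c₁ ∧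
      4000 ≤ X ^ c₂ := by
    filter_upwards [Filter.eventually_ge_atTop X₁, Filter.eventually_ge_atTop X₂,
      Filter.eventually_ge_atTop (1000000 : ℝ),
      (tendsto_rpow_atTop hc₁).eventually_ge_atTop 4000,
      (tendsto_rpow_atTop hc₂).eventually_ge_atTop 4000] with X a b c d e
    exact ⟨a, b, c, d, e⟩
  obtain ⟨X₃, hX₃⟩ := Filter.eventually_atTop.mp ev
  refine ⟨min c₁ c₂, max 2 ⌈X₃⌉₊, lt_min hc₁ hc₂, (min_le_left _ _).trans hc₁',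
    le_max_left _ _, fun X hX => ?_⟩
  have hXr : X₃ ≤ (X : ℝ) := (Nat.le_ceil X₃).trans (by exact_mod_cast (le_max_right _ _).trans hX)
  obtain ⟨g1, g2, g3, g4, g5⟩ := hX₃ (X : ℝ) hXr
  have hX0 : (0 : ℝ) < X := by linarith
  have hX1 : (1 : ℝ) ≤ X := by linarith
  set s : ℝ := √(X : ℝ) with hs
  have hss : s ^ 2 = X := Real.sq_sqrt hX0.le
  have hs1000 : (1000 : ℝ) ≤ s := by
    rw [hs]
    refine Real.le_sqrt_of_sq_le ?_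
    linarith
  have hs0 : 0 < s := by linarith
  have hsr : (X : ℝ) ^ (1 / 2 : ℝ) = s := (Real.sqrt_eq_rpow _).symm
  set A : ℕ := ⌊18 * s / 25⌋₊ + 1 with hAdef
  have hA1 : 18 * s / 25 < A := by
    rw [hAdef]; push_cast
    exact Nat.lt_floor_add_one _
  have hA2 : (A : ℝ) ≤ 18 * s / 25 + 1 := by
    rw [hAdef]; push_cast
    have := Nat.floor_le (a := 18 * s / 25) (by positivity)
    linarith
  have hAs : (A : ℝ) ≤ 0.721 * s := by linarith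
  have hAone : (1 : ℝ) ≤ A := by linarith
  have hAA : (0.5184 : ℝ) * X < (A : ℝ) ^ 2 := by
    have h := pow_lt_pow_left₀ hA1 (by positivity) (two_ne_zero)
    have h' : (18 * s / 25) ^ 2 = 0.5184 * X := by rw [← hss]; ring
    linarith
  have hAA2 : (A : ℝ) ^ 2 ≤ 0.52 * X := by
    have h := pow_le_pow_left₀ (by linarith) hAs 2
    have h' : (0.721 * s) ^ 2 = 0.519841 * X := by rw [← hss]; ring
    linarith
  set A' : ℕ := 5 * A / 4 with hA'def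
  have hA'1 : (A' : ℝ) ≤ 5 / 4 * A := by
    have h := @Nat.cast_div_le ℝ _ _ _ (5 * A) 4
    push_cast at h
    rw [hA'def]
    linarith
  have hA'2 : 5 / 4 * (A : ℝ) - 1 ≤ A' := by
    have h : 5 * A ≤ 4 * A' + 3 := by omega
    have h' : (5 : ℝ) * A ≤ 4 * A' + 3 := by exact_mod_cast h
    linarith
  have hAA' : A ≤ A' := by omega
  have hAA'z : (A : ℤ) ≤ (A' : ℤ) := by exact_mod_cast hAA'
  -- powers
  have p1 : (X : ℝ) ^ (1 / 2 + c₁) = s * (X : ℝ) ^ c₁ := by rw [Real.rpow_add hX0, hsr]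
  have p2 : (X : ℝ) ^ (1 / 2 + c₂) = s * (X : ℝ) ^ c₂ := by rw [Real.rpow_add hX0, hsr]
  have w1 : s * 4000 ≤ s * (X : ℝ) ^ c₁ := mul_le_mul_of_nonneg_left g4 hs0.le
  have w2 : s * 4000 ≤ s * (X : ℝ) ^ c₂ := mul_le_mul_of_nonneg_left g5 hs0.le
  have p3 : (X : ℝ) ^ (1 / 2 - c₁) ≤ A := by
    have h : (X : ℝ) ^ (1 / 2 - c₁) = s / (X : ℝ) ^ c₁ := by rw [Real.rpow_sub hX0, hsr]
    rw [h]
    have h' : s / (X : ℝ) ^ c₁ ≤ s / 4000 := div_le_div_of_nonneg_left hs0.le (by norm_num) g4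
    linarith
  have p4 : (X : ℝ) ^ (1 / 2 - c₂) ≤ A := by
    have h : (X : ℝ) ^ (1 / 2 - c₂) = s / (X : ℝ) ^ c₂ := by rw [Real.rpow_sub hX0, hsr]
    rw [h]
    have h' : s / (X : ℝ) ^ c₂ ≤ s / 4000 := div_le_div_of_nonneg_left hs0.le (by norm_num) g5
    linarith
  have p5 : (X : ℝ) ^ (1 - c₂) ≤ X / 4000 := by
    rw [Real.rpow_sub hX0, Real.rpow_one]
    exact div_le_div_of_nonneg_left hX0.le (by norm_num) g5
  have hdiff : (((A' : ℕ) : ℤ) : ℝ) - (((A : ℕ) : ℤ) : ℝ) ≤ 1 / 4 * A := by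
    push_cast
    linarith
  have hA'u : (A' : ℝ) ≤ (X : ℝ) ^ (1 / 2 + c₁) := by
    rw [p1]; linarith
  have hd1 : (((A' : ℕ) : ℤ) : ℝ) - (((A : ℕ) : ℤ) : ℝ) ≤ (X : ℝ) ^ (1 / 2 + c₁) := by
    rw [p1]; linarith
  have hd2 : (((A' : ℕ) : ℤ) : ℝ) - (((A : ℕ) : ℤ) : ℝ) ≤ (X : ℝ) ^ (1 / 2 + c₂) := by
    rw [p2]; linarith
  have h2A : (2 * (A : ℝ)) ≤ (X : ℝ) ^ (1 / 2 + c₂) := by
    rw [p2]; linarith
  have hE := h₁ (X : ℝ) g1 A A' (A : ℤ) (A' : ℤ) (A : ℤ) (A' : ℤ) p3 hAA' hA'u hAA'z hd1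
    hAA'z hd1
  have hL := h₂ (X : ℝ) g2 A (A : ℤ) (A' : ℤ) (A : ℤ) (A' : ℤ) p4 h2A hAA'z hd2 hAA'z hd2
  rw [← hA'def] at hL
  have hinj := gc4_inj A A' (A : ℤ) (A' : ℤ) (A : ℤ) (A' : ℤ) (Int.natCast_nonneg _)
    (Int.natCast_nonneg _)
  refine ⟨(EBox A A' (A : ℤ) (A' : ℤ) (A : ℤ) (A' : ℤ)).image fun t => QQ (emat t), ?_, ?_, ?_⟩
  · intro v hv
    obtain ⟨t, ht, rfl⟩ := Finset.mem_image.mp hv
    obtain ⟨⟨a1, a2, b1, b2, c1, c2⟩, hdet⟩ := gc4_mat ht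
    obtain ⟨q1, q2, q3, q4⟩ := gc4_pos (Int.natCast_nonneg _) (Int.natCast_nonneg _) ht
    set al := t.1 with hal
    set be := t.2.1 with hbe
    set ga := t.2.2 with hga
    set de := (emat t).2.2.2 with hde
    have e1 : (QQ (emat t)).1 = al ^ 2 + ga ^ 2 := rfl
    have e2 : (QQ (emat t)).2.1 = al * be + ga * de := rfl
    have e3 : (QQ (emat t)).2.2 = be ^ 2 + de ^ 2 := rfl
    simp only [e1, e2, e3]
    have hb : al * (al * be + ga * de) = be * (al ^ 2 + ga ^ 2) + ga := by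
      have : al * (al * be + ga * de) = be * al ^ 2 + ga * (al * de) := by ring
      rw [this, hdet]; ring
    -- real versions
    have ra1 : (A : ℝ) < al := by exact_mod_cast a1
    have ra2 : (al : ℝ) ≤ 5 / 4 * A := le_trans (by exact_mod_cast a2) hA'1
    have rb1 : (A : ℝ) < be := by exact_mod_cast b1
    have rb2 : (be : ℝ) ≤ 5 / 4 * A := le_trans (by exact_mod_cast b2) hA'1
    have rc1 : (A : ℝ) < ga := by exact_mod_cast c1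
    have rc2 : (ga : ℝ) ≤ 5 / 4 * A := le_trans (by exact_mod_cast c2) hA'1
    have hbr : (al : ℝ) * (al * be + ga * de) = be * (al ^ 2 + ga ^ 2) + ga := by
      exact_mod_cast hb
    obtain ⟨w1, w2, w3, w4⟩ := gc4_real (A : ℝ) X al be ga de hAone g3 hAA hAA2 ra1 ra2 rb1 rb2
      rc1 rc2 hbr
    refine ⟨?_, ?_, ?_, ?_, ?_⟩
    · have : (al ^ 2 + ga ^ 2) * (be ^ 2 + de ^ 2) =
          (al * be + ga * de) ^ 2 + (al * de - be * ga) ^ 2 := by ring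
      rw [this, hdet]; ring
    · exact_mod_cast w1
    · exact_mod_cast w2
    · exact_mod_cast w3
    · exact_mod_cast w4
  · rw [Finset.card_image_of_injOn hinj]
    refine le_trans ?_ hL
    have h5 : (((A' : ℕ) : ℤ) : ℝ) - (((A : ℕ) : ℤ) : ℝ) ≥ 0.179 * s := by
      push_cast
      linarith
    have h6 : (0.179 * s) * (0.179 * s) ≤ ((((A' : ℕ) : ℤ) : ℝ) - (((A : ℕ) : ℤ) : ℝ)) *
        ((((A' : ℕ) : ℤ) : ℝ) - (((A : ℕ) : ℤ) : ℝ)) :=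
      mul_le_mul h5 h5 (by positivity) (by linarith [mul_pos (show (0:ℝ) < 0.179 by norm_num) hs0])
    have h7 : (0.179 * s) * (0.179 * s) = 0.032041 * X := by rw [← hss]; ring
    linarith
  · refine gc4_image _ _ hinj ?_ ?_ hE
    · exact Real.rpow_le_rpow_of_exponent_le hX1 (min_le_left _ _)
    · exact Real.rpow_le_rpow_of_exponent_le hX1 (by linarith [min_le_left c₁ c₂])

theorem min_fam : type_of% @min_fam_pr := @min_fam_pr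

end Pool.Agent.PENT.EQ
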