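import Pool.Agent.Lib_helper39.PEQF.ED3
import Pool.Agent.Lib_helper39.PEQF.EE2
import Pool.Agent.Lib_helper39.PEQF.EE3
import Pool.Agent.Lib_helper39.PEQF.EF1
import Pool.Agent.Lib_helper39.PEQF.EF2
import Pool.Agent.Lib_helper39.PEQF.EF3
import Pool.Agent.Lib_helper39.PEQF.GB2
import Pool.Agent.Lib_helper39.PEQF.GC4

/-! EQ: everything -/
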